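import Pool.Agent.Lib.MP_1e8d1a_an.SC.Defs

/-! row Rec -/

open scoped ContDiff Manifold Topology

namespace Pool.Agent.SC

/-- helper: powers of the permutation attached to a homeomorphism -/
theorem rec_pow_eq {X : Type} [TopologicalSpace X] (f : X ≃ₜ X) (n : ℕ) (x : X) :
    (f.toEquiv ^ n : Equiv.Perm X) x = (f : X → X)^[n] x := by
  induction n generalizing x with
  | zero => rfl
  | succ n ih =>
    rw [pow_succ, Equiv.Perm.mul_apply, ih, Function.iterate_succ_apply]
    rfl

/-- helper: integer powers are continuous -/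
theorem rec_cont {X : Type} [TopologicalSpace X] (f : X ≃ₜ X) (i : ℤ) :
    Continuous (fun x => (f.toEquiv ^ i : Equiv.Perm X) x) := by
  obtain ⟨n, rfl | rfl⟩ := i.eq_nat_or_neg
  · have : (fun x => (f.toEquiv ^ (n : ℤ) : Equiv.Perm X) x) = (f : X → X)^[n] := by
      funext x
      rw [zpow_natCast, rec_pow_eq]
    rw [this]
    exact f.continuous.iterate n
  · have : (fun x => (f.toEquiv ^ (-(n : ℤ)) : Equiv.Perm X) x) = (f.symm : X → X)^[n] := by
      funext x
      rw [zpow_neg, zpow_natCast, ← inv_pow]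
      exact rec_pow_eq f.symm n x
    rw [this]
    exact f.symm.continuous.iterate n

/-- helper: infinitely many returns -/
theorem rec_infinite {X : Type} [TopologicalSpace X] [T1Space X] (f : X ≃ₜ X) (x : X)
    (h : Recurrent f.toEquiv x) (U : Set X) (hU : U ∈ 𝓝 x) :
    {i : ℤ | (f.toEquiv ^ i : Equiv.Perm X) x ∈ U}.Infinite := by
  intro hfin
  set P : Equiv.Perm X := f.toEquiv with hP
  have hinj : Function.Injective (fun m : ℤ => (P ^ m) x) := by
    intro a b hab
    by_contra hne
    have hab' : (P ^ a) x = (P ^ b) x := hab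
    have hc : (P ^ (b - a)) x = x := by
      have : (P ^ (-a)) ((P ^ a) x) = (P ^ (-a)) ((P ^ b) x) := by rw [hab']
      rw [← Equiv.Perm.mul_apply, ← Equiv.Perm.mul_apply, ← zpow_add, ← zpow_add] at this
      rw [sub_eq_neg_add, ← this]
      simp
    have hck : ∀ k : ℤ, (P ^ ((b - a) * k)) x = x := by
      intro k
      rw [zpow_mul]
      exact Function.IsFixedPt.perm_zpow hc k
    have hne' : b - a ≠ 0 := sub_ne_zero.2 (Ne.symm hne)
    have hinj2 : Function.Injective (fun k : ℤ => (b - a) * k) :=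
      mul_right_injective₀ hne'
    apply Set.infinite_range_of_injective hinj2
    refine hfin.subset ?_
    rintro _ ⟨k, rfl⟩
    change (P ^ ((b - a) * k)) x ∈ U
    rw [hck k]
    exact mem_of_mem_nhds hU
  apply h
  refine ⟨⟨?_⟩, hinj⟩
  -- a neighbourhood with a single return
  obtain ⟨U₀, hU₀U, hU₀o, hxU₀⟩ := mem_nhds_iff.1 hU
  set S : Set X := (fun m : ℤ => (P ^ m) x) '' ({i : ℤ | (P ^ i) x ∈ U} \ {0}) with hS
  have hSfin : S.Finite := (hfin.subset Set.sdiff_subset).image _
  have hxS : x ∉ S := by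
    rintro ⟨m, ⟨_, hm0⟩, hmx⟩
    apply hm0
    apply hinj
    simpa using hmx
  set V : Set X := U₀ \ S with hV
  have hVo : IsOpen V := hU₀o.sdiff hSfin.isClosed
  have hV1 : ∀ i : ℤ, (P ^ i) x ∈ V ↔ i = 0 := by
    intro i
    constructor
    · rintro ⟨h1, h2⟩
      by_contra hi
      exact h2 ⟨i, ⟨hU₀U h1, hi⟩, rfl⟩
    · rintro rfl
      exact ⟨by simpa using hxU₀, by simpa using hxS⟩
  have hdisc : ∀ m : ℤ, @IsOpen ℤ
      (TopologicalSpace.induced (fun m : ℤ => (P ^ m) x) inferInstance) {m} := by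
    intro m
    rw [isOpen_induced_iff]
    refine ⟨(fun y => (P ^ (-m)) y) ⁻¹' V, hVo.preimage (rec_cont f (-m)), ?_⟩
    ext m'
    simp only [Set.mem_preimage, Set.mem_singleton_iff]
    rw [← Equiv.Perm.mul_apply, ← zpow_add, hV1]
    constructor
    · intro h; linarith
    · intro h; linarith
  have hbot : TopologicalSpace.induced (fun m : ℤ => (P ^ m) x) inferInstance = ⊥ := by
    apply eq_bot_of_singletons_open
    exact hdisc
  rw [hbot]
  exact DiscreteTopology.eq_bot

/-- A recurrent point has arbitrarily large near returns at multiples of `m`.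

PROOF.  If `f^[k] x = x` for some `k > 0` take `n = k * m * (N + 1)`, `y = x`.  Otherwise all
`(f ^ i) x`, `i : ℤ`, are different.  Claim: for every open `U ∋ x` and every `K` there is `i : ℤ`
with `|i| ≥ K` and `(f ^ i) x ∈ U`.  Otherwise some open `U₁ ∋ x` contains only finitely many
`(f ^ i) x`; as `X` is `T1`, removing the finitely many points `(f ^ i) x`, `i ≠ 0`, gives an open
`U₂ ∋ x` containing `(f ^ i) x` only for `i = 0`; then `m ↦ (f ^ m) x` is an embedding (injective,
and every `{m}` is open for the induced topology: `(f ^ m) '' U₂`), contradiction with `Recurrent`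
(this argument is written out in `return_of_recurrent` in the file
/team-store/sc_FiberedTorusClosing.lean, with `U₂` in place of `U`).  So, for the given `U`
(interior), there are infinitely many `i` with `(f ^ i) x ∈ U`, hence infinitely many `i > 0` or
infinitely many `i < 0`.  Positive case: choose return times `s_0 < s_1 < ... < s_m` with
`s_{l+1} ≥ s_l + N + 1` (recursively); two of the `m + 1` numbers are congruent mod `m`, say
`s_l ≡ s_l'`, `l < l'`; take `y = f^[s_l] x ∈ U`, `n = s_l' - s_l`.  Negative case: the same with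
`y = (f ^ (-s_l')) x ∈ U`, `f^[n] y = (f ^ (-s_l)) x ∈ U`.
(An alternative for the pigeonhole: infinitely many return times, so infinitely many in one
residue class mod `m`; take two of them at distance `≥ N`.) -/
theorem returns_of_recurrent {X : Type} [TopologicalSpace X] [T1Space X] (f : X ≃ₜ X) (x : X)
    (h : Recurrent f.toEquiv x) (m : ℕ) (hm : 0 < m) (N : ℕ) (U : Set X) (hU : U ∈ 𝓝 x) :
    ∃ n : ℕ, N ≤ n ∧ 0 < n ∧ m ∣ n ∧ ∃ y ∈ U, (f : X → X)^[n] y ∈ U := by
  have hinf := rec_infinite f x h U hU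
  set M : ℤ := (m : ℤ) * (N + 1) with hM
  have hMpos : 0 < M := by positivity
  have hmaps : Set.MapsTo (fun i : ℤ => i % M) {i : ℤ | (f.toEquiv ^ i : Equiv.Perm X) x ∈ U}
      (Set.Ico 0 M) := by
    intro i _
    exact ⟨Int.emod_nonneg _ hMpos.ne', Int.emod_lt_of_pos _ hMpos⟩
  obtain ⟨a, ha, b, hb, hne, hab⟩ :=
    hinf.exists_ne_map_eq_of_mapsTo hmaps (Set.finite_Ico 0 M)
  -- order the two times
  have main : ∀ a b : ℤ, (f.toEquiv ^ a : Equiv.Perm X) x ∈ U →
      (f.toEquiv ^ b : Equiv.Perm X) x ∈ U → a % M = b % M → a < b →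
      ∃ n : ℕ, N ≤ n ∧ 0 < n ∧ m ∣ n ∧ ∃ y ∈ U, (f : X → X)^[n] y ∈ U := by
    intro a b ha hb hab hlt
    obtain ⟨n, hn⟩ := Int.eq_ofNat_of_zero_le (sub_nonneg.2 hlt.le)
    have hdvd : M ∣ b - a := Int.ModEq.dvd hab
    have hle : M ≤ b - a := Int.le_of_dvd (sub_pos.2 hlt) hdvd
    refine ⟨n, ?_, ?_, ?_, (f.toEquiv ^ a : Equiv.Perm X) x, ha, ?_⟩
    · have h1 : (N : ℤ) ≤ M := by
        have : (1 : ℤ) * (N + 1) ≤ m * (N + 1) := by
          apply mul_le_mul_of_nonneg_right _ (by positivity)
          exact_mod_cast hm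
        linarith
      have : (N : ℤ) ≤ (n : ℤ) := by rw [← hn]; linarith
      exact_mod_cast this
    · have : (0 : ℤ) < (n : ℤ) := by rw [← hn]; linarith
      exact_mod_cast this
    · have h2 : (m : ℤ) ∣ (n : ℤ) := by
        rw [← hn]
        exact (Dvd.intro _ rfl).trans hdvd
      exact_mod_cast h2
    · rw [← rec_pow_eq, ← Equiv.Perm.mul_apply, ← zpow_natCast, ← zpow_add, ← hn]
      simpa using hb
  rcases lt_or_gt_of_ne hne with hlt | hlt
  · exact main a b ha hb hab hlt
  · exact main b a hb ha hab.symm hlt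

end Pool.Agent.SC
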