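import Pool.Agent.Lib.MP_1e8d1a_an.SC.Trans1

/-! row Trans2 -/

open scoped ContDiff Manifold Topology

namespace Pool.Agent.SC

variable {E : Type} [NormedAddCommGroup E] [NormedSpace ℝ E] {H : Type} [TopologicalSpace H]
  {I : ModelWithCorners ℝ E H} {W : Type} [TopologicalSpace W] [ChartedSpace H W]

open Classical in
/-- transport of a map of the model space to the manifold, in the chart at `p` -/
noncomputable def trans2_tr (I : ModelWithCorners ℝ E H) (p : W) (F : E → E) (q : W) : W :=
  if q ∈ (extChartAt I p).source then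
    (extChartAt I p).symm (extChartAt I p p + F (extChartAt I p q - extChartAt I p p)) else q

lemma trans2_tr_of_mem (p : W) (F : E → E) (q : W) (hq : q ∈ (extChartAt I p).source) :
    trans2_tr I p F q =
      (extChartAt I p).symm (extChartAt I p p + F (extChartAt I p q - extChartAt I p p)) := by
  unfold trans2_tr
  rw [if_pos hq]

lemma trans2_tr_of_not_mem (p : W) (F : E → E) (q : W) (hq : q ∉ (extChartAt I p).source) :
    trans2_tr I p F q = q := by
  unfold trans2_tr
  rw [if_neg hq]

/-- the image point stays in the target of the chart -/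
lemma trans2_mem_target (p : W) (δ : ℝ)
    (hball : Metric.closedBall (extChartAt I p p) δ ⊆ (extChartAt I p).target) (F : E → E)
    (hF1 : ∀ y, δ ≤ ‖y‖ → F y = y) (hF2 : ∀ y, ‖y‖ < δ → ‖F y‖ < δ) (q : W)
    (hq : q ∈ (extChartAt I p).source) :
    extChartAt I p p + F (extChartAt I p q - extChartAt I p p) ∈ (extChartAt I p).target := by
  by_cases h : ‖extChartAt I p q - extChartAt I p p‖ < δ
  · apply hball
    rw [Metric.mem_closedBall, dist_eq_norm, add_sub_cancel_left]
    exact (hF2 _ h).le
  · push Not at h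
    rw [hF1 _ h, add_sub_cancel]
    exact (extChartAt I p).map_source hq

/-- away from the small compact set nothing moves -/
lemma trans2_eq_self (p : W) (δ : ℝ) (F : E → E) (hF1 : ∀ y, δ ≤ ‖y‖ → F y = y) (q : W)
    (hq : q ∉ (extChartAt I p).symm '' Metric.closedBall (extChartAt I p p) δ) :
    trans2_tr I p F q = q := by
  by_cases h : q ∈ (extChartAt I p).source
  · rw [trans2_tr_of_mem p F q h]
    have h1 : δ ≤ ‖extChartAt I p q - extChartAt I p p‖ := by
      by_contra h2
      push Not at h2
      apply hq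
      refine ⟨extChartAt I p q, ?_, (extChartAt I p).left_inv h⟩
      rw [Metric.mem_closedBall, dist_eq_norm]
      exact h2.le
    rw [hF1 _ h1, add_sub_cancel]
    exact (extChartAt I p).left_inv h
  · exact trans2_tr_of_not_mem p F q h

lemma trans2_isClosed [FiniteDimensional ℝ E] [T2Space W] (p : W) (δ : ℝ)
    (hball : Metric.closedBall (extChartAt I p p) δ ⊆ (extChartAt I p).target) :
    IsClosed ((extChartAt I p).symm '' Metric.closedBall (extChartAt I p p) δ) := by
  have : ProperSpace E := FiniteDimensional.proper_real E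
  have h1 : IsCompact (Metric.closedBall (extChartAt I p p) δ) := isCompact_closedBall _ _
  exact (h1.image_of_continuousOn ((continuousOn_extChartAt_symm p).mono hball)).isClosed

/-- smoothness of the transported family -/
lemma trans2_smooth [FiniteDimensional ℝ E] [T2Space W] [IsManifold I ∞ W]
    [I.Boundaryless] (p : W) (δ : ℝ)
    (hball : Metric.closedBall (extChartAt I p p) δ ⊆ (extChartAt I p).target) (S : E × E → E)
    (hS : ContDiff ℝ ∞ S) (hS1 : ∀ v y, δ ≤ ‖y‖ → S (v, y) = y)
    (hS2 : ∀ v y, ‖y‖ < δ → ‖S (v, y)‖ < δ) :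
    ContMDiff (𝓘(ℝ, E).prod I) I ∞
      (fun x : E × W => trans2_tr I p (fun y => S (x.1, y)) x.2) := by
  intro x
  by_cases hx : x.2 ∈ (extChartAt I p).source
  · have hev : (fun x : E × W => trans2_tr I p (fun y => S (x.1, y)) x.2) =ᶠ[𝓝 x]
        fun x : E × W => (extChartAt I p).symm
          (extChartAt I p p + S (x.1, extChartAt I p x.2 - extChartAt I p p)) := by
      have h1 : ∀ᶠ z : E × W in 𝓝 x, z.2 ∈ (extChartAt I p).source :=
        continuousAt_snd.eventually ((isOpen_extChartAt_source (I := I) p).mem_nhds hx)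
      filter_upwards [h1] with z hz
      exact trans2_tr_of_mem p _ z.2 hz
    refine ContMDiffAt.congr_of_eventuallyEq ?_ hev
    have hz := trans2_mem_target p δ hball (fun y => S (x.1, y)) (hS1 x.1) (hS2 x.1) x.2 hx
    have h2 : ContMDiffAt 𝓘(ℝ, E) I ∞ (extChartAt I p).symm
        (extChartAt I p p + S (x.1, extChartAt I p x.2 - extChartAt I p p)) :=
      (contMDiffOn_extChartAt_symm p).contMDiffAt ((isOpen_extChartAt_target p).mem_nhds hz)
    have h3 : ContMDiffAt (𝓘(ℝ, E).prod I) 𝓘(ℝ, E) ∞
        (fun z : E × W => extChartAt I p z.2) x := by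
      have h4 : ContMDiffAt I 𝓘(ℝ, E) ∞ (extChartAt I p) x.2 :=
        contMDiffAt_extChartAt' (by rwa [extChartAt_source] at hx)
      exact ContMDiffAt.comp x h4 contMDiffAt_snd
    have h5 : ContMDiffAt (𝓘(ℝ, E).prod I) 𝓘(ℝ, E × E) ∞
        (fun z : E × W => (z.1, extChartAt I p z.2 - extChartAt I p p)) x :=
      ContMDiffAt.prodMk_space contMDiffAt_fst (h3.sub contMDiffAt_const)
    have h6 : ContMDiffAt (𝓘(ℝ, E).prod I) 𝓘(ℝ, E) ∞
        (fun z : E × W => S (z.1, extChartAt I p z.2 - extChartAt I p p)) x :=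
      ContMDiffAt.comp x (hS.contMDiff.contMDiffAt) h5
    have h7 : ContMDiffAt (𝓘(ℝ, E).prod I) 𝓘(ℝ, E) ∞
        (fun z : E × W => extChartAt I p p + S (z.1, extChartAt I p z.2 - extChartAt I p p)) x :=
      contMDiffAt_const.add h6
    exact ContMDiffAt.comp x h2 h7
  · have hx' : x.2 ∉ (extChartAt I p).symm '' Metric.closedBall (extChartAt I p p) δ := by
      rintro ⟨z, hz, hz2⟩
      apply hx
      rw [← hz2]
      exact (extChartAt I p).map_target (hball hz)
    have hev : (fun x : E × W => trans2_tr I p (fun y => S (x.1, y)) x.2) =ᶠ[𝓝 x]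
        fun x : E × W => x.2 := by
      have h1 : ∀ᶠ z : E × W in 𝓝 x,
          z.2 ∈ ((extChartAt I p).symm '' Metric.closedBall (extChartAt I p p) δ)ᶜ :=
        continuousAt_snd.eventually
          ((trans2_isClosed (I := I) p δ hball).isOpen_compl.mem_nhds hx')
      filter_upwards [h1] with z hz
      exact trans2_eq_self p δ _ (hS1 z.1) z.2 hz
    exact ContMDiffAt.congr_of_eventuallyEq contMDiffAt_snd hev

/-- transported maps compose -/
lemma trans2_inv (p : W) (δ : ℝ)
    (hball : Metric.closedBall (extChartAt I p p) δ ⊆ (extChartAt I p).target) (F G : E → E)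
    (hF1 : ∀ y, δ ≤ ‖y‖ → F y = y) (hF2 : ∀ y, ‖y‖ < δ → ‖F y‖ < δ) (hGF : ∀ y, G (F y) = y)
    (q : W) : trans2_tr I p G (trans2_tr I p F q) = q := by
  by_cases h : q ∈ (extChartAt I p).source
  · have hz := trans2_mem_target p δ hball F hF1 hF2 q h
    rw [trans2_tr_of_mem p F q h, trans2_tr_of_mem p G _ ((extChartAt I p).map_target hz),
      (extChartAt I p).right_inv hz, add_sub_cancel_left, hGF, add_sub_cancel]
    exact (extChartAt I p).left_inv h
  · rw [trans2_tr_of_not_mem p F q h, trans2_tr_of_not_mem p G q h]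

/-- PROOF.  Let `e = extChartAt I p`, `I` boundaryless, so `e.target` is open
(`isOpen_extChartAt_target`), `e` is smooth on `e.source` (open) and `e.symm` is smooth on
`e.target`.  Choose `δ > 0` with `closedBall (e p) δ ⊆ e.target ∩ e.symm ⁻¹' (interior J)`
(the latter set is a neighbourhood of `e p`).  Take `S` from `exists_bump_translation δ`.
Define `T (v, q) = if q ∈ e.source then e.symm (e p + S (v, e q - e p)) else q`.
Note: `‖y‖ < δ → ‖S (v, y)‖ < δ` (if `y' = S (v, y)` had norm `≥ δ` then `S (v, y') = y' =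
S (v, y)`, so `y' = y` by injectivity, contradiction), and `S (v, y) = y` for `‖y‖ ≥ δ`.  So for
`q ∈ e.source` the point `e p + S (v, e q - e p)` lies in `e.target` (it is in the ball or equals
`e q`).  `C = e.symm '' closedBall (e p) δ` is compact, hence closed (`T2`), `C ⊆ e.source`,
`C ⊆ interior J`; for `q ∉ C`: `T (v, q) = q` (if `q ∈ e.source` then `‖e q - e p‖ > δ`).
`T` is smooth: on the open set `univ ×ˢ e.source` it is a composition of smooth maps, on the open
set `univ ×ˢ Cᶜ` it is `(v, q) ↦ q`; the two open sets cover everything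
(`ContMDiffAt` at each point + `Filter.EventuallyEq`).  For fixed `v` let `R` be the inverse of
`S (v, ·)`; `D q = T (v, q)` is a bijection with inverse given by the same formula with `R`
(`R y = y` for `‖y‖ ≥ δ`, `‖R y‖ < δ` for `‖y‖ < δ`), smooth by the same argument, so it is a
`Diffeomorph`.  Finally `T (0, q) = q`, and for `q` near `p` (`q ∈ e.source`, `‖e q - e p‖ ≤ η`):
`T (e q - e p, p) = e.symm (e p + S (e q - e p, 0)) = e.symm (e q) = q` and
`T (e p - e q, q) = e.symm (e p + (e q - e p) + (e p - e q)) = e.symm (e p) = p`. -/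
theorem exists_translations [FiniteDimensional ℝ E] [T2Space W] [IsManifold I ∞ W]
    [I.Boundaryless] (p : W) (J : Set W) (hJ : J ∈ 𝓝 p) :
    ∃ T : E × W → W, ContMDiff (𝓘(ℝ, E).prod I) I ∞ T ∧
      (∀ v, ∃ D : W ≃ₘ^∞⟮I, I⟯ W, ∀ q, D q = T (v, q)) ∧ (∀ q, T (0, q) = q) ∧
      (∀ v, ∀ q ∉ J, T (v, q) = q) ∧
      ∀ᶠ q in 𝓝 p, T (extChartAt I p q - extChartAt I p p, p) = q ∧
        T (extChartAt I p p - extChartAt I p q, q) = p := by
  have hnb : (extChartAt I p).target ∩ (extChartAt I p).symm ⁻¹' J ∈ 𝓝 (extChartAt I p p) :=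
    Filter.inter_mem (extChartAt_target_mem_nhds p) (extChartAt_preimage_mem_nhds hJ)
  obtain ⟨δ, hδ, hsub⟩ := Metric.nhds_basis_closedBall.mem_iff.1 hnb
  have hball : Metric.closedBall (extChartAt I p p) δ ⊆ (extChartAt I p).target :=
    hsub.trans Set.inter_subset_left
  obtain ⟨S, hS, hinv, hS0, hS1, η, hη, hSη⟩ := exists_bump_translation (E := E) δ hδ
  have hS2 : ∀ v y, ‖y‖ < δ → ‖S (v, y)‖ < δ := by
    intro v y hy
    by_contra h
    push Not at h
    obtain ⟨R, -, hR1, -⟩ := hinv v
    have h1 : S (v, S (v, y)) = S (v, y) := hS1 v _ h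
    have h2 : S (v, y) = y := by
      have h3 := congrArg R h1
      rwa [hR1, hR1] at h3
    rw [h2] at h
    linarith
  refine ⟨fun x => trans2_tr I p (fun y => S (x.1, y)) x.2,
    trans2_smooth p δ hball S hS hS1 hS2, ?_, ?_, ?_, ?_⟩
  · intro v
    obtain ⟨R, hR, hR1, hR2⟩ := hinv v
    have hRa : ∀ y, δ ≤ ‖y‖ → R y = y := by
      intro y hy
      have h1 := hS1 v y hy
      calc R y = R (S (v, y)) := by rw [h1]
        _ = y := hR1 y
    have hRb : ∀ y, ‖y‖ < δ → ‖R y‖ < δ := by
      intro y hy
      by_contra h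
      push Not at h
      have h1 := hS1 v (R y) h
      rw [hR2] at h1
      rw [← h1] at h
      linarith
    have hsm1 : ContMDiff I I ∞ (fun q => trans2_tr I p (fun y => S (v, y)) q) :=
      (trans2_smooth p δ hball S hS hS1 hS2).comp (contMDiff_const.prodMk contMDiff_id)
    have hsm2 : ContMDiff I I ∞ (fun q => trans2_tr I p R q) := by
      have h1 := trans2_smooth (I := I) p δ hball (fun x => R x.2) (hR.comp contDiff_snd)
        (fun _ y hy => hRa y hy) (fun _ y hy => hRb y hy)
      exact h1.comp (contMDiff_const (c := (0 : E)) |>.prodMk contMDiff_id)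
    exact ⟨⟨⟨fun q => trans2_tr I p (fun y => S (v, y)) q, fun q => trans2_tr I p R q,
      fun q => trans2_inv p δ hball (fun y => S (v, y)) R (hS1 v) (hS2 v) hR1 q,
      fun q => trans2_inv p δ hball R (fun y => S (v, y)) hRa hRb hR2 q⟩, hsm1, hsm2⟩,
      fun q => rfl⟩
  · intro q
    show trans2_tr I p (fun y => S (0, y)) q = q
    by_cases h : q ∈ (extChartAt I p).source
    · rw [trans2_tr_of_mem p _ q h, hS0, add_sub_cancel]
      exact (extChartAt I p).left_inv h
    · exact trans2_tr_of_not_mem p _ q h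
  · intro v q hq
    apply trans2_eq_self p δ _ (hS1 v) q
    rintro ⟨z, hz, hz2⟩
    apply hq
    rw [← hz2]
    exact (hsub hz).2
  · have h1 : ∀ᶠ q in 𝓝 p, q ∈ (extChartAt I p).source := extChartAt_source_mem_nhds p
    have h2 : ∀ᶠ q in 𝓝 p, ‖extChartAt I p q - extChartAt I p p‖ ≤ η := by
      have h3 : ∀ᶠ q in 𝓝 p, extChartAt I p q ∈ Metric.closedBall (extChartAt I p p) η :=
        (continuousAt_extChartAt (I := I) p).eventually (Metric.closedBall_mem_nhds _ hη)
      filter_upwards [h3] with q hq
      rwa [Metric.mem_closedBall, dist_eq_norm] at hq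
    filter_upwards [h1, h2] with q hq1 hq2
    constructor
    · show trans2_tr I p (fun y => S (extChartAt I p q - extChartAt I p p, y)) p = q
      rw [trans2_tr_of_mem p _ p (mem_extChartAt_source p), sub_self,
        hSη _ 0 hq2 (by rw [norm_zero]; exact hη.le), zero_add, add_sub_cancel]
      exact (extChartAt I p).left_inv hq1
    · show trans2_tr I p (fun y => S (extChartAt I p p - extChartAt I p q, y)) q = p
      rw [trans2_tr_of_mem p _ q hq1, hSη _ _ (by rw [norm_sub_rev]; exact hq2) hq2]
      have h3 : extChartAt I p p + (extChartAt I p q - extChartAt I p p +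
          (extChartAt I p p - extChartAt I p q)) = extChartAt I p p := by abel
      rw [h3]
      exact (extChartAt I p).left_inv (mem_extChartAt_source p)

end Pool.Agent.SC
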