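import Pool.Agent.Lib.MP_1e8d1a_an.SC.Defs

/-! Definitions used in the statement of the final theorem. -/

open scoped ContDiff Manifold Topology

namespace Pool.Agent.SC

variable {E : Type} [NormedAddCommGroup E] [NormedSpace ℝ E] {H : Type} [TopologicalSpace H]
  (I : ModelWithCorners ℝ E H) {M : Type} [TopologicalSpace M] [ChartedSpace H M]
  {E' : Type} [NormedAddCommGroup E'] [NormedSpace ℝ E'] {H' : Type} [TopologicalSpace H']
  (J : ModelWithCorners ℝ E' H') {B : Type} [TopologicalSpace B] [ChartedSpace H' B]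

/-- The product map `f × g` of the product manifold `M × B` can be closed at `(x, y)`: this holds
for every element `F` of `Diff^r(M × B)` with `F (p, q) = (f p, g q)`. -/
def ProdClosable (r : ℕ∞) (f : M → M) (g : B → B) (x : M) (y : B) : Prop :=
  ∀ F : (M × B) ≃ₘ^r⟮I.prod J, I.prod J⟯ (M × B), (∀ p, F p = (f p.1, g p.2)) →
    Closable (I.prod J) F (x, y)

/-- The product of `f` with the rotation `z ↦ exp (iα) z` of the circle can be closed at
`(x, w)`. -/
def RotClosable (r : ℕ∞) (f : M → M) (α : ℝ) (x : M) (w : Circle) : Prop :=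
  ProdClosable I (𝓡 1) r f (fun z : Circle => Circle.exp α * z) x w

/-- The product of `f` with the automorphism `(u, v) ↦ (u^a v^b, u^c v^d)` of the torus
`Circle × Circle` can be closed at `(x, w)`. -/
def TorusClosable (r : ℕ∞) (f : M → M) (a b c d : ℤ) (x : M) (w : Circle × Circle) : Prop :=
  ProdClosable I ((𝓡 1).prod (𝓡 1)) r f
    (fun z : Circle × Circle => (z.1 ^ a * z.2 ^ b, z.1 ^ c * z.2 ^ d)) x w

/-- `ψ` is a flow of class `C^r` on `M`. -/
def IsFlow (r : ℕ∞) (ψ : ℝ → M → M) : Prop :=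
  (∀ q, ψ 0 q = q) ∧ (∀ u v q, ψ (u + v) q = ψ u (ψ v q)) ∧
    ContMDiff (𝓘(ℝ, ℝ).prod I) I r (fun z : ℝ × M => ψ z.1 z.2)

/-- `Θ` is a clock of class `C^r` for the flow `ψ`: `Θ (ψ u q) = exp (2πiu) Θ q`. -/
def IsClock (r : ℕ∞) (ψ : ℝ → M → M) (Θ : M → Circle) : Prop :=
  ContMDiff I (𝓡 1) r Θ ∧ ∀ u q, Θ (ψ u q) = Circle.exp (2 * Real.pi * u) * Θ q

end Pool.Agent.SC
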