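import Pool.Agent.Lib.MP_1e8d1a_an.SC.Fam3

/-! row BumpB -/

open scoped ContDiff Manifold Topology

namespace Pool.Agent.SC

variable {E : Type} [NormedAddCommGroup E] [NormedSpace ℝ E] {H : Type} [TopologicalSpace H]
  {I : ModelWithCorners ℝ E H} {W : Type} [TopologicalSpace W] [ChartedSpace H W]

/-- The set of maps that can be closed at `p` is closed along families (row BumpB).

PROOF.  Let `U` be a neighbourhood of `F`; it contains an open (for `crTopology I r`) set `U'`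
containing `F`.  By `mem_nhds_of_family` (with `t₀ = 0`) there is `ε > 0` such that all
diffeomorphisms `G` with `G q = Φ (t, q)`, `‖t‖ < ε`, lie in `U'`.  Take `t`, `G` from `h ε`;
`U'` is a neighbourhood of `G`, so `Closable I G p` gives the result. -/
theorem closable_of_limit [FiniteDimensional ℝ E] [T2Space W] [CompactSpace W]
    [IsManifold I ∞ W] [I.Boundaryless] {r : ℕ∞} {P : Type}
    [NormedAddCommGroup P] [NormedSpace ℝ P] (Φ : P × W → W)
    (hΦ : ∀ q, ContMDiffAt (𝓘(ℝ, P).prod I) I r Φ (0, q)) (F : W ≃ₘ^r⟮I, I⟯ W)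
    (hF : ∀ q, F q = Φ (0, q)) (p : W)
    (h : ∀ ε > 0, ∃ t : P, ‖t‖ < ε ∧ ∃ G : W ≃ₘ^r⟮I, I⟯ W, (∀ q, G q = Φ (t, q)) ∧
      Closable I G p) :
    Closable I F p := by
  intro U hU
  let _ : TopologicalSpace (W ≃ₘ^r⟮I, I⟯ W) := crTopology I r
  obtain ⟨U', hU'U, hU'o, hFU'⟩ := mem_nhds_iff.1 hU
  obtain ⟨ε, hε, hεU⟩ := Metric.eventually_nhds_iff.1
    (mem_nhds_of_family Φ 0 hΦ F hF U' (hU'o.mem_nhds hFU'))
  obtain ⟨t, ht, G, hG, hcl⟩ := h ε hε
  have hGU' : G ∈ U' := hεU (by simpa using ht) G hG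
  obtain ⟨G', hG'U, n, hn, hnp⟩ := hcl U' (hU'o.mem_nhds hGU')
  exact ⟨G', hU'U hG'U, n, hn, hnp⟩

end Pool.Agent.SC
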