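import Pool.Agent.Lib.MP_1e8d1a_an.SC.Fam2

/-! row Fam3 -/

open scoped ContDiff Manifold Topology

namespace Pool.Agent.SC

variable {E : Type} [NormedAddCommGroup E] [NormedSpace ℝ E] {H : Type} [TopologicalSpace H]
  {I : ModelWithCorners ℝ E H} {W : Type} [TopologicalSpace W] [ChartedSpace H W]

/-- Smooth families are continuous in the `C^r` topology.

PROOF.  `@nhds _ (crTopology I r) F = ⨅ s ∈ {s | F ∈ s ∧ s ∈ generators}, 𝓟 s`
(`TopologicalSpace.nhds_generateFrom`).  So it is enough (`Filter.HasBasis`/`Filter.mem_iInf`,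
or: the collection of all `U` for which the conclusion holds is a filter: it contains the
generators that contain `F`, it is closed under supersets and finite intersections; build it as
`Filter.mk`/ or use `Filter.tendsto_iInf`-like reasoning, e.g. define the filter
`𝓖 = {U | ∀ᶠ t in 𝓝 t₀, ∀ G, (∀ q, G q = Φ (t, q)) → G ∈ U}` and show `𝓖 ≤ nhds F` by
`le_iInf₂` ) to treat one generator, which is `crNear_eventually`.  (If `G q = Φ (t, q)` for all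
`q` then `⇑G = fun q => Φ (t, q)` by `funext`.) -/
theorem mem_nhds_of_family [IsManifold I ∞ W] [I.Boundaryless] {r : ℕ∞} {P : Type}
    [NormedAddCommGroup P] [NormedSpace ℝ P] (Φ : P × W → W) (t₀ : P)
    (hΦ : ∀ q, ContMDiffAt (𝓘(ℝ, P).prod I) I r Φ (t₀, q)) (F : W ≃ₘ^r⟮I, I⟯ W)
    (hF : ∀ q, F q = Φ (t₀, q)) (U : Set (W ≃ₘ^r⟮I, I⟯ W))
    (hU : U ∈ @nhds _ (crTopology I r) F) :
    ∀ᶠ t in 𝓝 t₀, ∀ G : W ≃ₘ^r⟮I, I⟯ W, (∀ q, G q = Φ (t, q)) → G ∈ U := by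
  let 𝓖 : Filter (W ≃ₘ^r⟮I, I⟯ W) :=
    { sets := {U | ∀ᶠ t in 𝓝 t₀, ∀ G : W ≃ₘ^r⟮I, I⟯ W, (∀ q, G q = Φ (t, q)) → G ∈ U}
      univ_sets := Filter.Eventually.of_forall fun _ _ _ => Set.mem_univ _
      sets_of_superset := by
        intro U V h1 h2
        have h1' : ∀ᶠ t in 𝓝 t₀, ∀ G : W ≃ₘ^r⟮I, I⟯ W, (∀ q, G q = Φ (t, q)) → G ∈ U := h1
        exact h1'.mono fun t ht G hG => h2 (ht G hG)
      inter_sets := by
        intro U V h1 h2
        have h1' : ∀ᶠ t in 𝓝 t₀, ∀ G : W ≃ₘ^r⟮I, I⟯ W, (∀ q, G q = Φ (t, q)) → G ∈ U := h1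
        have h2' : ∀ᶠ t in 𝓝 t₀, ∀ G : W ≃ₘ^r⟮I, I⟯ W, (∀ q, G q = Φ (t, q)) → G ∈ V := h2
        exact (h1'.and h2').mono fun t ht G hG => ⟨ht.1 G hG, ht.2 G hG⟩ }
  have hle : 𝓖 ≤ @nhds _ (crTopology I r) F := by
    have hn : @nhds _ (crTopology I r) F = _ := TopologicalSpace.nhds_generateFrom
    rw [hn]
    refine le_iInf₂ ?_
    rintro s ⟨hFs, f, φ, ψ, K, ε, k, hk, hφ, hψ, hK, hKφ, hfK, hε, rfl⟩
    rw [Filter.le_principal_iff]
    have h3 := crNear_eventually Φ t₀ hΦ F f hF φ ψ hφ hψ K hK hKφ hfK k hk ε hFs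
    show ∀ᶠ t in 𝓝 t₀, ∀ G : W ≃ₘ^r⟮I, I⟯ W, (∀ q, G q = Φ (t, q)) → G ∈ _
    refine h3.mono fun t ht G hG => ?_
    have h4 : (⇑G : W → W) = fun q => Φ (t, q) := funext hG
    show CrNear I k f φ ψ K ε G
    rw [h4]
    exact ht
  exact hle hU

end Pool.Agent.SC
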