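import Pool.Agent.Lib.MP_1e8d1a_an.SC.RotC
import Pool.Agent.Lib.MP_1e8d1a_an.SC.Defs3

/-! All rotations, nonwandering points of `f`. -/

open scoped ContDiff Manifold Topology

namespace Pool.Agent.SC

variable {V : Type} [NormedAddCommGroup V] [NormedSpace ℝ V] [FiniteDimensional ℝ V]
  {H : Type} [TopologicalSpace H] {I : ModelWithCorners ℝ V H} [I.Boundaryless]
  {M : Type} [TopologicalSpace M] [T2Space M] [CompactSpace M] [ChartedSpace H M]
  [IsManifold I ∞ M]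

/-- smoothness of `(t, y, z) ↦ (y, exp (c + t) * z)` -/
private lemma RotD_smooth {r : ℕ∞} (c : ℝ) :
    ContMDiff (𝓘(ℝ, ℝ).prod (I.prod (𝓡 1))) (I.prod (𝓡 1)) r
      (fun z : ℝ × (M × Circle) => (z.2.1, Circle.exp (c + z.1) * z.2.2)) := by
  have h1 : ContMDiff (𝓘(ℝ, ℝ).prod (I.prod (𝓡 1))) I r
      (fun z : ℝ × (M × Circle) => z.2.1) := contMDiff_fst.comp contMDiff_snd
  have h2 : ContMDiff (𝓘(ℝ, ℝ).prod (I.prod (𝓡 1))) (𝓡 1) r
      (fun z : ℝ × (M × Circle) => z.2.2) := contMDiff_snd.comp contMDiff_snd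
  have h3 : ContMDiff (𝓘(ℝ, ℝ).prod (I.prod (𝓡 1))) 𝓘(ℝ, ℝ) r
      (fun z : ℝ × (M × Circle) => c + z.1) := by
    have hc : ContMDiff 𝓘(ℝ, ℝ) 𝓘(ℝ, ℝ) r (fun t : ℝ => c + t) :=
      (contDiff_const.add contDiff_id).contMDiff
    exact hc.comp contMDiff_fst
  have h4 : ContMDiff (𝓘(ℝ, ℝ).prod (I.prod (𝓡 1))) (𝓡 1) r
      (fun z : ℝ × (M × Circle) => Circle.exp (c + z.1)) :=
    (contMDiff_circleExp (m := r)).comp h3
  exact h1.prodMk (h4.mul h2)

private lemma RotD_smooth' {r : ℕ∞} (c : ℝ) :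
    ContMDiff (I.prod (𝓡 1)) (I.prod (𝓡 1)) r
      (fun z : M × Circle => (z.1, Circle.exp c * z.2)) :=
  contMDiff_fst.prodMk (contMDiff_const.mul contMDiff_snd)

/-- the rotation -/
private noncomputable def RotD_rot {r : ℕ∞} (c : ℝ) :
    (M × Circle) ≃ₘ^r⟮I.prod (𝓡 1), I.prod (𝓡 1)⟯ (M × Circle) where
  toFun z := (z.1, Circle.exp c * z.2)
  invFun z := (z.1, Circle.exp (-c) * z.2)
  left_inv z := by
    simp only [← mul_assoc, ← Circle.exp_add]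
    simp
  right_inv z := by
    simp only [← mul_assoc, ← Circle.exp_add]
    simp
  contMDiff_toFun := RotD_smooth' c
  contMDiff_invFun := RotD_smooth' (-c)

/-- Pigeonhole: one of finitely many triples serves returns to all neighbourhoods. -/
theorem nw_pigeon {X : Type} [TopologicalSpace X] [T2Space X] {f : X → X}
    (hf : Continuous f) {x : X} (h : NonwanderingPt f x) (T : Finset (ℤ × ℕ × ℕ))
    (hT : ∀ n : ℕ, 0 < n → ∃ t ∈ T, ∃ m : ℤ, m * t.2.1 = n * t.1 + t.2.2 ∧ IsCoprime (n : ℤ) m) :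
    ∃ t ∈ T, ∀ U ∈ 𝓝 x, ∀ N : ℕ, ∃ n : ℕ, N ≤ n ∧ 0 < n ∧
      (∃ m : ℤ, m * t.2.1 = n * t.1 + t.2.2 ∧ IsCoprime (n : ℤ) m) ∧ ∃ y ∈ U, f^[n] y ∈ U := by
  by_contra hcon
  push Not at hcon
  have hcon' : ∀ t : ℤ × ℕ × ℕ, ∃ U ∈ 𝓝 x, ∃ N : ℕ, t ∈ T → ∀ n : ℕ, N ≤ n → 0 < n →
      (∃ m : ℤ, m * t.2.1 = n * t.1 + t.2.2 ∧ IsCoprime (n : ℤ) m) → ∀ y ∈ U, f^[n] y ∉ U := by
    intro t
    by_cases ht : t ∈ T
    · obtain ⟨U, hU, N, hN⟩ := hcon t ht
      refine ⟨U, hU, N, fun _ n h1 h2 h3 => ?_⟩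
      obtain ⟨m, hm1, hm2⟩ := h3
      exact hN n h1 h2 ⟨m, hm1, hm2⟩
    · exact ⟨Set.univ, Filter.univ_mem, 0, fun h => absurd h ht⟩
  choose U hU N hN using hcon'
  have hint : (⋂ t ∈ T, U t) ∈ 𝓝 x := (Filter.biInter_finset_mem T).2 fun t _ => hU t
  obtain ⟨n, hn1, hn2, y, hy, hy'⟩ := nw_large hf h (T.sup N) _ hint
  obtain ⟨t, ht, ht2⟩ := hT n hn2
  have h1 : N t ≤ n := le_trans (Finset.le_sup (f := N) ht) hn1
  exact hN t ht n h1 hn2 ht2 y (Set.mem_iInter₂.1 hy t ht) (Set.mem_iInter₂.1 hy' t ht)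

/-- All rotations, nonwandering points. -/
theorem rot_closable_nw {r : ℕ∞} (f : M ≃ₘ^r⟮I, I⟯ M) (x : M)
    (hx : NonwanderingPt f x) (w : Circle) (α : ℝ)
    (F : (M × Circle) ≃ₘ^r⟮I.prod (𝓡 1), I.prod (𝓡 1)⟯ (M × Circle))
    (hF : ∀ y z, F (y, z) = (f y, Circle.exp α * z)) :
    Closable (I.prod (𝓡 1)) F (x, w) := by
  have hcomp : ∀ z : ℝ × (M × Circle), (f z.2.1, Circle.exp (α + z.1) * z.2.2) =
      F (z.2.1, Circle.exp (0 + z.1) * z.2.2) := by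
    intro z
    rw [hF, ← mul_assoc, ← Circle.exp_add, zero_add]
  refine closable_of_limit (I := I.prod (𝓡 1)) (P := ℝ)
    (fun z : ℝ × (M × Circle) => (f z.2.1, Circle.exp (α + z.1) * z.2.2)) ?_ F ?_ (x, w) ?_
  · intro q
    simp only [hcomp]
    exact (F.contMDiff.comp (RotD_smooth 0)).contMDiffAt
  · rintro ⟨y, z⟩
    simp [hF]
  · intro ε hε
    have hpi : (0 : ℝ) < 2 * Real.pi := by positivity
    obtain ⟨T, hT1, hT2⟩ := nw_triples (α / (2 * Real.pi)) (ε / (2 * Real.pi)) (by positivity)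
    obtain ⟨⟨P, Q, k⟩, ht, hret⟩ := nw_pigeon f.continuous hx T hT2
    obtain ⟨hQ, hk, hPQ⟩ := hT1 _ ht
    simp only at hQ hk hPQ hret
    set t : ℝ := 2 * Real.pi * ((P : ℝ) / Q) - α with htdef
    refine ⟨t, ?_, (RotD_rot t).trans F, ?_, ?_⟩
    · rw [Real.norm_eq_abs]
      have h1 : t = 2 * Real.pi * ((P : ℝ) / Q - α / (2 * Real.pi)) := by
        rw [htdef]
        field_simp
      rw [h1, abs_mul, abs_of_pos hpi]
      calc 2 * Real.pi * |(P : ℝ) / Q - α / (2 * Real.pi)|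
          < 2 * Real.pi * (ε / (2 * Real.pi)) := mul_lt_mul_of_pos_left hPQ hpi
        _ = ε := by field_simp
    · rintro ⟨y, z⟩
      change F (y, Circle.exp t * z) = _
      rw [hF, ← mul_assoc, ← Circle.exp_add]
    · apply rot_rational_turns f x w P Q k hQ hk hret
      intro y z
      change F (y, Circle.exp t * z) = _
      rw [hF, ← mul_assoc, ← Circle.exp_add, rtc]
      congr 3
      rw [htdef]
      ring

/-- recurrent points are nonwandering -/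
theorem nw_of_recurrent {X : Type} [TopologicalSpace X] [T1Space X] (f : X ≃ₜ X) (x : X)
    (h : Recurrent f.toEquiv x) : NonwanderingPt f x := by
  intro U hU
  obtain ⟨n, -, hn, -, y, hy, hny⟩ := returns_of_recurrent f x h 1 one_pos 0 U hU
  exact ⟨n, hn, y, hy, hny⟩

/-- The final form. -/
theorem rot_main (r : ℕ∞) (f : M ≃ₘ^r⟮I, I⟯ M) (x : M)
    (hx : Recurrent f.toEquiv x ∨ NonwanderingPt f x) (α : ℝ) (w : Circle) :
    RotClosable I r f α x w := by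
  intro F hF
  refine rot_closable_nw f x ?_ w α F fun y z => hF (y, z)
  rcases hx with hx | hx
  · exact nw_of_recurrent f.toHomeomorph x hx
  · exact hx

end Pool.Agent.SC
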