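import Mathlib

/-! Families of maps whose derivatives of order at most `k` are continuous at a parameter. -/

open scoped ContDiff Topology
open Filter

namespace Pool.Agent.SC

variable {ι : Type} [TopologicalSpace ι]

/-- The maps `u t` have derivatives of order at most `k` near `x₀` for `t` near `t₀`, and these are
continuous in `(t, x)` at `(t₀, x₀)`. -/
def CK {E : Type} [NormedAddCommGroup E] [NormedSpace ℝ E] (t₀ : ι) (x₀ : E) :
    (k : ℕ) → (F : Type) → [NormedAddCommGroup F] → [NormedSpace ℝ F] → (ι → E → F) → Prop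
  | 0, _, _, _, u => ContinuousAt (fun z : ι × E => u z.1 z.2) (t₀, x₀)
  | k + 1, F, _, _, u => ContinuousAt (fun z : ι × E => u z.1 z.2) (t₀, x₀) ∧
      (∀ᶠ z : ι × E in 𝓝 (t₀, x₀), DifferentiableAt ℝ (u z.1) z.2) ∧
      CK t₀ x₀ k (E →L[ℝ] F) (fun t x => fderiv ℝ (u t) x)

section

variable {E : Type} [NormedAddCommGroup E] [NormedSpace ℝ E] {t₀ : ι} {x₀ : E}

theorem CK.cont {F : Type} [NormedAddCommGroup F] [NormedSpace ℝ F] {k : ℕ} {u : ι → E → F}
    (h : CK t₀ x₀ k F u) : ContinuousAt (fun z : ι × E => u z.1 z.2) (t₀, x₀) := by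
  cases k with
  | zero => exact h
  | succ k => exact h.1

omit [NormedSpace ℝ E] in
theorem ck_slice {A : ι × E → Prop} (h : ∀ᶠ z in 𝓝 (t₀, x₀), A z) :
    ∀ᶠ z : ι × E in 𝓝 (t₀, x₀), ∀ᶠ x in 𝓝 z.2, A (z.1, x) := by
  filter_upwards [eventually_eventually_nhds.2 h] with z hz
  have : ContinuousAt (fun x : E => (z.1, x)) z.2 := by fun_prop
  exact this.tendsto.eventually (by simpa using hz)

theorem CK.congr {k : ℕ} : ∀ {F : Type} [NormedAddCommGroup F] [NormedSpace ℝ F]
    {u v : ι → E → F}, CK t₀ x₀ k F u → (∀ᶠ z : ι × E in 𝓝 (t₀, x₀), u z.1 z.2 = v z.1 z.2) →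
    CK t₀ x₀ k F v := by
  induction k with
  | zero =>
    intro F _ _ u v h huv
    exact ContinuousAt.congr (f := fun z : ι × E => u z.1 z.2) h huv
  | succ k ih =>
    intro F _ _ u v h huv
    have h1 := ck_slice huv
    refine ⟨ContinuousAt.congr (f := fun z : ι × E => u z.1 z.2) h.1 huv, ?_, ih h.2.2 ?_⟩
    · filter_upwards [h.2.1, h1] with z hz hz1
      exact hz.congr_of_eventuallyEq (hz1.mono fun x hx => hx.symm)
    · filter_upwards [h1] with z hz1
      exact EventuallyEq.fderiv_eq hz1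

theorem CK.of_succ {k : ℕ} : ∀ {F : Type} [NormedAddCommGroup F] [NormedSpace ℝ F]
    {u : ι → E → F}, CK t₀ x₀ (k + 1) F u → CK t₀ x₀ k F u := by
  induction k with
  | zero => intro F _ _ u h; exact h.1
  | succ k ih => intro F _ _ u h; exact ⟨h.1, h.2.1, ih h.2.2⟩

theorem CK.clm {k : ℕ} : ∀ {F G : Type} [NormedAddCommGroup F] [NormedSpace ℝ F]
    [NormedAddCommGroup G] [NormedSpace ℝ G] (A : F →L[ℝ] G)
    {u : ι → E → F}, CK t₀ x₀ k F u → CK t₀ x₀ k G (fun t x => A (u t x)) := by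
  induction k with
  | zero => intro F G _ _ _ _ A u h; exact A.continuous.continuousAt.comp h
  | succ k ih =>
    intro F G _ _ _ _ A u h
    refine ⟨A.continuous.continuousAt.comp h.1, ?_, ?_⟩
    · filter_upwards [h.2.1] with z hz
      exact A.differentiableAt.comp z.2 hz
    · refine CK.congr (ih (ContinuousLinearMap.compL ℝ E F G A) h.2.2) ?_
      filter_upwards [h.2.1] with z hz
      exact ((A.hasFDerivAt).comp z.2 hz.hasFDerivAt).fderiv.symm

theorem CK.prodMk {k : ℕ} : ∀ {F G : Type} [NormedAddCommGroup F] [NormedSpace ℝ F]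
    [NormedAddCommGroup G] [NormedSpace ℝ G]
    {u : ι → E → F} {v : ι → E → G}, CK t₀ x₀ k F u → CK t₀ x₀ k G v →
    CK t₀ x₀ k (F × G) (fun t x => (u t x, v t x)) := by
  induction k with
  | zero => intro F G _ _ _ _ u v h h'; exact ContinuousAt.prodMk h h'
  | succ k ih =>
    intro F G _ _ _ _ u v h h'
    refine ⟨ContinuousAt.prodMk h.1 h'.1, ?_, ?_⟩
    · filter_upwards [h.2.1, h'.2.1] with z hz hz'
      exact hz.prodMk hz'
    · refine CK.congr (CK.clm (((ContinuousLinearMap.prodₗᵢ ℝ : ((E →L[ℝ] F) × (E →L[ℝ] G)) ≃ₗᵢ[ℝ]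
        (E →L[ℝ] F × G)).toContinuousLinearEquiv : ((E →L[ℝ] F) × (E →L[ℝ] G)) ≃L[ℝ]
        (E →L[ℝ] F × G)) : ((E →L[ℝ] F) × (E →L[ℝ] G)) →L[ℝ] (E →L[ℝ] F × G))
        (ih h.2.2 h'.2.2)) ?_
      filter_upwards [h.2.1, h'.2.1] with z hz hz'
      exact (hz.fderiv_prodMk hz').symm

theorem CK.const_family {k : ℕ} : ∀ {F : Type} [NormedAddCommGroup F] [NormedSpace ℝ F]
    {f : E → F}, ContDiffAt ℝ k f x₀ → CK t₀ x₀ k F (fun _ => f) := by
  induction k with
  | zero =>
    intro F _ _ f h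
    exact ContinuousAt.comp (g := f) (x := (t₀, x₀)) h.continuousAt continuousAt_snd
  | succ k ih =>
    intro F _ _ f h
    refine ⟨ContinuousAt.comp (g := f) (x := (t₀, x₀)) h.continuousAt continuousAt_snd, ?_, ?_⟩
    · have h1 : ∀ᶠ x in 𝓝 x₀, ContDiffAt ℝ ((k + 1 : ℕ) : WithTop ℕ∞) f x :=
        h.eventually (by simp)
      have h2 : ∀ᶠ x in 𝓝 x₀, DifferentiableAt ℝ f x := h1.mono fun x hx =>
        hx.differentiableAt (by simp)
      exact (continuousAt_snd (p := (t₀, x₀))).eventually h2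
    · refine ih ?_
      exact h.fderiv_right (m := k) (by simp)

end

/-- Composition with a smooth map on the left. -/
theorem CK.comp_smooth {k : ℕ} : ∀ {E F G : Type} [NormedAddCommGroup E] [NormedSpace ℝ E]
    [NormedAddCommGroup F] [NormedSpace ℝ F] [NormedAddCommGroup G] [NormedSpace ℝ G]
    {t₀ : ι} {x₀ : E} {A : F → G} {u : ι → E → F}, ContDiffAt ℝ ∞ A (u t₀ x₀) →
    CK t₀ x₀ k F u → CK t₀ x₀ k G (fun t x => A (u t x)) := by
  induction k with
  | zero =>
    intro E F G _ _ _ _ _ _ t₀ x₀ A u hA h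
    exact ContinuousAt.comp (g := A) (x := (t₀, x₀)) hA.continuousAt h
  | succ k ih =>
    intro E F G _ _ _ _ _ _ t₀ x₀ A u hA h
    refine ⟨ContinuousAt.comp (g := A) (x := (t₀, x₀)) hA.continuousAt h.1, ?_, ?_⟩
    · have h1 : ∀ᶠ y in 𝓝 (u t₀ x₀), ContDiffAt ℝ 1 A y :=
        (hA.of_le (by exact_mod_cast le_top)).eventually (by simp)
      have h2 : ∀ᶠ z : ι × E in 𝓝 (t₀, x₀), ContDiffAt ℝ 1 A (u z.1 z.2) := h.1.eventually h1
      filter_upwards [h2, h.2.1] with z hz hz'
      exact (hz.differentiableAt (by simp)).comp z.2 hz'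
    · have hd : ContDiffAt ℝ ∞ (fderiv ℝ A) (u t₀ x₀) := hA.fderiv_right (m := ∞) (by simp)
      have hB : ContDiffAt ℝ ∞ (fun q : F × (E →L[ℝ] F) => (fderiv ℝ A q.1).comp q.2)
          (u t₀ x₀, fderiv ℝ (u t₀) x₀) := by
        refine ContDiffAt.clm_comp ?_ contDiffAt_snd
        exact ContDiffAt.comp (g := fderiv ℝ A) (u t₀ x₀, fderiv ℝ (u t₀) x₀) hd contDiffAt_fst
      have hp := CK.prodMk (CK.of_succ h) h.2.2
      refine CK.congr (ih (A := fun q : F × (E →L[ℝ] F) => (fderiv ℝ A q.1).comp q.2) hB hp) ?_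
      have h1 : ∀ᶠ y in 𝓝 (u t₀ x₀), ContDiffAt ℝ 1 A y :=
        (hA.of_le (by exact_mod_cast le_top)).eventually (by simp)
      have h2 : ∀ᶠ z : ι × E in 𝓝 (t₀, x₀), ContDiffAt ℝ 1 A (u z.1 z.2) := h.1.eventually h1
      filter_upwards [h2, h.2.1] with z hz hz'
      exact (fderiv_comp (g := A) z.2 (hz.differentiableAt (by simp)) hz').symm

/-- Composition with a smooth map on the right. -/
theorem CK.comp_right {k : ℕ} : ∀ {E E' F : Type} [NormedAddCommGroup E] [NormedSpace ℝ E]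
    [NormedAddCommGroup E'] [NormedSpace ℝ E'] [NormedAddCommGroup F] [NormedSpace ℝ F]
    {t₀ : ι} {x₀ : E'} {B : E' → E} {u : ι → E → F}, ContDiffAt ℝ ∞ B x₀ →
    CK t₀ (B x₀) k F u → CK t₀ x₀ k F (fun t x => u t (B x)) := by
  induction k with
  | zero =>
    intro E E' F _ _ _ _ _ _ t₀ x₀ B u hB h
    exact ContinuousAt.comp (g := fun z : ι × E => u z.1 z.2) (f := fun z : ι × E' => (z.1, B z.2))
      (x := (t₀, x₀)) h (continuousAt_fst.prodMk (hB.continuousAt.comp continuousAt_snd))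
  | succ k ih =>
    intro E E' F _ _ _ _ _ _ t₀ x₀ B u hB h
    have hc : ContinuousAt (fun z : ι × E' => (z.1, B z.2)) (t₀, x₀) :=
      continuousAt_fst.prodMk (hB.continuousAt.comp continuousAt_snd)
    have h1 : ∀ᶠ x in 𝓝 x₀, ContDiffAt ℝ 1 B x :=
      (hB.of_le (by exact_mod_cast le_top)).eventually (by simp)
    have h1' : ∀ᶠ z : ι × E' in 𝓝 (t₀, x₀), ContDiffAt ℝ 1 B z.2 :=
      (continuousAt_snd (p := (t₀, x₀))).eventually h1
    have h2 : ∀ᶠ z : ι × E' in 𝓝 (t₀, x₀), DifferentiableAt ℝ (u z.1) (B z.2) :=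
      hc.eventually h.2.1
    refine ⟨ContinuousAt.comp (g := fun z : ι × E => u z.1 z.2)
      (f := fun z : ι × E' => (z.1, B z.2)) (x := (t₀, x₀)) h.1 hc, ?_, ?_⟩
    · filter_upwards [h1', h2] with z hz hz'
      exact hz'.comp z.2 (hz.differentiableAt (by simp))
    · have hd : ContDiffAt ℝ k (fderiv ℝ B) x₀ :=
        (hB.fderiv_right (m := ∞) (by simp)).of_le (by exact_mod_cast le_top)
      have hp := CK.prodMk (ih hB h.2.2) (CK.const_family (t₀ := t₀) hd)
      have hA : ContDiffAt ℝ ∞ (fun q : (E →L[ℝ] F) × (E' →L[ℝ] E) => q.1.comp q.2)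
          (fderiv ℝ (u t₀) (B x₀), fderiv ℝ B x₀) :=
        ContDiffAt.clm_comp contDiffAt_fst contDiffAt_snd
      refine CK.congr (CK.comp_smooth
        (A := fun q : (E →L[ℝ] F) × (E' →L[ℝ] E) => q.1.comp q.2) hA hp) ?_
      filter_upwards [h1', h2] with z hz hz'
      exact (fderiv_comp (g := u z.1) z.2 hz' (hz.differentiableAt (by simp))).symm

/-- The derivatives are continuous. -/
theorem CK.iterated {k : ℕ} : ∀ {E F : Type} [NormedAddCommGroup E] [NormedSpace ℝ E]
    [NormedAddCommGroup F] [NormedSpace ℝ F] {t₀ : ι} {x₀ : E} {u : ι → E → F},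
    CK t₀ x₀ k F u → ∀ j ≤ k, ContinuousAt (fun z : ι × E => iteratedFDeriv ℝ j (u z.1) z.2)
      (t₀, x₀) := by
  induction k with
  | zero =>
    intro E F _ _ _ _ t₀ x₀ u h j hj
    obtain rfl : j = 0 := by omega
    exact ((continuousMultilinearCurryFin0 ℝ E F).symm.continuous.continuousAt).comp h
  | succ k ih =>
    intro E F _ _ _ _ t₀ x₀ u h j hj
    cases j with
    | zero => exact ((continuousMultilinearCurryFin0 ℝ E F).symm.continuous.continuousAt).comp h.1
    | succ j =>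
      have h1 := ih h.2.2 j (by omega)
      have h2 : (fun z : ι × E => iteratedFDeriv ℝ (j + 1) (u z.1) z.2) =
          fun z : ι × E => (continuousMultilinearCurryRightEquiv' ℝ j E F).symm
            (iteratedFDeriv ℝ j (fun y => fderiv ℝ (u z.1) y) z.2) := by
        funext z
        rw [iteratedFDeriv_succ_eq_comp_right]
        rfl
      rw [h2]
      exact ((continuousMultilinearCurryRightEquiv' ℝ j E F).symm.continuous.continuousAt).comp h1

/-- Converse. -/
theorem CK.of_iterated {k : ℕ} : ∀ {E F : Type} [NormedAddCommGroup E] [NormedSpace ℝ E]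
    [NormedAddCommGroup F] [NormedSpace ℝ F] {t₀ : ι} {x₀ : E} {u : ι → E → F},
    (∀ᶠ z : ι × E in 𝓝 (t₀, x₀), ContDiffAt ℝ k (u z.1) z.2) →
    (∀ j ≤ k, ContinuousAt (fun z : ι × E => iteratedFDeriv ℝ j (u z.1) z.2) (t₀, x₀)) →
    CK t₀ x₀ k F u := by
  induction k with
  | zero =>
    intro E F _ _ _ _ t₀ x₀ u _ h
    have h1 := h 0 le_rfl
    have h2 := ((continuousMultilinearCurryFin0 ℝ E F).continuous.continuousAt).comp h1
    exact h2
  | succ k ih =>
    intro E F _ _ _ _ t₀ x₀ u hd h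
    refine ⟨?_, ?_, ih ?_ ?_⟩
    · exact ((continuousMultilinearCurryFin0 ℝ E F).continuous.continuousAt).comp (h 0 (by omega))
    · filter_upwards [hd] with z hz
      exact hz.differentiableAt (by simp)
    · filter_upwards [hd] with z hz
      exact hz.fderiv_right (m := k) (by simp)
    · intro j hj
      have h1 := h (j + 1) (by omega)
      have h2 : (fun z : ι × E => iteratedFDeriv ℝ j (fun y => fderiv ℝ (u z.1) y) z.2) =
          fun z : ι × E => (continuousMultilinearCurryRightEquiv' ℝ j E F)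
            (iteratedFDeriv ℝ (j + 1) (u z.1) z.2) := by
        funext z
        rw [iteratedFDeriv_succ_eq_comp_right]
        simp
      rw [h2]
      exact ((continuousMultilinearCurryRightEquiv' ℝ j E F).continuous.continuousAt).comp h1

end Pool.Agent.SC
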