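import Pool.Agent.Lib.MP_1e8d1a_an.SC.Defs2

/-! row MobA -/

open scoped ContDiff Manifold Topology

namespace Pool.Agent.SC

/-- PROOF. `arctan` is in `(-π/2, π/2)`. -/
theorem abs_tau_lt (a s b : ℝ) (w : Circle) : |tau a s b w| < 1 / 2 := by
  unfold tau
  have hpi := Real.pi_pos
  rw [abs_mul, abs_of_pos (by positivity : (0 : ℝ) < 1 / Real.pi)]
  have h1 : |Real.arctan ((s + b * (w : ℂ).re) / (a + b * (w : ℂ).im))| < Real.pi / 2 :=
    abs_lt.2 ⟨Real.neg_pi_div_two_lt_arctan _, Real.arctan_lt_pi_div_two _⟩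
  have h2 := mul_lt_mul_of_pos_left h1 (by positivity : (0 : ℝ) < 1 / Real.pi)
  refine h2.trans_le (le_of_eq ?_)
  field_simp

/-- The inverse map is `mob a (-s) (-b)`, with the exactly opposite displacement.

PROOF.  Let `X = a + b Im w > 0` (as `|b| < a`, `|Im w| ≤ 1`), `Y = s + b Re w`,
`ζ = X + i Y = A + B conj w`.  `exp (2 i arctan (Y / X)) = ζ / conj ζ` (for `X > 0`), so
`mob w = w ζ / conj ζ = (A w + B) / (conj B w + conj A)` (use `w conj w = 1`:
`w ζ = A w + B`, `conj ζ = conj A + conj B w`).  For `w' = mob w` let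
`ζ' = (a - b Im w') + i (-s - b Re w') = conj A - B conj w'`; `conj w' = (conj A conj w + conj B) /
ζ`, so `ζ' ζ = conj A (A + B conj w) - B conj A conj w - |B|² = |A|² - |B|² = a² + s² - b² = 1`.
So `ζ' = 1 / ζ = conj ζ / |ζ|²`, i.e. `X' = X / |ζ|²`, `Y' = - Y / |ζ|²`, `Y' / X' = - Y / X`, and
`arctan` is odd. -/
theorem tau_mob {a s b : ℝ} (h : a ^ 2 + s ^ 2 - b ^ 2 = 1) (hb : |b| < a) (w : Circle) :
    tau a (-s) (-b) (mob a s b w) = - tau a s b w := by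
  have hpi := Real.pi_pos
  obtain ⟨c, hc⟩ : ∃ c : ℝ, c = (w : ℂ).re := ⟨_, rfl⟩
  obtain ⟨d, hd⟩ : ∃ d : ℝ, d = (w : ℂ).im := ⟨_, rfl⟩
  have hcd : c ^ 2 + d ^ 2 = 1 := by
    have h1 := Circle.normSq_coe w
    rw [Complex.normSq_apply] at h1
    rw [hc, hd]
    linarith
  have hd1 : |d| ≤ 1 := by
    rw [abs_le]
    constructor <;> nlinarith [sq_nonneg c, sq_nonneg (d - 1), sq_nonneg (d + 1)]
  obtain ⟨X, hX⟩ : ∃ X : ℝ, X = a + b * d := ⟨_, rfl⟩
  obtain ⟨Y, hY⟩ : ∃ Y : ℝ, Y = s + b * c := ⟨_, rfl⟩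
  have hX0 : 0 < X := by
    have h1 : |b * d| ≤ |b| := by
      rw [abs_mul]
      exact mul_le_of_le_one_right (abs_nonneg _) hd1
    have h2 := neg_abs_le (b * d)
    rw [hX]
    linarith
  obtain ⟨θ, hθ⟩ : ∃ θ : ℝ, θ = Real.arctan (Y / X) := ⟨_, rfl⟩
  have htau : tau a s b w = (1 / Real.pi) * θ := by
    unfold tau
    rw [← hc, ← hd, ← hX, ← hY, hθ]
  have hR : 0 < X ^ 2 + Y ^ 2 := by positivity
  -- the double angle formulas
  have hcos : Real.cos (2 * θ) * (X ^ 2 + Y ^ 2) = X ^ 2 - Y ^ 2 := by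
    rw [Real.cos_two_mul, hθ, Real.cos_sq_arctan]
    have : (1 : ℝ) + (Y / X) ^ 2 = (X ^ 2 + Y ^ 2) / X ^ 2 := by
      field_simp
    rw [this]
    field_simp
    ring
  have hsin : Real.sin (2 * θ) * (X ^ 2 + Y ^ 2) = 2 * X * Y := by
    have h1 : Real.sin θ = Y / X * Real.cos θ := by
      have hne : Real.cos θ ≠ 0 := by
        rw [hθ]
        exact (Real.cos_arctan_pos _).ne'
      have := Real.tan_arctan (Y / X)
      rw [← hθ, Real.tan_eq_sin_div_cos, div_eq_iff hne] at this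
      exact this
    have h2 : Real.sin (2 * θ) = 2 * (Y / X) * Real.cos θ ^ 2 := by
      rw [Real.sin_two_mul, h1]
      ring
    rw [h2, hθ, Real.cos_sq_arctan]
    have : (1 : ℝ) + (Y / X) ^ 2 = (X ^ 2 + Y ^ 2) / X ^ 2 := by
      field_simp
    rw [this]
    field_simp
  -- the point `w'`
  have hw' : ((mob a s b w : Circle) : ℂ) = Complex.exp ((2 * θ : ℝ) * Complex.I) * (w : ℂ) := by
    unfold mob
    rw [htau, Circle.coe_mul, Circle.coe_exp]
    congr 3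
    field_simp
  have hre : ((mob a s b w : Circle) : ℂ).re = Real.cos (2 * θ) * c - Real.sin (2 * θ) * d := by
    rw [hw', Complex.mul_re, Complex.exp_ofReal_mul_I_re, Complex.exp_ofReal_mul_I_im, hc, hd]
  have him : ((mob a s b w : Circle) : ℂ).im = Real.cos (2 * θ) * d + Real.sin (2 * θ) * c := by
    rw [hw', Complex.mul_im, Complex.exp_ofReal_mul_I_re, Complex.exp_ofReal_mul_I_im, hc, hd]
  have hA : (a + -b * (Real.cos (2 * θ) * d + Real.sin (2 * θ) * c)) * (X ^ 2 + Y ^ 2) = X := by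
    have e1 : (a + -b * (Real.cos (2 * θ) * d + Real.sin (2 * θ) * c)) * (X ^ 2 + Y ^ 2) =
        a * (X ^ 2 + Y ^ 2) - b * d * (Real.cos (2 * θ) * (X ^ 2 + Y ^ 2)) -
          b * c * (Real.sin (2 * θ) * (X ^ 2 + Y ^ 2)) := by ring
    rw [e1, hcos, hsin, hX, hY]
    linear_combination (a + b * d) * h - (a + b * d) * b ^ 2 * hcd
  have hB : (-s + -b * (Real.cos (2 * θ) * c - Real.sin (2 * θ) * d)) * (X ^ 2 + Y ^ 2) = -Y := by
    have e1 : (-s + -b * (Real.cos (2 * θ) * c - Real.sin (2 * θ) * d)) * (X ^ 2 + Y ^ 2) =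
        -s * (X ^ 2 + Y ^ 2) - b * c * (Real.cos (2 * θ) * (X ^ 2 + Y ^ 2)) +
          b * d * (Real.sin (2 * θ) * (X ^ 2 + Y ^ 2)) := by ring
    rw [e1, hcos, hsin, hX, hY]
    linear_combination -(s + b * c) * h + (s + b * c) * b ^ 2 * hcd
  rw [htau]
  unfold tau
  rw [hre, him]
  have hquot : (-s + -b * (Real.cos (2 * θ) * c - Real.sin (2 * θ) * d)) /
      (a + -b * (Real.cos (2 * θ) * d + Real.sin (2 * θ) * c)) = -(Y / X) := by
    rw [← mul_div_mul_right _ _ hR.ne', hA, hB, neg_div]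
  rw [hquot, Real.arctan_neg, ← hθ]
  ring

end Pool.Agent.SC
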