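import Pool.Agent.Lib.MP_1e8d1a_an.SC.PhiA
import Pool.Agent.Lib.MP_1e8d1a_an.SC.MobA

/-! row MobB -/

open scoped ContDiff Manifold Topology

namespace Pool.Agent.SC

/-- real form of `exp_Ph` -/
theorem mobB_real {lam : ℝ} (hlam : 0 < lam) (t : ℝ) : ∃ ρ : ℝ, 0 < ρ ∧
    Real.cos (Ph lam t) * ρ = Real.cos t ∧ Real.sin (Ph lam t) * ρ = lam * Real.sin t := by
  have h := exp_Ph hlam t
  set z : ℂ := (Real.cos t : ℂ) + (lam * Real.sin t : ℝ) * Complex.I with hz
  have hre := congrArg Complex.re h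
  have him := congrArg Complex.im h
  have hzre : z.re = Real.cos t := by
    rw [hz]; simp [Complex.add_re, Complex.mul_re, Complex.cos_ofReal_re, -Complex.ofReal_mul,
      -Complex.ofReal_cos, -Complex.ofReal_sin]
  have hzim : z.im = lam * Real.sin t := by
    rw [hz]; simp [Complex.add_im, Complex.mul_im, -Complex.ofReal_mul,
      -Complex.ofReal_cos, -Complex.ofReal_sin]
  rw [Complex.re_mul_ofReal, Complex.exp_ofReal_mul_I_re, hzre] at hre
  rw [Complex.im_mul_ofReal, Complex.exp_ofReal_mul_I_im, hzim] at him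
  refine ⟨‖z‖, ?_, hre, him⟩
  rw [norm_pos_iff]
  intro h0
  rw [h0] at hzre hzim
  simp only [Complex.zero_re, Complex.zero_im] at hzre hzim
  have h1 := Real.sin_sq_add_cos_sq t
  rw [← hzre] at h1
  have h2 : Real.sin t = 0 := by
    rcases mul_eq_zero.1 hzim.symm with h3 | h3
    · exact absurd h3 hlam.ne'
    · exact h3
  rw [h2] at h1
  norm_num at h1

theorem mobB_pt_re (lam t : ℝ) :
    (pt lam t : ℂ).re = Real.cos (Ph lam t) ^ 2 - Real.sin (Ph lam t) ^ 2 := by
  unfold pt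
  rw [Circle.coe_exp, Complex.exp_ofReal_mul_I_re, Real.cos_two_mul]
  have := Real.sin_sq_add_cos_sq (Ph lam t)
  linarith

theorem mobB_pt_im (lam t : ℝ) :
    (pt lam t : ℂ).im = 2 * Real.sin (Ph lam t) * Real.cos (Ph lam t) := by
  unfold pt
  rw [Circle.coe_exp, Complex.exp_ofReal_mul_I_im, Real.sin_two_mul]

/-- The orbit of the elliptic map.

PROOF.  Put `z t = cos t + i lam sin t`, `ρ t = ‖z t‖ > 0`; `exp_Ph` says
`z t = ρ t exp (i Ph t)`.  `w = pt lam t = exp (2 i Ph t)`, so `conj w = conj (z t) / z t`.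
With `A = cos om + i s`, `B = i b`: `ζ = A + B conj w` satisfies
`ζ z t = A z t + B conj (z t) = cos om cos t - s lam sin t + b lam sin t +
i (lam cos om sin t + s cos t + b cos t)`.  From `h1 : s + b = lam sin om` and
`h2 : (s - b) lam = sin om` (equivalently `s² - b² = sin² om`) this is
`cos (t + om) + i lam sin (t + om) = z (t + om)`.  So `ζ ρ(t) exp (i Ph t) = ρ(t+om) exp (i Ph (t+om))`.
`ζ` has positive real part `X = cos om + b Im w`, so `ζ = |ζ| exp (i π tau)` with
`π tau = arctan (Y / X)`.  Comparing: `exp (i (π tau - Ph (t+om) + Ph t)) = 1` (it is a positive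
real of norm one), so `π tau - (Ph (t + om) - Ph t) = 2 π m` for an integer `m`.  By `abs_Ph_sub_lt`
(twice) and `|π tau| < π/2` the left side is in absolute value `< 3 π / 2 + om < 2 π`, so `m = 0`. -/
theorem tau_pt {lam s b om : ℝ} (hlam : 0 < lam) (hom0 : 0 < om) (hom1 : om < Real.pi / 2)
    (h1 : s + b = lam * Real.sin om) (h2 : (s - b) * lam = Real.sin om)
    (hb : |b| < Real.cos om) (t : ℝ) :
    tau (Real.cos om) s b (pt lam t) = (Ph lam (t + om) - Ph lam t) / Real.pi := by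
  obtain ⟨ρ, hρ, hp, hq⟩ := mobB_real hlam t
  obtain ⟨ρ', hρ', hp', hq'⟩ := mobB_real hlam (t + om)
  have hre := mobB_pt_re lam t
  have him := mobB_pt_im lam t
  have hpq := Real.sin_sq_add_cos_sq (Ph lam t)
  have hpq' := Real.sin_sq_add_cos_sq (Ph lam (t + om))
  have hX : 0 < Real.cos om + b * (pt lam t : ℂ).im := by
    have h3 : |(pt lam t : ℂ).im| ≤ 1 := by
      have := Complex.abs_im_le_norm (pt lam t : ℂ)
      rwa [Circle.norm_coe] at this
    have h4 : |b * (pt lam t : ℂ).im| ≤ |b| := by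
      rw [abs_mul]
      calc |b| * |(pt lam t : ℂ).im| ≤ |b| * 1 := mul_le_mul_of_nonneg_left h3 (abs_nonneg b)
        _ = |b| := mul_one _
    have h5 := neg_abs_le (b * (pt lam t : ℂ).im)
    linarith
  set X := Real.cos om + b * (pt lam t : ℂ).im with hXdef
  set Y := s + b * (pt lam t : ℂ).re with hYdef
  set p := Real.cos (Ph lam t) with hpdef
  set q := Real.sin (Ph lam t) with hqdef
  set p' := Real.cos (Ph lam (t + om)) with hp'def
  set q' := Real.sin (Ph lam (t + om)) with hq'def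
  have hXe : X = Real.cos om + b * (2 * q * p) := by rw [hXdef, him]
  have hYe : Y = s + b * (p ^ 2 - q ^ 2) := by rw [hYdef, hre]
  -- the key identities
  have e1 : (X * p - Y * q) * ρ = p' * ρ' := by
    rw [hp', Real.cos_add, ← hp, hXe, hYe]
    have h3 : q * ρ * (s - b) = Real.sin t * Real.sin om := by
      rw [hq, ← h2]; ring
    have h4 : ((Real.cos om + b * (2 * q * p)) * p - (s + b * (p ^ 2 - q ^ 2)) * q) * ρ =
        (Real.cos om * p - s * q + b * q * (q ^ 2 + p ^ 2)) * ρ := by ring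
    rw [h4, hpq]
    linarith [h3]
  have e2 : (X * q + Y * p) * ρ = q' * ρ' := by
    rw [hq', Real.sin_add, hXe, hYe]
    have h4 : ((Real.cos om + b * (2 * q * p)) * q + (s + b * (p ^ 2 - q ^ 2)) * p) * ρ =
        Real.cos om * (q * ρ) + (s + b * (q ^ 2 + p ^ 2)) * (p * ρ) := by ring
    rw [h4, hpq, hp, hq, mul_one, h1]
    ring
  -- polar form of `X + i Y`
  set θ := Real.arctan (Y / X) with hθ
  set R := Real.sqrt (X ^ 2 + Y ^ 2) with hR
  have hRpos : 0 < R := Real.sqrt_pos.2 (by positivity)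
  have hRX : R = X * Real.sqrt (1 + (Y / X) ^ 2) := by
    rw [hR, show X ^ 2 + Y ^ 2 = X ^ 2 * (1 + (Y / X) ^ 2) by field_simp,
      Real.sqrt_mul (sq_nonneg X), Real.sqrt_sq hX.le]
  have hsq : 0 < Real.sqrt (1 + (Y / X) ^ 2) := Real.sqrt_pos.2 (by positivity)
  have hc : R * Real.cos θ = X := by
    rw [hθ, Real.cos_arctan, hRX]
    field_simp
  have hs : R * Real.sin θ = Y := by
    rw [hθ, Real.sin_arctan, hRX]
    field_simp
  -- comparison
  have f1 : Real.cos (θ + Ph lam t) * (R * ρ) = p' * ρ' := by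
    rw [← e1, Real.cos_add, ← hc, ← hs]; ring
  have f2 : Real.sin (θ + Ph lam t) * (R * ρ) = q' * ρ' := by
    rw [← e2, Real.sin_add, ← hc, ← hs]; ring
  have hRρ : 0 < R * ρ := by positivity
  have f3 : R * ρ = ρ' := by
    have h3 : (R * ρ) ^ 2 = ρ' ^ 2 := by
      have h4 := Real.sin_sq_add_cos_sq (θ + Ph lam t)
      calc (R * ρ) ^ 2 = (Real.cos (θ + Ph lam t) * (R * ρ)) ^ 2 +
            (Real.sin (θ + Ph lam t) * (R * ρ)) ^ 2 := by
            rw [mul_pow (Real.cos (θ + Ph lam t)), mul_pow (Real.sin (θ + Ph lam t)), ← add_mul,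
              add_comm, h4, one_mul]
        _ = (p' * ρ') ^ 2 + (q' * ρ') ^ 2 := by rw [f1, f2]
        _ = (q' ^ 2 + p' ^ 2) * ρ' ^ 2 := by ring
        _ = ρ' ^ 2 := by rw [hpq', one_mul]
    exact (pow_left_inj₀ hRρ.le hρ'.le two_ne_zero).1 h3
  rw [f3] at f1 f2
  have g1 : Real.cos (θ + Ph lam t) = p' := mul_right_cancel₀ hρ'.ne' f1
  have g2 : Real.sin (θ + Ph lam t) = q' := mul_right_cancel₀ hρ'.ne' f2
  have g3 : Real.cos (θ + Ph lam t - Ph lam (t + om)) = 1 := by
    rw [Real.cos_sub, g1, g2, ← hp'def, ← hq'def]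
    linarith
  have b1 := abs_lt.1 (abs_Ph_sub_lt lam t)
  have b2 := abs_lt.1 (abs_Ph_sub_lt lam (t + om))
  have b3 := Real.neg_pi_div_two_lt_arctan (Y / X)
  have b4 := Real.arctan_lt_pi_div_two (Y / X)
  rw [← hθ] at b3 b4
  have hpi := Real.pi_pos
  have g4 : θ + Ph lam t - Ph lam (t + om) = 0 :=
    (Real.cos_eq_one_iff_of_lt_of_lt (by linarith [b1.1, b2.2]) (by linarith [b1.2, b2.1])).1 g3
  have g5 : θ = Ph lam (t + om) - Ph lam t := by linarith
  have g6 : tau (Real.cos om) s b (pt lam t) = 1 / Real.pi * θ := rfl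
  rw [g6, g5]
  ring

/-- PROOF. `mob (pt t) = exp (2 π tau (pt t)) * exp (2 Ph t) = exp (2 Ph (t + om))` by `tau_pt` and
`Circle.exp_add`. -/
theorem mob_pt {lam s b om : ℝ} (hlam : 0 < lam) (hom0 : 0 < om) (hom1 : om < Real.pi / 2)
    (h1 : s + b = lam * Real.sin om) (h2 : (s - b) * lam = Real.sin om)
    (hb : |b| < Real.cos om) (t : ℝ) :
    mob (Real.cos om) s b (pt lam t) = pt lam (t + om) := by
  unfold mob
  rw [tau_pt hlam hom0 hom1 h1 h2 hb t]
  unfold pt
  rw [← Circle.exp_add]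
  congr 1
  have := Real.pi_ne_zero
  field_simp
  ring

end Pool.Agent.SC
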