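import Mathlib

/-! Number theory for the nonwandering case: rational approximations adapted to return times. -/

namespace Pool.Agent.SC

/-- If `|P' - β q| ≤ 1` and `q` is large then `P' / q` is close to `β`. -/
private lemma nw_close {β δ : ℝ} (hδ : 0 < δ) {q : ℕ} (hq : 1 / δ < q) {e : ℤ} (he : e = 0 ∨ e = 1) :
    |((⌊β * q⌋ + e : ℤ) : ℝ) / q - β| < δ := by
  have hq0 : (0 : ℝ) < q := lt_trans (by positivity) hq
  have h1 := Int.floor_le (β * q)
  have h2 := Int.lt_floor_add_one (β * q)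
  have h3 : ((⌊β * q⌋ + e : ℤ) : ℝ) / q - β = (((⌊β * q⌋ + e : ℤ) : ℝ) - β * q) / q := by
    field_simp
  have h4 : |((⌊β * q⌋ + e : ℤ) : ℝ) - β * q| ≤ 1 := by
    rw [abs_le]
    rcases he with rfl | rfl
    · push_cast; constructor <;> linarith
    · push_cast; constructor <;> linarith
  rw [h3, abs_div, abs_of_pos hq0, div_lt_iff₀ hq0]
  have h5 : 1 < δ * q := by
    rw [div_lt_iff₀ hδ] at hq
    linarith
  linarith

/-- Finitely many triples `(P, Q, k)`, with `P / Q` close to `β`, serve all `n`: some triple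
satisfies `m Q = n P + k` with `m` prime to `n`. -/
theorem nw_triples (β δ : ℝ) (hδ : 0 < δ) :
    ∃ T : Finset (ℤ × ℕ × ℕ), (∀ t ∈ T, 0 < t.2.1 ∧ 0 < t.2.2 ∧ |(t.1 : ℝ) / t.2.1 - β| < δ) ∧
      ∀ n : ℕ, 0 < n → ∃ t ∈ T, ∃ m : ℤ, m * t.2.1 = n * t.1 + t.2.2 ∧ IsCoprime (n : ℤ) m := by
  classical
  obtain ⟨N₀, hN₀⟩ := exists_nat_gt (1 / δ)
  obtain ⟨p, hpN, hp⟩ := Nat.exists_infinite_primes (N₀ + 1)
  have hpf : Fact p.Prime := ⟨hp⟩
  have hex : ∀ c : (ZMod p)ˣ, ∃ q : ℕ, N₀ < q ∧ q.Prime ∧ (q : ZMod p) = c := fun c => by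
    obtain ⟨q, hq, hq1, hq2⟩ := Nat.forall_exists_prime_gt_and_eq_mod (q := p) c.isUnit N₀
    exact ⟨q, hq, hq1, hq2⟩
  choose qc hqc1 hqc2 hqc3 using hex
  set S : Finset ℕ := insert p (Finset.univ.image qc) with hS
  have hSp : ∀ q ∈ S, q.Prime ∧ N₀ < q := by
    intro q hq
    rw [hS, Finset.mem_insert, Finset.mem_image] at hq
    rcases hq with rfl | ⟨c, _, rfl⟩
    · exact ⟨hp, by omega⟩
    · exact ⟨hqc2 c, hqc1 c⟩
  have hSc : ∀ c, qc c ∈ S := fun c => by
    rw [hS]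
    exact Finset.mem_insert_of_mem (Finset.mem_image_of_mem _ (Finset.mem_univ c))
  have hpS : p ∈ S := Finset.mem_insert_self _ _
  refine ⟨(S ×ˢ S ×ˢ ({0, 1} : Finset ℤ)).image
    (fun s => (⌊β * s.1⌋ + s.2.2, s.1, s.2.1)), ?_, ?_⟩
  · intro t ht
    rw [Finset.mem_image] at ht
    obtain ⟨⟨q, k, e⟩, hs, rfl⟩ := ht
    simp only [Finset.mem_product, Finset.mem_insert, Finset.mem_singleton] at hs
    obtain ⟨hq, hk, he⟩ := hs
    have h1 := hSp q hq
    have h2 := hSp k hk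
    refine ⟨h1.1.pos, h2.1.pos, ?_⟩
    apply nw_close hδ _ he
    have : (N₀ : ℝ) < q := by exact_mod_cast h1.2
    linarith
  · intro n hn
    by_cases hA : ∃ q ∈ S, q ∣ n
    · obtain ⟨q, hqS, n', rfl⟩ := hA
      have hq := (hSp q hqS).1
      have hqI : Prime (q : ℤ) := Nat.prime_iff_prime_int.1 hq
      have hP : ∃ e : ℤ, (e = 0 ∨ e = 1) ∧ ¬ (q : ℤ) ∣ (⌊β * q⌋ + e) * n' + 1 := by
        by_contra hcon
        push Not at hcon
        have h0 := hcon 0 (Or.inl rfl)
        have h1 := hcon 1 (Or.inr rfl)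
        have h2 : (q : ℤ) ∣ n' := by
          have := dvd_sub h1 h0
          ring_nf at this
          exact this
        have h3 : (q : ℤ) ∣ 1 := by
          have := (Int.dvd_add_right (Dvd.dvd.mul_left h2 (⌊β * q⌋ + 0))).1 h0
          exact this
        exact hqI.not_isUnit (isUnit_of_dvd_one h3)
      obtain ⟨e, he, hne⟩ := hP
      refine ⟨(⌊β * q⌋ + e, q, q), ?_, (⌊β * q⌋ + e) * n' + 1, ?_, ?_⟩
      · rw [Finset.mem_image]
        refine ⟨(q, q, e), ?_, rfl⟩
        simp only [Finset.mem_product, Finset.mem_insert, Finset.mem_singleton]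
        exact ⟨hqS, hqS, he⟩
      · push_cast
        ring
      · rw [Nat.cast_mul]
        refine IsCoprime.mul_left ?_ ?_
        · exact (Prime.coprime_iff_not_dvd hqI).2 hne
        · refine ⟨-(⌊β * q⌋ + e), 1, by ring⟩
    · push Not at hA
      have hpI : Prime (p : ℤ) := Nat.prime_iff_prime_int.1 hp
      have hP : ∃ e : ℤ, (e = 0 ∨ e = 1) ∧ ¬ (p : ℤ) ∣ (⌊β * p⌋ + e) := by
        by_contra hcon
        push Not at hcon
        have h0 := hcon 0 (Or.inl rfl)
        have h1 := hcon 1 (Or.inr rfl)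
        have h3 : (p : ℤ) ∣ 1 := by
          have := dvd_sub h1 h0
          ring_nf at this
          exact this
        exact hpI.not_isUnit (isUnit_of_dvd_one h3)
      obtain ⟨e, he, hne⟩ := hP
      have hpn : ¬ p ∣ n := hA p hpS
      have hu : IsUnit (-((n : ZMod p) * ((⌊β * p⌋ + e : ℤ) : ZMod p))) := by
        rw [isUnit_iff_ne_zero, neg_ne_zero, mul_ne_zero_iff]
        constructor
        · rwa [Ne, ZMod.natCast_eq_zero_iff]
        · rwa [Ne, ZMod.intCast_zmod_eq_zero_iff_dvd]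
      obtain ⟨c, hc⟩ := hu
      have hdvd : (p : ℤ) ∣ n * (⌊β * p⌋ + e) + qc c := by
        rw [← ZMod.intCast_zmod_eq_zero_iff_dvd]
        have h5 := hqc3 c
        rw [hc] at h5
        push_cast at h5 ⊢
        rw [h5]
        ring
      obtain ⟨m, hm⟩ := hdvd
      refine ⟨(⌊β * p⌋ + e, p, qc c), ?_, m, ?_, ?_⟩
      · rw [Finset.mem_image]
        refine ⟨(p, qc c, e), ?_, rfl⟩
        simp only [Finset.mem_product, Finset.mem_insert, Finset.mem_singleton]
        exact ⟨hpS, hSc c, he⟩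
      · simp only
        rw [hm]
        ring
      · have hcp : IsCoprime (n : ℤ) (qc c : ℤ) := by
          rw [Nat.isCoprime_iff_coprime]
          exact ((Nat.Prime.coprime_iff_not_dvd (hqc2 c)).2 (hA _ (hSc c))).symm
        have h2 : IsCoprime (n : ℤ) ((p : ℤ) * m) := by
          rw [← hm, add_comm]
          exact hcp.add_mul_left_right _
        exact IsCoprime.of_mul_right_right h2

end Pool.Agent.SC
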