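import Pool.Agent.Lib.MP_1e8d1a_an.SC.RotA
import Pool.Agent.Lib.MP_1e8d1a_an.SC.NwNum
import Pool.Agent.Lib.MP_1e8d1a_an.IR.Defs

/-! The closing lemma for `f × R_α` at the points over NONWANDERING points of `f`. -/

open scoped ContDiff Manifold Topology

namespace Pool.Agent.SC

/-- A nonwandering point has near returns at arbitrarily large times. -/
theorem nw_large {X : Type} [TopologicalSpace X] [T2Space X] {f : X → X}
    (hf : Continuous f) {x : X} (h : NonwanderingPt f x) (N : ℕ) (U : Set X) (hU : U ∈ 𝓝 x) :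
    ∃ n ≥ N, 0 < n ∧ ∃ y ∈ U, f^[n] y ∈ U := by
  by_cases hper : ∃ m, 0 < m ∧ f^[m] x = x
  · obtain ⟨m, hm, hmx⟩ := hper
    refine ⟨m * (N + 1), ?_, by positivity, x, mem_of_mem_nhds hU, ?_⟩
    · nlinarith
    · have : Function.IsPeriodicPt f (m * (N + 1)) x :=
        Function.IsPeriodicPt.mul_const (m := m) hmx (N + 1)
      rw [this]
      exact mem_of_mem_nhds hU
  · push Not at hper
    have key : ∀ K : ℕ, ∃ V ∈ 𝓝 x, ∀ n, 0 < n → n < K → ∀ y ∈ V, f^[n] y ∉ V := by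
      intro K
      induction K with
      | zero => exact ⟨Set.univ, Filter.univ_mem, fun n _ h2 => absurd h2 (Nat.not_lt_zero n)⟩
      | succ K ih =>
        obtain ⟨V, hV, hV2⟩ := ih
        rcases Nat.eq_zero_or_pos K with h0 | h0
        · exact ⟨V, hV, fun n h1 h2 => by omega⟩
        obtain ⟨A, B, hA, hB, hxA, hxB, hd⟩ := t2_separation (hper K h0)
        have h1 : f^[K] ⁻¹' A ∈ 𝓝 x := (hf.iterate K).continuousAt (hA.mem_nhds hxA)
        refine ⟨V ∩ (f^[K] ⁻¹' A ∩ B), Filter.inter_mem hV (Filter.inter_mem h1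
          (hB.mem_nhds hxB)), fun n h2 h3 y hy hy2 => ?_⟩
        rcases Nat.lt_succ_iff_lt_or_eq.1 h3 with h4 | h4
        · exact hV2 n h2 h4 y hy.1 hy2.1
        · subst h4
          exact Set.disjoint_left.1 hd hy.2.1 hy2.2.2
    obtain ⟨V, hV, hV2⟩ := key N
    obtain ⟨n, hn, y, hy, hny⟩ := h (U ∩ V) (Filter.inter_mem hU hV)
    refine ⟨n, ?_, hn, y, hy.1, hny.1⟩
    by_contra hcon
    exact hV2 n hn (not_le.1 hcon) y hy.2 hny.2

/-- the point of the circle with angle `2 π P / Q` -/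
noncomputable def rtc (a : ℤ) (Q : ℕ) : Circle := Circle.exp (2 * Real.pi * ((a : ℝ) / Q))

theorem rtc_add (a b : ℤ) (Q : ℕ) : rtc a Q * rtc b Q = rtc (a + b) Q := by
  unfold rtc
  rw [← Circle.exp_add]
  congr 1
  push_cast
  ring

theorem rtc_mul_self (a : ℤ) {Q : ℕ} (hQ : 0 < Q) : rtc (Q * a) Q = 1 := by
  unfold rtc
  have hQ' : (Q : ℝ) ≠ 0 := by exact_mod_cast hQ.ne'
  have e : 2 * Real.pi * (((Q * a : ℤ) : ℝ) / Q) = 2 * Real.pi * a := by
    push_cast
    field_simp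
  rw [e, Circle.exp_two_pi_mul_int]

theorem rtc_pow (a : ℤ) (Q : ℕ) (n : ℕ) : rtc a Q ^ n = rtc (n * a) Q := by
  induction n with
  | zero => simp [rtc]
  | succ n ih =>
    rw [pow_succ, ih, rtc_add]
    congr 1
    push_cast
    ring

/-- a common lower bound for the distances of the nontrivial `Q`-th roots of unity to `1` -/
theorem rtc_lower {Q : ℕ} (hQ : 0 < Q) :
    ∃ c : ℝ, 0 < c ∧ ∀ a : ℤ, ¬ (Q : ℤ) ∣ a → 2 * c ≤ ‖((rtc a Q : Circle) : ℂ) - 1‖ := by
  obtain ⟨c, hc, hcl⟩ := RotA_exists_lower ((Finset.range Q).filter (fun l => 0 < l))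
    (fun l => ‖(Circle.exp (2 * Real.pi * (l / Q)) : ℂ) - 1‖) (by
      intro l hl
      rw [Finset.mem_filter, Finset.mem_range] at hl
      rw [norm_pos_iff, sub_ne_zero]
      intro h
      exact RotA_exp_ne_one hl.2 hl.1 (Subtype.ext h))
  refine ⟨c, hc, fun a ha => ?_⟩
  have hQ' : (0 : ℤ) < Q := by exact_mod_cast hQ
  obtain ⟨l, hl⟩ := Int.eq_ofNat_of_zero_le (Int.emod_nonneg a hQ'.ne')
  have hl1 : l < Q := by
    have := Int.emod_lt_of_pos a hQ'
    rw [hl] at this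
    exact_mod_cast this
  have hl0 : 0 < l := by
    rcases Nat.eq_zero_or_pos l with h0 | h0
    · exfalso
      apply ha
      apply Int.dvd_of_emod_eq_zero
      rw [hl, h0]
      rfl
    · exact h0
  have h1 := hcl l (by rw [Finset.mem_filter, Finset.mem_range]; exact ⟨hl1, hl0⟩)
  have h2 : rtc a Q = Circle.exp (2 * Real.pi * (l / Q)) := by
    have h3 : a = (l : ℤ) + Q * (a / Q) := by
      have := Int.emod_add_mul_ediv a Q
      rw [hl] at this
      exact this.symm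
    rw [h3, ← rtc_add, rtc_mul_self _ hQ, mul_one]
    simp [rtc]
  rw [h2]
  exact h1

variable {V : Type} [NormedAddCommGroup V] [NormedSpace ℝ V] [FiniteDimensional ℝ V]
  {H : Type} [TopologicalSpace H] {I : ModelWithCorners ℝ V H} [I.Boundaryless]
  {M : Type} [TopologicalSpace M] [T2Space M] [CompactSpace M] [ChartedSpace H M]
  [IsManifold I ∞ M]

/-- Rational rotations, `k` turns: returns of `f` near `x` at large times `n` with
`m Q = n P + k`, `m` prime to `n`, are enough. -/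
theorem rot_rational_turns {r : ℕ∞} (f : M ≃ₘ^r⟮I, I⟯ M) (x : M) (w : Circle) (P : ℤ) (Q k : ℕ)
    (hQ : 0 < Q) (hk : 0 < k)
    (hret : ∀ U ∈ 𝓝 x, ∀ N : ℕ, ∃ n : ℕ, N ≤ n ∧ 0 < n ∧
      (∃ m : ℤ, m * Q = n * P + k ∧ IsCoprime (n : ℤ) m) ∧ ∃ y ∈ U, (f : M → M)^[n] y ∈ U)
    (F : (M × Circle) ≃ₘ^r⟮I.prod (𝓡 1), I.prod (𝓡 1)⟯ (M × Circle))
    (hF : ∀ y z, F (y, z) = (f y, rtc P Q * z)) :
    Closable (I.prod (𝓡 1)) F (x, w) := by
  have hQ' : (Q : ℝ) ≠ 0 := by exact_mod_cast hQ.ne'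
  obtain ⟨ψ, hψ⟩ : ∃ ψ : ℝ → M × Circle → M × Circle,
      ψ = fun u q => (q.1, Circle.exp (2 * Real.pi * (u / Q)) * q.2) := ⟨_, rfl⟩
  obtain ⟨Θ, hΘ⟩ : ∃ Θ : M × Circle → Circle, Θ = fun q => q.2 ^ Q := ⟨_, rfl⟩
  have hψn : ∀ (l : ℕ) (y : M) (z : Circle), ψ l (y, z) = (y, rtc l Q * z) := by
    intro l y z
    rw [hψ]
    simp [rtc]
  refine clock_closable F ψ Θ ?_ ?_ ?_ ?_ ?_ ?_ ?_ (x, w) k ?_
  · intro q
    rw [hψ]
    simp
  · intro u v q
    rw [hψ]
    simp only
    rw [← mul_assoc, ← Circle.exp_add]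
    congr 3
    ring
  · rw [hψ]
    refine ContMDiff.prodMk (contMDiff_fst.comp contMDiff_snd) ?_
    refine ContMDiff.mul ?_ (contMDiff_snd.comp contMDiff_snd)
    refine contMDiff_circleExp.comp ?_
    have h1 : ContDiff ℝ r (fun u : ℝ => 2 * Real.pi * (u / Q)) := by fun_prop
    exact h1.contMDiff.comp contMDiff_fst
  · rw [hΘ]
    exact contMDiff_snd.pow Q
  · intro u q
    rw [hψ, hΘ]
    simp only
    rw [mul_pow, ← Circle.exp_natCast_mul]
    congr 2
    field_simp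
  · intro u q
    obtain ⟨y, z⟩ := q
    rw [hψ]
    simp only
    rw [hF, hF]
    simp only
    rw [mul_left_comm]
  · intro q
    obtain ⟨y, z⟩ := q
    rw [hΘ]
    simp only
    rw [hF]
    simp only
    rw [mul_pow, rtc_pow, rtc_mul_self _ hQ, one_mul]
  · -- returns
    obtain ⟨c, hc, hcl⟩ := rtc_lower hQ
    refine ⟨hk, {q | ‖((q.2 : Circle) : ℂ) - w‖ < c}, ?_, ?_⟩
    · refine IsOpen.mem_nhds ?_ ?_
      · refine isOpen_lt ?_ continuous_const
        exact ((continuous_subtype_val.comp continuous_snd).sub continuous_const).norm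
      · simpa using hc
    · intro U hU N
      obtain ⟨A, hA, B, hB, hAB⟩ := mem_nhds_prod_iff.1 hU
      obtain ⟨n, hNn, hn, ⟨m, hm, hco⟩, y, hyA, hyA'⟩ := hret A hA N
      have hwB : w ∈ B := mem_of_mem_nhds hB
      refine ⟨n, hNn, hn, ⟨(y, w), hAB ⟨hyA, hwB⟩, ?_⟩, ?_⟩
      · rw [hψn, RotA_iterate (f : M → M) F _ hF, rtc_pow, ← mul_assoc, rtc_add, ← hm,
          mul_comm m, rtc_mul_self _ hQ, one_mul]
        exact hAB ⟨hyA', hwB⟩
      · intro i l hi hin hl hlk hil q hq hq'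
        obtain ⟨y', z⟩ := q
        have hndvd : ¬ (Q : ℤ) ∣ i * P + l := by
          rintro ⟨j, hj⟩
          have hilZ : (i : ℤ) * k = l * n := by exact_mod_cast hil
          have hkZ : (k : ℤ) ≠ 0 := by exact_mod_cast hk.ne'
          have hQZ : (Q : ℤ) ≠ 0 := by exact_mod_cast hQ.ne'
          have h1 : (i : ℤ) * m = n * j := by
            apply mul_right_cancel₀ hQZ
            apply mul_right_cancel₀ hkZ
            calc (i : ℤ) * m * Q * k = (i : ℤ) * k * (m * Q) := by ring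
              _ = (l : ℤ) * n * (n * P + k) := by rw [hilZ, hm]
              _ = (n : ℤ) * ((l * n) * P + l * k) := by ring
              _ = (n : ℤ) * ((i * k) * P + l * k) := by rw [hilZ]
              _ = (n : ℤ) * k * (i * P + l) := by ring
              _ = (n : ℤ) * k * (Q * j) := by rw [hj]
              _ = n * j * Q * k := by ring
          have h2 : (n : ℤ) ∣ i := hco.dvd_of_dvd_mul_right ⟨j, h1⟩
          have h3 : n ∣ i := by exact_mod_cast h2
          exact absurd (Nat.le_of_dvd hi h3) (not_le.2 hin)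
        rw [hψn, RotA_iterate (f : M → M) F _ hF, rtc_pow, ← mul_assoc, rtc_add] at hq'
        simp only [Set.mem_ofPred_eq] at hq hq'
        have h1 := hcl _ hndvd
        have h2 : ((rtc (i * P + l) Q * z : Circle) : ℂ) - w =
            ((rtc (i * P + l) Q : ℂ) - 1) * z + ((z : ℂ) - w) := by
          rw [Circle.coe_mul]
          ring
        have h3 : ‖((rtc (i * P + l) Q : ℂ) - 1) * z‖ =
            ‖(rtc (i * P + l) Q : ℂ) - 1‖ := by
          rw [norm_mul, Circle.norm_coe, mul_one]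
        have h4 : ‖((rtc (i * P + l) Q : ℂ) - 1) * z‖ ≤
            ‖((rtc (i * P + l) Q * z : Circle) : ℂ) - w‖ + ‖(z : ℂ) - w‖ := by
          have e2 : ((rtc (i * P + l) Q : ℂ) - 1) * z =
              (((rtc (i * P + l) Q * z : Circle) : ℂ) - w) - ((z : ℂ) - w) := by
            rw [h2]
            ring
          rw [e2]
          exact norm_sub_le _ _
        rw [h3] at h4
        linarith

end Pool.Agent.SC
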