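import Pool.Agent.Lib.MP_1e8d1a_an.SC.PhiA

/-! row PhiB -/

open scoped ContDiff Manifold Topology

namespace Pool.Agent.SC

/-- `sin (π / n) ≤ |sin (π m / n)|` if `n` does not divide `m`. -/
theorem PhiB_sin_lower {n m : ℕ} (hn : 2 ≤ n) (hm : ¬ n ∣ m) :
    Real.sin (Real.pi / n) ≤ |Real.sin (Real.pi * m / n)| := by
  have hn0 : (0 : ℝ) < n := by exact_mod_cast (by omega : 0 < n)
  have hn2 : (2 : ℝ) ≤ n := by exact_mod_cast hn
  have hpi := Real.pi_pos
  set q := m / n with hq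
  set r := m % n with hr
  have hrn : r < n := Nat.mod_lt _ (by omega)
  have hr0 : 1 ≤ r := by
    rcases Nat.eq_zero_or_pos r with h | h
    · exact absurd (Nat.dvd_of_mod_eq_zero h) hm
    · exact h
  have hmq : m = n * q + r := (Nat.div_add_mod m n).symm
  have h1 : Real.pi * m / n = Real.pi * r / n + (q : ℕ) * Real.pi := by
    have : (m : ℝ) = n * q + r := by exact_mod_cast hmq
    rw [this]; field_simp; ring
  rw [h1, Real.sin_add_nat_mul_pi, abs_mul, abs_pow, abs_neg, abs_one, one_pow, one_mul]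
  have hrr : (1 : ℝ) ≤ r := by exact_mod_cast hr0
  have hrn' : (r : ℝ) + 1 ≤ n := by exact_mod_cast hrn
  have hpn : -(Real.pi / 2) ≤ Real.pi / n := by
    have : 0 < Real.pi / n := by positivity
    linarith
  refine le_trans ?_ (le_abs_self _)
  rcases le_total (Real.pi * r / n) (Real.pi / 2) with h | h
  · apply Real.sin_le_sin_of_le_of_le_pi_div_two hpn h
    rw [div_le_div_iff_of_pos_right hn0]
    nlinarith
  · rw [← Real.sin_pi_sub (Real.pi * r / n)]
    apply Real.sin_le_sin_of_le_of_le_pi_div_two hpn (by linarith)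
    have : Real.pi - Real.pi * r / n = Real.pi * (n - r) / n := by field_simp
    rw [this, div_le_div_iff_of_pos_right hn0]
    nlinarith

/-- Separation: with `om = π k / n` (`0 < om < π/2`), `lam * sin om ≥ s > 0`, `s ≤ 1`, and `j` with
`n ∤ j k`: the point `pt lam (j om)` has distance `≥ s / k` from `1`.

PROOF.  Let `t = j om`, `z = cos t + i lam sin t`, `ρ = ‖z‖ > 0` (if `cos t = 0` then
`sin t ≠ 0`).  By `exp_Ph`, `pt lam t = (z / ρ) ^ 2 = z ^ 2 / (z conj z) = z / conj z`, so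
`‖pt lam t - 1‖ = ‖z - conj z‖ / ‖z‖ = 2 X / sqrt (cos² t + X²)`, `X = lam |sin t|`.  Next
`|sin t| = |sin (π (j k) / n)| ≥ sin (π / n)`: write `j k = q n + ρ'` with `1 ≤ ρ' ≤ n - 1`,
`|sin (π j k / n)| = sin (π ρ' / n) ≥ sin (π / n)` (`sin` on `[π/n, π - π/n]`; `n ≥ 2` because
`n ∤ j k`), and `sin om = sin (k (π / n)) ≤ k sin (π / n)` (`abs_sin_nat_mul_le`).  So
`X ≥ lam sin om / k ≥ s / k =: c`, `c ≤ 1`.  Finally `2 X / sqrt (cos² t + X²) ≥
2 X / sqrt (1 + X²) ≥ 2 c / sqrt (1 + c²) ≥ c` (the middle step: monotone in `X`; equivalently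
`4 X² ≥ c² (cos² t + X²)` because `cos² t ≤ 1`, `c ≤ 1`, `c ≤ X`: `c² cos² t + c² X² ≤
c² + X² ≤ 2 X²`; so no monotonicity is needed). -/
theorem pt_sep {lam s om : ℝ} {k n j : ℕ} (hk : 0 < k) (hn : 0 < n) (hom : om * n = Real.pi * k)
    (hom1 : om < Real.pi / 2) (hs : 0 < s) (hs1 : s ≤ 1) (hlam : s ≤ lam * Real.sin om)
    (hj : ¬ n ∣ j * k) : s / k ≤ ‖(pt lam (j * om) : ℂ) - 1‖ := by
  have hn0 : (0 : ℝ) < n := by exact_mod_cast hn
  have hk0 : (0 : ℝ) < k := by exact_mod_cast hk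
  have hk1 : (1 : ℝ) ≤ k := by exact_mod_cast hk
  have hpi := Real.pi_pos
  have hn2 : 2 ≤ n := by
    rcases Nat.lt_or_ge n 2 with h | h
    · exfalso; apply hj
      have : n = 1 := by omega
      rw [this]; exact one_dvd _
    · exact h
  have hn2' : (2 : ℝ) ≤ n := by exact_mod_cast hn2
  have homeq : om = Real.pi * k / n := by rw [← hom]; field_simp
  have hom0 : 0 < om := by rw [homeq]; positivity
  have hsinom : 0 < Real.sin om := Real.sin_pos_of_pos_of_lt_pi hom0 (by linarith)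
  have hlam0 : 0 < lam := by
    by_contra hcon
    push Not at hcon
    have : lam * Real.sin om ≤ 0 := mul_nonpos_of_nonpos_of_nonneg hcon hsinom.le
    linarith
  -- sin om ≤ k sin (π / n)
  have hsinpn : 0 < Real.sin (Real.pi / n) := by
    apply Real.sin_pos_of_pos_of_lt_pi (by positivity)
    rw [div_lt_iff₀ hn0]; nlinarith
  have h1 : Real.sin om ≤ k * Real.sin (Real.pi / n) := by
    have h := abs_sin_nat_mul_le k (Real.pi / n)
    rw [abs_of_pos hsinpn] at h
    have e : (k : ℝ) * (Real.pi / n) = om := by rw [homeq]; ring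
    rw [e] at h
    exact (le_abs_self _).trans h
  have h2 : Real.sin (Real.pi / n) ≤ |Real.sin (j * om)| := by
    have h := PhiB_sin_lower hn2 hj
    have e : Real.pi * ((j * k : ℕ) : ℝ) / n = j * om := by
      rw [homeq]; push_cast; ring
    rwa [e] at h
  set t : ℝ := j * om with ht
  set c : ℝ := s / k with hc
  have hc0 : 0 < c := by positivity
  have hc1 : c ≤ 1 := by
    rw [hc, div_le_one hk0]; linarith
  have hX : c ≤ lam * |Real.sin t| := by
    rw [hc, div_le_iff₀ hk0]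
    calc s ≤ lam * Real.sin om := hlam
      _ ≤ lam * (k * Real.sin (Real.pi / n)) := by gcongr
      _ ≤ lam * (k * |Real.sin t|) := by gcongr
      _ = lam * |Real.sin t| * k := by ring
  set X : ℝ := lam * |Real.sin t| with hXdef
  -- the point
  have hE := exp_Ph hlam0 t
  set ρ : ℝ := ‖(Real.cos t : ℂ) + (lam * Real.sin t : ℝ) * Complex.I‖ with hρ
  have hρ2 : ρ ^ 2 = Real.cos t ^ 2 + X ^ 2 := by
    rw [hρ, ← Complex.normSq_eq_norm_sq, Complex.normSq_add_mul_I, hXdef, mul_pow, mul_pow, sq_abs]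
  have hρ0 : 0 < ρ := by
    have h0 : 0 ≤ ρ := norm_nonneg _
    rcases h0.lt_or_eq with h | h
    · exact h
    · exfalso
      rw [← h] at hρ2
      have : 0 < X := lt_of_lt_of_le hc0 hX
      nlinarith [sq_nonneg (Real.cos t)]
  have him : Real.sin (Ph lam t) * ρ = lam * Real.sin t := by
    have h := congrArg Complex.im hE
    rw [Complex.exp_mul_I] at h
    simpa [Complex.mul_im, Complex.add_im, ← Complex.ofReal_sin, ← Complex.ofReal_cos] using h
  have hpt : ‖(pt lam t : ℂ) - 1‖ = 2 * |Real.sin (Ph lam t)| := by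
    have h := Complex.norm_exp_I_mul_ofReal_sub_one (2 * Ph lam t)
    have e : ((pt lam t : Circle) : ℂ) = Complex.exp (Complex.I * ((2 * Ph lam t : ℝ) : ℂ)) := by
      rw [pt, Circle.coe_exp, mul_comm]
    rw [e, h, Real.norm_eq_abs, abs_mul, abs_two]
    congr 3
    ring
  rw [hpt]
  have habs : |Real.sin (Ph lam t)| * ρ = X := by
    calc |Real.sin (Ph lam t)| * ρ = |Real.sin (Ph lam t)| * |ρ| := by rw [abs_of_pos hρ0]
      _ = |lam * Real.sin t| := by rw [← abs_mul, him]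
      _ = X := by rw [abs_mul, abs_of_pos hlam0]
  have hfin : (c * ρ) ^ 2 ≤ (2 * X) ^ 2 := by
    rw [mul_pow, hρ2]
    have hcos : Real.cos t ^ 2 ≤ 1 := Real.cos_sq_le_one t
    have hXc : c ^ 2 ≤ X ^ 2 := by
      apply pow_le_pow_left₀ hc0.le hX
    have hc2 : c ^ 2 ≤ 1 := pow_le_one₀ hc0.le hc1
    nlinarith [mul_le_mul_of_nonneg_left hcos (sq_nonneg c),
      mul_le_mul_of_nonneg_right hc2 (sq_nonneg X), sq_nonneg X]
  have hXpos : 0 < X := lt_of_lt_of_le hc0 hX
  have hle : c * ρ ≤ 2 * X := by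
    exact le_of_sq_le_sq hfin (by positivity)
  have : c * ρ ≤ (2 * |Real.sin (Ph lam t)|) * ρ := by
    rw [mul_assoc, habs]; exact hle
  exact le_of_mul_le_mul_right this hρ0

end Pool.Agent.SC
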