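import Pool.Agent.Lib.MP_1e8d1a_an.SC.Fam1

/-! row Fam2 -/

open scoped ContDiff Manifold Topology

namespace Pool.Agent.SC

variable {E : Type} [NormedAddCommGroup E] [NormedSpace ℝ E] {H : Type} [TopologicalSpace H]
  {I : ModelWithCorners ℝ E H} {W : Type} [TopologicalSpace W] [ChartedSpace H W]

theorem Fam2_symm [IsManifold I ∞ W] [I.Boundaryless] {φ : OpenPartialHomeomorph W H}
    (hφ : φ ∈ IsManifold.maximalAtlas I ∞ W) {p : W} (hp : p ∈ φ.source) :
    ContMDiffAt 𝓘(ℝ, E) I ∞ (φ.extend I).symm (φ.extend I p) := by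
  have h1 : ContMDiffOn 𝓘(ℝ, E) I ∞ (φ.extend I).symm (φ.extend I).target := by
    rw [φ.extend_target']
    exact contMDiffOn_extend_symm hφ
  refine h1.contMDiffAt (φ.isOpen_extend_target.mem_nhds ?_)
  exact (φ.extend I).map_source (by rwa [φ.extend_source])

theorem Fam2_ext [IsManifold I ∞ W] {ψ : OpenPartialHomeomorph W H}
    (hψ : ψ ∈ IsManifold.maximalAtlas I ∞ W) {p : W} (hp : p ∈ ψ.source) :
    ContMDiffAt I 𝓘(ℝ, E) ∞ (ψ.extend I) p :=
  ψ.contMDiffAt_extend hψ hp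

theorem Fam2_left {φ : OpenPartialHomeomorph W H} {p : W} (hp : p ∈ φ.source) :
    (φ.extend I).symm (φ.extend I p) = p := φ.extend_left_inv hp

/-- One compact chart condition is open along a family.  Here `F` is a `C^r` diffeomorphism,
`F = Φ (t₀, ·)`, and `Φ` is `C^r` at all points `(t₀, q)`.

PROOF.  For every `p ∈ K` find neighbourhoods `T` of `t₀` and `N` of `p` such that for `t ∈ T`,
`q ∈ N ∩ K`: `Φ (t, q) ∈ ψ.source`, and for all `j ≤ k` the inequality with `Φ (t, ·)` in place of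
`g` holds at `q`; then use compactness of `K` (`IsCompact.induction_on`, as in
`Pool/Agent/Lib/Closing/Strong.lean`, `graph_nhds`).  At `p`: `F p ∈ ψ.source`, `ψ.source` open,
`Φ` continuous at `(t₀, p)` (`ContMDiffAt.continuousAt`).  Let `y₀ = φ.extend I p` and
`Ψ (t, y) = ψ.extend I (Φ (t, (φ.extend I).symm y))`.  Since `I` is boundaryless `Ψ` is `C^k` at
`(t₀, y₀)` in the ordinary sense: `(φ.extend I).symm` is `ContMDiffAt 𝓘(ℝ, E) I ∞` at `y₀`
(`contMDiffOn_extend_symm`, the target is open: `OpenPartialHomeomorph.isOpen_extend_target` or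
`extend_target` + `I.range_eq_univ`), `Φ` is `C^r` at `(t₀, p)`, `ψ.extend I` is `C^∞` at `F p`
(`contMDiffOn_extend`); compose, use `contMDiffAt_iff_contDiffAt` (and
`modelWithCornersSelf_prod`, `chartedSpaceSelf_prod` for the product model `P × E`).
By `continuousAt_partial` the map `(t, y) ↦ D^j_y Ψ(t, ·)(y)` is continuous at `(t₀, y₀)`, and
`y ↦ D^j (ψ.extend I ∘ f ∘ (φ.extend I).symm) y` is continuous at `y₀` (same argument, `f` is
`C^r`; apply `continuousAt_partial` with a constant family or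
`ContDiffAt.continuousAt_iteratedFDeriv`).  So the norm of the difference is continuous at
`(t₀, y₀)`, it is `< ε` there by `hF'`, hence near `(t₀, y₀)`, and `q ↦ φ.extend I q` is continuous
at `p`.  There are finitely many `j ≤ k`. -/
theorem crNear_eventually [IsManifold I ∞ W] [I.Boundaryless] {r : ℕ∞} {P : Type}
    [NormedAddCommGroup P] [NormedSpace ℝ P] (Φ : P × W → W) (t₀ : P)
    (hΦ : ∀ q, ContMDiffAt (𝓘(ℝ, P).prod I) I r Φ (t₀, q)) (F f : W ≃ₘ^r⟮I, I⟯ W)
    (hF : ∀ q, F q = Φ (t₀, q)) (φ ψ : OpenPartialHomeomorph W H)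
    (hφ : φ ∈ IsManifold.maximalAtlas I ∞ W) (hψ : ψ ∈ IsManifold.maximalAtlas I ∞ W)
    (K : Set W) (hK : IsCompact K) (hKφ : K ⊆ φ.source) (hfK : f '' K ⊆ ψ.source)
    (k : ℕ) (hk : (k : ℕ∞) ≤ r) (ε : ℝ) (hF' : CrNear I k f φ ψ K ε F) :
    ∀ᶠ t in 𝓝 t₀, CrNear I k f φ ψ K ε (fun q => Φ (t, q)) := by
  have hkr : ((k : ℕ) : WithTop ℕ∞) ≤ ((r : ℕ∞) : WithTop ℕ∞) := by exact_mod_cast hk
  have hkinf : ((k : ℕ) : WithTop ℕ∞) ≤ ∞ := by exact_mod_cast le_top
  have key : ∀ p ∈ K, ∀ᶠ z : P × W in 𝓝 (t₀, p), Φ (z.1, z.2) ∈ ψ.source ∧ ∀ j ≤ k,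
      ‖iteratedFDeriv ℝ j (ψ.extend I ∘ f ∘ (φ.extend I).symm) (φ.extend I z.2) -
      iteratedFDeriv ℝ j (ψ.extend I ∘ (fun q => Φ (z.1, q)) ∘ (φ.extend I).symm)
        (φ.extend I z.2)‖ < ε := by
    intro p hp
    have hpφ : p ∈ φ.source := hKφ hp
    have hFp : Φ (t₀, p) ∈ ψ.source := by
      rw [← hF]
      exact hF'.1 ⟨p, hp, rfl⟩
    have hcont : ContinuousAt Φ (t₀, p) := (hΦ p).continuousAt
    have h1 : ∀ᶠ z : P × W in 𝓝 (t₀, p), Φ (z.1, z.2) ∈ ψ.source :=
      hcont.eventually_mem (ψ.open_source.mem_nhds hFp)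
    set y₀ := φ.extend I p with hy₀
    -- smoothness of the representatives
    have hΨ : ContDiffAt ℝ k
        (fun z : P × E => ψ.extend I (Φ (z.1, (φ.extend I).symm z.2))) (t₀, y₀) := by
      rw [← contMDiffAt_iff_contDiffAt]
      have ha : ContMDiffAt 𝓘(ℝ, P × E) 𝓘(ℝ, P) k (fun z : P × E => z.1) (t₀, y₀) :=
        contMDiffAt_iff_contDiffAt.2 contDiffAt_fst
      have hb0 : ContMDiffAt 𝓘(ℝ, P × E) 𝓘(ℝ, E) k (fun z : P × E => z.2) (t₀, y₀) :=
        contMDiffAt_iff_contDiffAt.2 contDiffAt_snd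
      have hb : ContMDiffAt 𝓘(ℝ, P × E) I k
          (fun z : P × E => (φ.extend I).symm z.2) (t₀, y₀) := by
        have hb1 : ContMDiffAt 𝓘(ℝ, E) I k (φ.extend I).symm y₀ := (Fam2_symm hφ hpφ).of_le hkinf
        exact ContMDiffAt.comp (t₀, y₀) (g := (φ.extend I).symm) (f := fun z : P × E => z.2)
          hb1 hb0
      have hc : ContMDiffAt 𝓘(ℝ, P × E) (𝓘(ℝ, P).prod I) k
          (fun z : P × E => (z.1, (φ.extend I).symm z.2)) (t₀, y₀) := ha.prodMk hb
      have hd : ContMDiffAt 𝓘(ℝ, P × E) I k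
          (fun z : P × E => Φ (z.1, (φ.extend I).symm z.2)) (t₀, y₀) := by
        refine ContMDiffAt.comp (t₀, y₀) (g := Φ) (f := fun z : P × E => (z.1, (φ.extend I).symm z.2))
          ?_ hc
        simp only [hy₀, Fam2_left hpφ]
        exact (hΦ p).of_le hkr
      refine ContMDiffAt.comp (t₀, y₀) (g := ψ.extend I)
        (f := fun z : P × E => Φ (z.1, (φ.extend I).symm z.2)) ?_ hd
      simp only [hy₀, Fam2_left hpφ]
      exact (Fam2_ext hψ hFp).of_le hkinf
    have hfr : ContDiffAt ℝ k (ψ.extend I ∘ f ∘ (φ.extend I).symm) y₀ := by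
      rw [← contMDiffAt_iff_contDiffAt]
      have hb1 : ContMDiffAt 𝓘(ℝ, E) I k (φ.extend I).symm y₀ := (Fam2_symm hφ hpφ).of_le hkinf
      have hb2 : ContMDiffAt 𝓘(ℝ, E) I k (f ∘ (φ.extend I).symm) y₀ := by
        refine ContMDiffAt.comp y₀ ?_ hb1
        exact (f.contMDiff _).of_le hkr
      refine ContMDiffAt.comp y₀ ?_ hb2
      refine (Fam2_ext hψ ?_).of_le hkinf
      simp only [Function.comp_apply, hy₀, Fam2_left hpφ]
      exact hfK ⟨p, hp, rfl⟩
    have hφc : ContinuousAt (fun z : P × W => (z.1, φ.extend I z.2)) (t₀, p) := by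
      have h2 : ContinuousAt (φ.extend I) p := φ.continuousAt_extend hpφ
      exact continuousAt_fst.prodMk (ContinuousAt.comp (x := (t₀, p)) (f := fun z : P × W => z.2)
        (g := φ.extend I) h2 continuousAt_snd)
    have h2 : ∀ j ∈ Finset.range (k + 1), ∀ᶠ z : P × W in 𝓝 (t₀, p),
        ‖iteratedFDeriv ℝ j (ψ.extend I ∘ f ∘ (φ.extend I).symm) (φ.extend I z.2) -
        iteratedFDeriv ℝ j (ψ.extend I ∘ (fun q => Φ (z.1, q)) ∘ (φ.extend I).symm)
          (φ.extend I z.2)‖ < ε := by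
      intro j hj
      have hjk : j ≤ k := by simpa [Nat.lt_succ_iff] using hj
      have h3 := continuousAt_partial hΨ hjk
      have h4 : ContinuousAt (fun z : P × W => iteratedFDeriv ℝ j
          (fun y => ψ.extend I (Φ (z.1, (φ.extend I).symm y))) (φ.extend I z.2)) (t₀, p) :=
        ContinuousAt.comp (x := (t₀, p)) (f := fun z : P × W => (z.1, φ.extend I z.2))
          (g := fun z : P × E => iteratedFDeriv ℝ j
            (fun y => ψ.extend I (Φ (z.1, (φ.extend I).symm y))) z.2) h3 hφc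
      have h5 : ContinuousAt (fun z : P × W => iteratedFDeriv ℝ j
          (ψ.extend I ∘ f ∘ (φ.extend I).symm) (φ.extend I z.2)) (t₀, p) := by
        have h6 : ContinuousAt (iteratedFDeriv ℝ j (ψ.extend I ∘ f ∘ (φ.extend I).symm)) y₀ :=
          hfr.continuousAt_iteratedFDeriv (by exact_mod_cast hjk)
        have h7 : ContinuousAt (fun z : P × W => φ.extend I z.2) (t₀, p) :=
          ContinuousAt.comp (x := (t₀, p)) (f := fun z : P × W => z.2)
            (g := φ.extend I) (φ.continuousAt_extend hpφ) continuousAt_snd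
        exact ContinuousAt.comp (x := (t₀, p)) (f := fun z : P × W => φ.extend I z.2)
          (g := iteratedFDeriv ℝ j (ψ.extend I ∘ f ∘ (φ.extend I).symm)) h6 h7
      have h8 := (h5.sub h4).norm
      refine h8.eventually_lt_const ?_
      have h9 := hF'.2 p hp j hjk
      have h10 : (ψ.extend I ∘ (F : W → W) ∘ (φ.extend I).symm)
          = fun y => ψ.extend I (Φ (t₀, (φ.extend I).symm y)) := by
        funext y
        simp only [Function.comp_apply, hF]
      rw [h10] at h9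
      exact h9
    have h3 := (Filter.eventually_all_finset (Finset.range (k + 1))).2 h2
    filter_upwards [h1, h3] with z hz1 hz2
    exact ⟨hz1, fun j hj => hz2 j (Finset.mem_range.2 (Nat.lt_succ_of_le hj))⟩
  have h := hK.eventually_forall_of_forall_eventually (P := fun t q => Φ (t, q) ∈ ψ.source ∧
    ∀ j ≤ k, ‖iteratedFDeriv ℝ j (ψ.extend I ∘ f ∘ (φ.extend I).symm) (φ.extend I q) -
      iteratedFDeriv ℝ j (ψ.extend I ∘ (fun q => Φ (t, q)) ∘ (φ.extend I).symm)
        (φ.extend I q)‖ < ε) key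
  filter_upwards [h] with t ht
  refine ⟨?_, fun p hp j hj => (ht p hp).2 j hj⟩
  rintro _ ⟨p, hp, rfl⟩
  exact (ht p hp).1

end Pool.Agent.SC
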