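import Mathlib

/-!
# The `C^r` topology on `Diff^r(W)`, closable points, recurrent points

`W` is a manifold without boundary modelled on the finite dimensional space `E`
(model with corners `I`, boundaryless).
-/

open scoped ContDiff Manifold Topology

namespace Pool.Agent.SC

variable {E : Type} [NormedAddCommGroup E] [NormedSpace ℝ E] {H : Type} [TopologicalSpace H]
  (I : ModelWithCorners ℝ E H) {W : Type} [TopologicalSpace W] [ChartedSpace H W]

/-- `g` is `(k, ε)`-near `f` on `K`, read in the charts `φ` (domain) and `ψ` (target):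
`g K ⊆ ψ.source` and on `φ K` the derivatives of all orders `j ≤ k` of the local
representatives of `f` and `g` differ by less than `ε`. -/
def CrNear (k : ℕ) (f : W → W) (φ ψ : OpenPartialHomeomorph W H) (K : Set W) (ε : ℝ)
    (g : W → W) : Prop :=
  g '' K ⊆ ψ.source ∧ ∀ p ∈ K, ∀ j ≤ k,
    ‖iteratedFDeriv ℝ j (ψ.extend I ∘ f ∘ (φ.extend I).symm) (φ.extend I p) -
      iteratedFDeriv ℝ j (ψ.extend I ∘ g ∘ (φ.extend I).symm) (φ.extend I p)‖ < ε

/-- The `C^r` topology on `Diff^r(W)`, generated by the sets of all `g` that are `(k, ε)`-near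
some `f` in `Diff^r(W)` on a compact set `K`, read in smooth charts `φ`, `ψ` with
`K ⊆ φ.source`, `f K ⊆ ψ.source`, for all finite `k ≤ r` and all `ε > 0`. -/
@[reducible] def crTopology (r : ℕ∞) : TopologicalSpace (W ≃ₘ^r⟮I, I⟯ W) :=
  TopologicalSpace.generateFrom
    {N | ∃ (f : W ≃ₘ^r⟮I, I⟯ W) (φ ψ : OpenPartialHomeomorph W H) (K : Set W) (ε : ℝ) (k : ℕ),
      (k : ℕ∞) ≤ r ∧ φ ∈ IsManifold.maximalAtlas I ∞ W ∧ ψ ∈ IsManifold.maximalAtlas I ∞ W ∧
      IsCompact K ∧ K ⊆ φ.source ∧ f '' K ⊆ ψ.source ∧ 0 < ε ∧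
      N = {g : W ≃ₘ^r⟮I, I⟯ W | CrNear I k f φ ψ K ε g}}

/-- `F` can be closed at `p`: every `C^r` neighbourhood of `F` in `Diff^r(W)` contains a
diffeomorphism for which `p` is a periodic point. -/
def Closable {r : ℕ∞} (F : W ≃ₘ^r⟮I, I⟯ W) (p : W) : Prop :=
  ∀ U ∈ @nhds _ (crTopology I r) F, ∃ G ∈ U, ∃ n : ℕ, 0 < n ∧ (G : W → W)^[n] p = p

/-- The point `x` is recurrent for `f` (in the sense of the problem): the map `m ↦ f^m(x)` from
the discrete space `ℤ` to `X` is not a homeomorphism onto its image. -/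
def Recurrent {X : Type} [TopologicalSpace X] (f : Equiv.Perm X) (x : X) : Prop :=
  ¬ Topology.IsEmbedding (fun m : ℤ => (f ^ m) x)

end Pool.Agent.SC
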