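import Pool.Agent.Lib.MP_1e8d1a_an.SC.ClkE
import Pool.Agent.Lib.MP_1e8d1a_an.SC.BumpB

/-! row ClkF -/

open scoped ContDiff Manifold Topology

namespace Pool.Agent.SC

variable {E : Type} [NormedAddCommGroup E] [NormedSpace ℝ E] {H : Type} [TopologicalSpace H]
  {I : ModelWithCorners ℝ E H} {W : Type} [TopologicalSpace W] [ChartedSpace H W]

/-- the case `Θ p = 1`. -/
private lemma ClkF_one [FiniteDimensional ℝ E] [T2Space W] [CompactSpace W]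
    [IsManifold I ∞ W] [I.Boundaryless] {r : ℕ∞} (F : W ≃ₘ^r⟮I, I⟯ W) (ψ : ℝ → W → W)
    (Θ : W → Circle) (hψ0 : ∀ q, ψ 0 q = q) (hψ : ∀ u v q, ψ (u + v) q = ψ u (ψ v q))
    (hψC : ContMDiff (𝓘(ℝ, ℝ).prod I) I r (fun z : ℝ × W => ψ z.1 z.2))
    (hΘ : ContMDiff I (𝓡 1) r Θ)
    (hΘψ : ∀ u q, Θ (ψ u q) = Circle.exp (2 * Real.pi * u) * Θ q)
    (hFψ : ∀ u q, F (ψ u q) = ψ u (F q)) (hΘF : ∀ q, Θ (F q) = Θ q)
    (p : W) (hp : Θ p = 1) (k : ℕ) (hk : ClockReturns F ψ p k) : Closable I F p := by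
  refine closable_of_limit (P := ℝ) (fun z : ℝ × W => F (clk ψ Θ 1 z.1 z.1 z.2))
    (fun q => (contMDiffAt_families F ψ Θ hψC hΘ q).2) F ?_ p ?_
  · intro q
    simp [clk, tau, hψ0]
  · intro ε hε
    have hs0 : 0 < min (ε / 2) (1 / 2) := lt_min (by positivity) (by norm_num)
    have hs1 : min (ε / 2) (1 / 2 : ℝ) ≤ 1 / 2 := min_le_right _ _
    have hs2 : min (ε / 2) (1 / 2 : ℝ) ≤ ε / 2 := min_le_left _ _
    obtain ⟨G, hG⟩ := exists_clk_diffeo F ψ Θ hψ0 hψ hψC hΘ hΘψ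
      (a := 1) (s := min (ε / 2) (1 / 2)) (b := min (ε / 2) (1 / 2)) (by ring)
      (by rw [abs_of_pos hs0]; linarith)
    refine ⟨min (ε / 2) (1 / 2), ?_, G, hG, ?_⟩
    · rw [Real.norm_eq_abs, abs_of_pos hs0]; linarith
    · exact closable_parabolic F ψ Θ hψ0 hψ hψC hΘ hΘψ hFψ hΘF p hp k hk _ hs0 hs1 G hG

/-- The closing lemma with a clock.

PROOF.  First case `Θ p = 1`: apply `closable_of_limit` with `P = ℝ`, `Φ (s, q) =
F (clk 1 s s q)` (`s = 0`: `tau 1 0 0 = 0`, so `clk = id`, `Φ (0, q) = F q`), smooth at `(0, q)` by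
`contMDiffAt_families`; for `ε > 0` take `s = min (ε / 2) (1 / 2)`, `G` from `exists_clk_diffeo`
(`1 + s² - s² = 1`, `|s| < 1`) and `closable_parabolic`.  General case: replace `Θ` by
`Θ' q = (Θ p)⁻¹ * Θ q`, which satisfies the same hypotheses. -/
theorem clock_closable [FiniteDimensional ℝ E] [T2Space W] [CompactSpace W]
    [IsManifold I ∞ W] [I.Boundaryless] {r : ℕ∞} (F : W ≃ₘ^r⟮I, I⟯ W) (ψ : ℝ → W → W)
    (Θ : W → Circle) (hψ0 : ∀ q, ψ 0 q = q) (hψ : ∀ u v q, ψ (u + v) q = ψ u (ψ v q))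
    (hψC : ContMDiff (𝓘(ℝ, ℝ).prod I) I r (fun z : ℝ × W => ψ z.1 z.2))
    (hΘ : ContMDiff I (𝓡 1) r Θ)
    (hΘψ : ∀ u q, Θ (ψ u q) = Circle.exp (2 * Real.pi * u) * Θ q)
    (hFψ : ∀ u q, F (ψ u q) = ψ u (F q)) (hΘF : ∀ q, Θ (F q) = Θ q)
    (p : W) (k : ℕ) (hk : ClockReturns F ψ p k) : Closable I F p := by
  refine ClkF_one F ψ (fun q => (Θ p)⁻¹ * Θ q) hψ0 hψ hψC (contMDiff_const.mul hΘ) ?_ hFψ ?_ p
    (inv_mul_cancel _) k hk
  · intro u q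
    rw [hΘψ, mul_left_comm]
  · intro q
    rw [hΘF]

end Pool.Agent.SC
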