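import Pool.Agent.Lib.MP_1e8d1a_an.SC.Defs2

/-! row ClkA -/

open scoped ContDiff Manifold Topology

namespace Pool.Agent.SC

theorem clkA_coe {r : ℕ∞} : ContMDiff (𝓡 1) 𝓘(ℝ, ℂ) r (fun w : Circle => (w : ℂ)) := by
  have := finrank_real_complex_fact'
  exact contMDiff_coe_sphere (E := ℂ) (n := 1)

/-- `tau` is smooth in all variables where the denominator is positive.

PROOF.  `fun z => (z : ℂ)` is smooth `Circle → ℂ` (`contMDiff_coe_sphere`, after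
`have := finrank_real_complex_fact'`), `Complex.reCLM`, `Complex.imCLM`, `Real.contDiff_arctan`,
`ContDiffAt.div`.  Compose with `Θ`, `α`, `β`, `γ`; `|β z₀| < α z₀` and `|Im| ≤ 1` give
`α z₀ + β z₀ * Im > 0`.  Products and sums of real valued `ContMDiffAt` functions are
`ContMDiffAt` (`ContMDiffAt.mul`, `.add`, or `ContDiffAt.comp_contMDiffAt`). -/
theorem contMDiffAt_tau {r : ℕ∞} {E' H' Z : Type} [NormedAddCommGroup E'] [NormedSpace ℝ E']
    [TopologicalSpace H'] {I' : ModelWithCorners ℝ E' H'} [TopologicalSpace Z] [ChartedSpace H' Z]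
    {α γ β : Z → ℝ} {θ : Z → Circle} {z₀ : Z} (hα : ContMDiffAt I' 𝓘(ℝ, ℝ) r α z₀)
    (hγ : ContMDiffAt I' 𝓘(ℝ, ℝ) r γ z₀) (hβ : ContMDiffAt I' 𝓘(ℝ, ℝ) r β z₀)
    (hθ : ContMDiffAt I' (𝓡 1) r θ z₀) (hb : |β z₀| < α z₀) :
    ContMDiffAt I' 𝓘(ℝ, ℝ) r (fun z => tau (α z) (γ z) (β z) (θ z)) z₀ := by
  have hc : ContMDiffAt I' 𝓘(ℝ, ℂ) r (fun z => (θ z : ℂ)) z₀ :=
    (clkA_coe (r := r)).contMDiffAt.comp z₀ hθ
  have h1 : ContMDiffAt I' 𝓘(ℝ, ℝ × ℝ × ℝ × ℂ) r (fun z => (α z, γ z, β z, (θ z : ℂ))) z₀ :=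
    hα.prodMk_space (hγ.prodMk_space (hβ.prodMk_space hc))
  have h2 : ContDiffAt ℝ r (fun x : ℝ × ℝ × ℝ × ℂ =>
      (1 / Real.pi) * Real.arctan ((x.2.1 + x.2.2.1 * x.2.2.2.re)
        / (x.1 + x.2.2.1 * x.2.2.2.im))) (α z₀, γ z₀, β z₀, (θ z₀ : ℂ)) := by
    have hre : ContDiff ℝ r (fun x : ℝ × ℝ × ℝ × ℂ => x.2.2.2.re) :=
      Complex.reCLM.contDiff.comp (contDiff_snd.comp (contDiff_snd.comp contDiff_snd))
    have him : ContDiff ℝ r (fun x : ℝ × ℝ × ℝ × ℂ => x.2.2.2.im) :=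
      Complex.imCLM.contDiff.comp (contDiff_snd.comp (contDiff_snd.comp contDiff_snd))
    have ha : ContDiff ℝ r (fun x : ℝ × ℝ × ℝ × ℂ => x.1) := contDiff_fst
    have hs : ContDiff ℝ r (fun x : ℝ × ℝ × ℝ × ℂ => x.2.1) := contDiff_fst.comp contDiff_snd
    have hbb : ContDiff ℝ r (fun x : ℝ × ℝ × ℝ × ℂ => x.2.2.1) :=
      contDiff_fst.comp (contDiff_snd.comp contDiff_snd)
    have hpos : (α z₀ + β z₀ * (θ z₀ : ℂ).im) ≠ 0 := by
      have h3 : |(θ z₀ : ℂ).im| ≤ 1 := by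
        have := Complex.abs_im_le_norm (θ z₀ : ℂ)
        rwa [Circle.norm_coe] at this
      have h4 : |β z₀ * (θ z₀ : ℂ).im| ≤ |β z₀| := by
        rw [abs_mul]
        exact mul_le_of_le_one_right (abs_nonneg _) h3
      have h5 := (abs_le.1 h4).1
      intro h6
      linarith
    refine contDiffAt_const.mul (Real.contDiff_arctan.contDiffAt.comp _ ?_)
    exact ((hs.add (hbb.mul hre)).contDiffAt).div ((ha.add (hbb.mul him)).contDiffAt) hpos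
  exact ContDiffAt.comp_contMDiffAt (f := fun z => (α z, γ z, β z, (θ z : ℂ))) (x := z₀) h2 h1

end Pool.Agent.SC
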