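import Pool.Agent.Lib.MP_1e8d1a_an.SC.Fam3
import Pool.Agent.Lib.MP_1e8d1a_an.SC.Trans2

/-! row BumpA -/

open scoped ContDiff Manifold Topology

namespace Pool.Agent.SC

variable {E : Type} [NormedAddCommGroup E] [NormedSpace ℝ E] {H : Type} [TopologicalSpace H]
  {I : ModelWithCorners ℝ E H} {W : Type} [TopologicalSpace W] [ChartedSpace H W]

/-- The closing principle (row BumpA).

PROOF.  Take `T` from `exists_translations p J`, `e = extChartAt I p`.  Consider the family with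
parameter `(v', t, v) ∈ E × P × E`: `Φ' ((v', t, v), q) = T (v', Φ (t, T (v, q)))`.  At
`((0, 0, 0), q)` it is `C^r` (composition; `T (0, q) = q`, `T` is `C^∞` so `C^r`), and
`Φ' ((0, 0, 0), q) = Φ (0, q) = F q`.  Let `U` be a neighbourhood of `F` in the `C^r` topology.
By `mem_nhds_of_family` there is `ε > 0` such that for `‖v'‖, ‖t‖, ‖v‖ < ε` every diffeomorphism
`G'` with `G' q = Φ' ((v', t, v), q)` lies in `U`.  Choose a neighbourhood `N` of `p` with: for
`q ∈ N`, `‖e q - e p‖ < ε` and the two identities of `exists_translations` hold.  Apply `h` to `N`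
and `ε`: `t`, `G`, `q ∈ N`, `n > 0`, `z = G^[n] q ∈ N`, `G^[i] q ∉ J` for `0 < i < n`.
Let `v = e q - e p` (so `T (v, p) = q`), `v' = e p - e z` (so `T (v', z) = p`), `D`, `D'` the
diffeomorphisms `T (v, ·)`, `T (v', ·)` (of class `∞`, hence of class `r`: rebuild the structure
with `ContMDiff.of_le`), `G' = D' ∘ G ∘ D` (`Diffeomorph.trans`).  Then `G' ∈ U`.  Claim:
`G'^[i] p = G^[i] q` for `0 < i < n`, by induction: for `i = 1 < n`: `D p = q`, `G q ∉ J` so
`D' (G q) = G q`; step: `D` fixes `G^[i] q ∉ J`, and `D'` fixes `G^[i+1] q ∉ J`.  Hence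
`G'^[n] p = D' (G (D (G'^[n-1] p))) = D' (G^[n] q) = D' z = p` (for `n = 1` directly:
`D' (G (D p)) = D' (G q) = p`). -/
theorem closable_of_family [FiniteDimensional ℝ E] [T2Space W] [CompactSpace W]
    [IsManifold I ∞ W] [I.Boundaryless] {r : ℕ∞} {P : Type}
    [NormedAddCommGroup P] [NormedSpace ℝ P] (Φ : P × W → W)
    (hΦ : ∀ q, ContMDiffAt (𝓘(ℝ, P).prod I) I r Φ (0, q)) (F : W ≃ₘ^r⟮I, I⟯ W)
    (hF : ∀ q, F q = Φ (0, q)) (p : W) (J : Set W) (hJ : J ∈ 𝓝 p)
    (h : ∀ U ∈ 𝓝 p, ∀ ε > 0, ∃ t : P, ‖t‖ < ε ∧ ∃ G : W ≃ₘ^r⟮I, I⟯ W, (∀ q, G q = Φ (t, q)) ∧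
      ∃ q ∈ U, ∃ n : ℕ, 0 < n ∧ (G : W → W)^[n] q ∈ U ∧
        ∀ i, 0 < i → i < n → (G : W → W)^[i] q ∉ J) :
    Closable I F p := by
  intro U hU
  obtain ⟨T, hT, hTd, hT0, hTJ, hTe⟩ := exists_translations (I := I) p J hJ
  have hle : (r : WithTop ℕ∞) ≤ (∞ : WithTop ℕ∞) := by exact_mod_cast le_top
  have hTr : ContMDiff (𝓘(ℝ, E).prod I) I r T := hT.of_le hle
  -- the big family
  let Φ' : (E × P × E) × W → W := fun x => T (x.1.1, Φ (x.1.2.1, T (x.1.2.2, x.2)))
  have h1 : ContMDiff (𝓘(ℝ, E × P × E).prod I) 𝓘(ℝ, E) r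
      (fun x : (E × P × E) × W => x.1.1) :=
    (contDiff_fst.contMDiff (n := r)).comp contMDiff_fst
  have h2 : ContMDiff (𝓘(ℝ, E × P × E).prod I) 𝓘(ℝ, P) r
      (fun x : (E × P × E) × W => x.1.2.1) :=
    ((contDiff_fst.comp contDiff_snd).contMDiff (n := r)).comp contMDiff_fst
  have h3 : ContMDiff (𝓘(ℝ, E × P × E).prod I) 𝓘(ℝ, E) r
      (fun x : (E × P × E) × W => x.1.2.2) :=
    ((contDiff_snd.comp contDiff_snd).contMDiff (n := r)).comp contMDiff_fst
  have h4 : ContMDiff (𝓘(ℝ, E × P × E).prod I) I r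
      (fun x : (E × P × E) × W => T (x.1.2.2, x.2)) :=
    hTr.comp (h3.prodMk contMDiff_snd)
  have hΦ' : ∀ q, ContMDiffAt (𝓘(ℝ, E × P × E).prod I) I r Φ' (0, q) := by
    intro q
    have h5 : ContMDiffAt (𝓘(ℝ, E × P × E).prod I) (𝓘(ℝ, P).prod I) r
        (fun x : (E × P × E) × W => (x.1.2.1, T (x.1.2.2, x.2))) (0, q) :=
      (h2.contMDiffAt).prodMk (h4.contMDiffAt)
    have h6 : ContMDiffAt (𝓘(ℝ, E × P × E).prod I) I r
        (fun x : (E × P × E) × W => Φ (x.1.2.1, T (x.1.2.2, x.2))) (0, q) := by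
      refine ContMDiffAt.comp_of_eq (g := Φ)
        (f := fun x : (E × P × E) × W => (x.1.2.1, T (x.1.2.2, x.2)))
        (y := ((0 : P), q)) (hΦ q) h5 ?_
      show ((0 : P), T ((0 : E), q)) = ((0 : P), q)
      rw [hT0]
    have h7 : ContMDiffAt (𝓘(ℝ, E × P × E).prod I) (𝓘(ℝ, E).prod I) r
        (fun x : (E × P × E) × W => (x.1.1, Φ (x.1.2.1, T (x.1.2.2, x.2)))) (0, q) :=
      (h1.contMDiffAt).prodMk h6
    exact ContMDiffAt.comp (0, q) (hTr.contMDiffAt) h7
  have hF' : ∀ q, F q = Φ' (0, q) := by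
    intro q
    show F q = T ((0 : E), Φ ((0 : P), T ((0 : E), q)))
    rw [hT0, hT0, hF]
  have hev := mem_nhds_of_family Φ' 0 hΦ' F hF' U hU
  rw [Metric.eventually_nhds_iff] at hev
  obtain ⟨ε, hε, hev⟩ := hev
  have hcont : ∀ᶠ q in 𝓝 p, ‖extChartAt I p q - extChartAt I p p‖ < ε := by
    have hc := (continuousAt_extChartAt (I := I) p)
    have := hc.eventually (Metric.ball_mem_nhds (extChartAt I p p) hε)
    filter_upwards [this] with q hq
    rwa [dist_eq_norm] at hq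
  obtain ⟨t, ht, G, hG, q, hq, n, hn, hz, hi⟩ := h _ (hcont.and hTe) ε hε
  obtain ⟨hq1, hq2, -⟩ := hq
  obtain ⟨hz1, -, hz2⟩ := hz
  set v : E := extChartAt I p q - extChartAt I p p with hv
  set z : W := (G : W → W)^[n] q with hzdef
  set v' : E := extChartAt I p p - extChartAt I p z with hv'
  obtain ⟨D₀, hD₀⟩ := hTd v
  obtain ⟨D₁, hD₁⟩ := hTd v'
  let D : W ≃ₘ^r⟮I, I⟯ W :=
    { toEquiv := D₀.toEquiv
      contMDiff_toFun := D₀.contMDiff.of_le hle
      contMDiff_invFun := D₀.symm.contMDiff.of_le hle }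
  let D' : W ≃ₘ^r⟮I, I⟯ W :=
    { toEquiv := D₁.toEquiv
      contMDiff_toFun := D₁.contMDiff.of_le hle
      contMDiff_invFun := D₁.symm.contMDiff.of_le hle }
  have hD : ∀ x, D x = T (v, x) := hD₀
  have hD' : ∀ x, D' x = T (v', x) := hD₁
  have hDp : D p = q := by rw [hD]; exact hq2
  have hD'z : D' z = p := by rw [hD']; exact hz2
  have hDfix : ∀ x ∉ J, D x = x := fun x hx => by rw [hD]; exact hTJ v x hx
  have hD'fix : ∀ x ∉ J, D' x = x := fun x hx => by rw [hD']; exact hTJ v' x hx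
  let G' : W ≃ₘ^r⟮I, I⟯ W := (D.trans G).trans D'
  have hG' : ∀ x, G' x = D' (G (D x)) := fun x => rfl
  refine ⟨G', ?_, n, hn, ?_⟩
  · refine hev (y := (v', t, v)) ?_ G' ?_
    · rw [dist_zero_right, Prod.norm_def, Prod.norm_def]
      refine max_lt ?_ (max_lt ht hq1)
      rw [hv', norm_sub_rev]
      exact hz1
    · intro x
      show D' (G (D x)) = T (v', Φ (t, T (v, x)))
      rw [hD', hG, hD]
  · have key : ∀ i, 0 < i → i < n → (G' : W → W)^[i] p = (G : W → W)^[i] q := by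
      intro i
      induction i with
      | zero => intro h0; exact absurd h0 (lt_irrefl 0)
      | succ i ih =>
        intro _ hin
        have hJ' := hi (i + 1) (Nat.succ_pos i) hin
        rcases Nat.eq_zero_or_pos i with h0 | h0
        · subst h0
          rw [Function.iterate_succ_apply', Function.iterate_succ_apply'] at *
          simp only [Function.iterate_zero, id_eq] at *
          rw [hG', hDp]
          exact hD'fix _ hJ'
        · have h8 := ih h0 (by omega)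
          rw [Function.iterate_succ_apply', h8, hG',
            hDfix _ (hi i h0 (by omega)), Function.iterate_succ_apply']
          rw [Function.iterate_succ_apply'] at hJ'
          exact hD'fix _ hJ'
    obtain ⟨m, rfl⟩ : ∃ m, n = m + 1 := ⟨n - 1, by omega⟩
    rw [Function.iterate_succ_apply'] at hzdef
    rw [Function.iterate_succ_apply']
    rcases Nat.eq_zero_or_pos m with h0 | h0
    · subst h0
      simp only [Function.iterate_zero, id_eq] at *
      rw [hG', hDp, ← hzdef, hD'z]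
    · rw [key m h0 (by omega), hG', hDfix _ (hi m h0 (by omega)), ← hzdef, hD'z]

end Pool.Agent.SC
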