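import Pool.Agent.Lib.MP_1e8d1a_an.SC.ClkA
import Pool.Agent.Lib.MP_1e8d1a_an.SC.MobA

/-! row ClkB -/

open scoped ContDiff Manifold Topology

namespace Pool.Agent.SC

variable {E : Type} [NormedAddCommGroup E] [NormedSpace ℝ E] {H : Type} [TopologicalSpace H]
  {I : ModelWithCorners ℝ E H} {W : Type} [TopologicalSpace W] [ChartedSpace H W]

/-- `clk` is `C^r`. -/
theorem ClkB_contMDiff {r : ℕ∞} (ψ : ℝ → W → W) (Θ : W → Circle)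
    (hψC : ContMDiff (𝓘(ℝ, ℝ).prod I) I r (fun z : ℝ × W => ψ z.1 z.2))
    (hΘ : ContMDiff I (𝓡 1) r Θ)
    {a s b : ℝ} (hb : |b| < a) : ContMDiff I I r (clk ψ Θ a s b) := by
  intro q
  have h1 : ContMDiffAt I 𝓘(ℝ, ℝ) r (fun q => tau a s b (Θ q)) q :=
    contMDiffAt_tau (α := fun _ => a) (γ := fun _ => s) (β := fun _ => b) (θ := Θ) (z₀ := q)
      contMDiffAt_const contMDiffAt_const contMDiffAt_const (hΘ q) hb
  have h2 : ContMDiffAt I (𝓘(ℝ, ℝ).prod I) r (fun q => (tau a s b (Θ q), q)) q :=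
    h1.prodMk contMDiffAt_id
  have h3 : ContMDiffAt (𝓘(ℝ, ℝ).prod I) I r (fun z : ℝ × W => ψ z.1 z.2)
      ((fun q => (tau a s b (Θ q), q)) q) := hψC (tau a s b (Θ q), q)
  exact ContMDiffAt.comp (I' := 𝓘(ℝ, ℝ).prod I) (f := fun q => (tau a s b (Θ q), q)) q h3 h2

omit [TopologicalSpace W] in
/-- the inverse of `clk a s b` is `clk a (-s) (-b)`. -/
theorem ClkB_leftInv (ψ : ℝ → W → W) (Θ : W → Circle)
    (hψ0 : ∀ q, ψ 0 q = q) (hψ : ∀ u v q, ψ (u + v) q = ψ u (ψ v q))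
    (hΘψ : ∀ u q, Θ (ψ u q) = Circle.exp (2 * Real.pi * u) * Θ q)
    {a s b : ℝ} (h : a ^ 2 + s ^ 2 - b ^ 2 = 1) (hb : |b| < a) (q : W) :
    clk ψ Θ a (-s) (-b) (clk ψ Θ a s b q) = q := by
  have h1 : Θ (clk ψ Θ a s b q) = mob a s b (Θ q) := by
    unfold clk mob
    rw [hΘψ]
  have h2 : clk ψ Θ a (-s) (-b) (clk ψ Θ a s b q)
      = ψ (tau a (-s) (-b) (Θ (clk ψ Θ a s b q))) (clk ψ Θ a s b q) := rfl
  rw [h2, h1, tau_mob h hb]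
  unfold clk
  rw [← hψ, neg_add_cancel, hψ0]

/-- `F ∘ clk` is a `C^r` diffeomorphism.

PROOF.  `clk a s b` has the inverse `clk a (-s) (-b)`: `Θ (clk a s b q) = mob a s b (Θ q)` by
`hΘψ`, so `clk a (-s) (-b) (clk a s b q) = ψ (tau a (-s) (-b) (mob a s b (Θ q))) (ψ (tau a s b
(Θ q)) q) = ψ (- tau + tau) q = ψ 0 q = q` by `tau_mob`, `hψ`, `hψ0`; the other composition is the
same with `(-s, -b)`.  Both are `C^r` by `contMDiffAt_tau` (constant parameters) and `hψC`.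
Compose with `F` (`Diffeomorph.trans`). -/
theorem exists_clk_diffeo {r : ℕ∞} (F : W ≃ₘ^r⟮I, I⟯ W) (ψ : ℝ → W → W) (Θ : W → Circle)
    (hψ0 : ∀ q, ψ 0 q = q) (hψ : ∀ u v q, ψ (u + v) q = ψ u (ψ v q))
    (hψC : ContMDiff (𝓘(ℝ, ℝ).prod I) I r (fun z : ℝ × W => ψ z.1 z.2))
    (hΘ : ContMDiff I (𝓡 1) r Θ)
    (hΘψ : ∀ u q, Θ (ψ u q) = Circle.exp (2 * Real.pi * u) * Θ q)
    {a s b : ℝ} (h : a ^ 2 + s ^ 2 - b ^ 2 = 1) (hb : |b| < a) :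
    ∃ G : W ≃ₘ^r⟮I, I⟯ W, ∀ q, G q = F (clk ψ Θ a s b q) := by
  have hb' : |(-b)| < a := by rw [abs_neg]; exact hb
  have h' : a ^ 2 + (-s) ^ 2 - (-b) ^ 2 = 1 := by rw [neg_sq, neg_sq]; exact h
  have hinv : ∀ q, clk ψ Θ a s b (clk ψ Θ a (-s) (-b) q) = q := by
    intro q
    have := ClkB_leftInv ψ Θ hψ0 hψ hΘψ h' hb' q
    rwa [neg_neg, neg_neg] at this
  let C : W ≃ₘ^r⟮I, I⟯ W :=
    { toFun := clk ψ Θ a s b
      invFun := clk ψ Θ a (-s) (-b)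
      left_inv := ClkB_leftInv ψ Θ hψ0 hψ hΘψ h hb
      right_inv := hinv
      contMDiff_toFun := ClkB_contMDiff ψ Θ hψC hΘ hb
      contMDiff_invFun := ClkB_contMDiff ψ Θ hψC hΘ hb' }
  exact ⟨C.trans F, fun q => rfl⟩

end Pool.Agent.SC
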