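import Pool.Agent.Lib.MP_1e8d1a_an.SC.MobB

/-! row ClkC -/

open scoped ContDiff Manifold Topology

namespace Pool.Agent.SC

variable {E : Type} [NormedAddCommGroup E] [NormedSpace ℝ E] {H : Type} [TopologicalSpace H]
  {I : ModelWithCorners ℝ E H} {W : Type} [TopologicalSpace W] [ChartedSpace H W]

/-- Iterates of `F ∘ clk` at a point with clock value `1`.

PROOF.  Induction on `i`, proving both statements together.  `i = 0`: `Ph lam 0 = 0`
(`Ph_nat_mul_pi` with `k = 0`), `ψ 0 q = q`, `pt lam 0 = 1`.  Step: let `q' = G^[i] q`,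
`Θ q' = pt lam (i om)`.  `G q' = F (ψ (tau ... (pt lam (i om))) q') =
F (ψ ((Ph lam (i om + om) - Ph lam (i om)) / π) (F^[i] (ψ (Ph lam (i om) / π) q)))` by `tau_pt`;
`F` commutes with `ψ` (so does `F^[i]`), the times add up.  `Θ (G q') = Θ (clk q') =
mob (pt lam (i om)) = pt lam (i om + om)` by `hΘF`, `hΘψ`, `mob_pt`. -/
theorem iterate_clk (F : W → W) (ψ : ℝ → W → W) (Θ : W → Circle)
    (hψ0 : ∀ q, ψ 0 q = q) (hψ : ∀ u v q, ψ (u + v) q = ψ u (ψ v q))
    (hΘψ : ∀ u q, Θ (ψ u q) = Circle.exp (2 * Real.pi * u) * Θ q)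
    (hFψ : ∀ u q, F (ψ u q) = ψ u (F q)) (hΘF : ∀ q, Θ (F q) = Θ q)
    {lam s b om : ℝ} (hlam : 0 < lam) (hom0 : 0 < om) (hom1 : om < Real.pi / 2)
    (h1 : s + b = lam * Real.sin om) (h2 : (s - b) * lam = Real.sin om)
    (hb : |b| < Real.cos om) (G : W → W) (hG : ∀ q, G q = F (clk ψ Θ (Real.cos om) s b q))
    (q : W) (hq : Θ q = 1) (i : ℕ) :
    G^[i] q = F^[i] (ψ (Ph lam (i * om) / Real.pi) q) ∧ Θ (G^[i] q) = pt lam (i * om) := by
  have hPh0 : Ph lam 0 = 0 := by simpa using Ph_nat_mul_pi lam 0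
  have hpt0 : pt lam 0 = 1 := by simpa using pt_nat_mul_pi lam 0
  have hFit : ∀ (n : ℕ) (u : ℝ) (q : W), F^[n] (ψ u q) = ψ u (F^[n] q) := by
    intro n
    induction n with
    | zero => intro u q; rfl
    | succ n ih =>
      intro u q
      rw [Function.iterate_succ_apply', ih, hFψ, ← Function.iterate_succ_apply' F n q]
  induction i with
  | zero =>
    refine ⟨?_, ?_⟩
    · simp only [Nat.cast_zero, zero_mul, hPh0, zero_div, hψ0, Function.iterate_zero, id]
    · simp only [Nat.cast_zero, zero_mul, hpt0, Function.iterate_zero, id, hq]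
  | succ i ih =>
    obtain ⟨ih1, ih2⟩ := ih
    have hcast : ((i + 1 : ℕ) : ℝ) * om = i * om + om := by push_cast; ring
    have htau := tau_pt hlam hom0 hom1 h1 h2 hb (i * om)
    have hmob := mob_pt hlam hom0 hom1 h1 h2 hb (i * om)
    rw [Function.iterate_succ_apply', hG, hcast]
    refine ⟨?_, ?_⟩
    · rw [Function.iterate_succ_apply']
      congr 1
      unfold clk
      rw [ih2, htau, ih1, hFit, hFit, ← hψ]
      congr 1
      ring
    · rw [hΘF]
      unfold clk
      rw [hΘψ, ih2]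
      unfold mob at hmob
      rw [hmob]

end Pool.Agent.SC
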