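import Pool.Agent.Lib.MP_1e8d1a_an.SC.ClkA

/-! row ClkD -/

open scoped ContDiff Manifold Topology

namespace Pool.Agent.SC

variable {E : Type} [NormedAddCommGroup E] [NormedSpace ℝ E] {H : Type} [TopologicalSpace H]
  {I : ModelWithCorners ℝ E H} {W : Type} [TopologicalSpace W] [ChartedSpace H W]

theorem contMDiffAt_families_gen {r : ℕ∞} (F : W ≃ₘ^r⟮I, I⟯ W) (ψ : ℝ → W → W) (Θ : W → Circle)
    (hψC : ContMDiff (𝓘(ℝ, ℝ).prod I) I r (fun z : ℝ × W => ψ z.1 z.2))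
    (hΘ : ContMDiff I (𝓡 1) r Θ) (q : W) {α γ β : ℝ → ℝ} (hα : ContDiffAt ℝ r α 0)
    (hγ : ContDiffAt ℝ r γ 0) (hβ : ContDiffAt ℝ r β 0) (hb : |β 0| < α 0) :
    ContMDiffAt (𝓘(ℝ, ℝ).prod I) I r (fun z : ℝ × W =>
      F (clk ψ Θ (α z.1) (γ z.1) (β z.1) z.2)) (0, q) := by
  have hfst : ContMDiffAt (𝓘(ℝ, ℝ).prod I) 𝓘(ℝ, ℝ) r (Prod.fst : ℝ × W → ℝ) (0, q) :=
    contMDiffAt_fst
  have hsnd : ContMDiffAt (𝓘(ℝ, ℝ).prod I) I r (Prod.snd : ℝ × W → W) (0, q) :=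
    contMDiffAt_snd
  have h1 : ContMDiffAt (𝓘(ℝ, ℝ).prod I) 𝓘(ℝ, ℝ) r
      (fun z : ℝ × W => tau (α z.1) (γ z.1) (β z.1) (Θ z.2)) (0, q) := by
    apply contMDiffAt_tau (α := fun z : ℝ × W => α z.1) (γ := fun z : ℝ × W => γ z.1)
      (β := fun z : ℝ × W => β z.1) (θ := fun z : ℝ × W => Θ z.2)
    · exact ContDiffAt.comp_contMDiffAt (g := α) (f := Prod.fst) hα hfst
    · exact ContDiffAt.comp_contMDiffAt (g := γ) (f := Prod.fst) hγ hfst
    · exact ContDiffAt.comp_contMDiffAt (g := β) (f := Prod.fst) hβ hfst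
    · exact (hΘ q).comp (0, q) hsnd
    · exact hb
  have h3 := h1.prodMk hsnd
  have h4 := (hψC.contMDiffAt).comp (0, q) h3
  exact (F.contMDiff.contMDiffAt).comp (0, q) h4

/-- Smoothness of the two families.

PROOF.  `contMDiffAt_tau` on `Z = ℝ × W` with `θ = Θ ∘ Prod.snd`.  First family at `(0, q)`:
`α z = cos z.1`, `γ = s`, `β z = sqrt (s ^ 2 - sin z.1 ^ 2)`, smooth at `0` because
`s ^ 2 > 0` (`ContDiffAt.sqrt`), `|β| = s < 1 = α` there.  Second family at `(0, q)`: `α = 1`,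
`γ z = β z = z.1`, `|0| < 1`.  Then compose with `hψC` and `F`. -/
theorem contMDiffAt_families {r : ℕ∞} (F : W ≃ₘ^r⟮I, I⟯ W) (ψ : ℝ → W → W) (Θ : W → Circle)
    (hψC : ContMDiff (𝓘(ℝ, ℝ).prod I) I r (fun z : ℝ × W => ψ z.1 z.2))
    (hΘ : ContMDiff I (𝓡 1) r Θ) (q : W) :
    (∀ s : ℝ, 0 < s → s ≤ 1 / 2 → ContMDiffAt (𝓘(ℝ, ℝ).prod I) I r (fun z : ℝ × W =>
      F (clk ψ Θ (Real.cos z.1) s (Real.sqrt (s ^ 2 - Real.sin z.1 ^ 2)) z.2)) (0, q)) ∧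
    ContMDiffAt (𝓘(ℝ, ℝ).prod I) I r (fun z : ℝ × W =>
      F (clk ψ Θ 1 z.1 z.1 z.2)) (0, q) := by
  constructor
  · intro s hs hs2
    refine contMDiffAt_families_gen F ψ Θ hψC hΘ q (α := Real.cos) (γ := fun _ => s)
      (β := fun t => Real.sqrt (s ^ 2 - Real.sin t ^ 2)) Real.contDiff_cos.contDiffAt
      contDiffAt_const ?_ ?_
    · apply ContDiffAt.sqrt
      · exact contDiffAt_const.sub (Real.contDiff_sin.contDiffAt.pow 2)
      · simp only [Real.sin_zero]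
        have : 0 < s ^ 2 := by positivity
        intro h
        nlinarith
    · simp only [Real.sin_zero, Real.cos_zero]
      rw [abs_of_nonneg (Real.sqrt_nonneg _)]
      have : s ^ 2 - 0 ^ 2 = s ^ 2 := by ring
      rw [this, Real.sqrt_sq hs.le]
      linarith
  · refine contMDiffAt_families_gen F ψ Θ hψC hΘ q (α := fun _ => 1) (γ := fun t => t)
      (β := fun t => t) contDiffAt_const contDiffAt_id contDiffAt_id ?_
    simp

end Pool.Agent.SC
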