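import Pool.Agent.Lib.MP_1e8d1a_an.SC.Defs2

/-! row MobC -/

open scoped ContDiff Manifold Topology

namespace Pool.Agent.SC

/-- The parameters: for `0 < s ≤ 1 / 2` and `0 < sin om < s`, `0 < om < π / 2`, put
`b = sqrt (s ^ 2 - sin om ^ 2)`, `lam = (s + b) / sin om`.

PROOF.  `b ^ 2 = s ^ 2 - sin² om > 0`; `cos² om + s² - b² = 1`; `(s - b) lam = (s² - b²) / sin om =
sin om`; `b < s ≤ 1/2 < cos om` because `cos² om = 1 - sin² om > 1 - 1/4`; `lam sin om = s + b ≥ s`. -/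
theorem params {s om : ℝ} (hs : 0 < s) (hs1 : s ≤ 1 / 2) (hom0 : 0 < om) (hom1 : om < Real.pi / 2)
    (hom : Real.sin om < s) :
    Real.cos om ^ 2 + s ^ 2 - (Real.sqrt (s ^ 2 - Real.sin om ^ 2)) ^ 2 = 1 ∧
    |Real.sqrt (s ^ 2 - Real.sin om ^ 2)| < Real.cos om ∧
    ∃ lam : ℝ, 0 < lam ∧ s + Real.sqrt (s ^ 2 - Real.sin om ^ 2) = lam * Real.sin om ∧
      (s - Real.sqrt (s ^ 2 - Real.sin om ^ 2)) * lam = Real.sin om ∧ s ≤ lam * Real.sin om := by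
  have hsin : 0 < Real.sin om := Real.sin_pos_of_pos_of_lt_pi hom0 (by linarith [Real.pi_pos])
  have hcos : 0 < Real.cos om := Real.cos_pos_of_mem_Ioo ⟨by linarith, hom1⟩
  have hsc : Real.sin om ^ 2 + Real.cos om ^ 2 = 1 := Real.sin_sq_add_cos_sq om
  have hpos : 0 ≤ s ^ 2 - Real.sin om ^ 2 := by nlinarith
  have hb2 : (Real.sqrt (s ^ 2 - Real.sin om ^ 2)) ^ 2 = s ^ 2 - Real.sin om ^ 2 :=
    Real.sq_sqrt hpos
  have hb0 : 0 ≤ Real.sqrt (s ^ 2 - Real.sin om ^ 2) := Real.sqrt_nonneg _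
  set b := Real.sqrt (s ^ 2 - Real.sin om ^ 2) with hb
  refine ⟨by rw [hb2]; linarith, ?_, (s + b) / Real.sin om, by positivity, ?_, ?_, ?_⟩
  · rw [abs_of_nonneg hb0]
    nlinarith
  · field_simp
  · rw [mul_div_assoc', div_eq_iff hsin.ne']
    nlinarith
  · rw [div_mul_cancel₀ _ hsin.ne']
    linarith

end Pool.Agent.SC
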