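import Pool.Agent.Lib.MP_1e8d1a_an.SC.BumpA
import Pool.Agent.Lib.MP_1e8d1a_an.SC.ClkB
import Pool.Agent.Lib.MP_1e8d1a_an.SC.ClkC
import Pool.Agent.Lib.MP_1e8d1a_an.SC.ClkD
import Pool.Agent.Lib.MP_1e8d1a_an.SC.MobC
import Pool.Agent.Lib.MP_1e8d1a_an.SC.PhiB

/-! row ClkE -/

open scoped ContDiff Manifold Topology

namespace Pool.Agent.SC

variable {E : Type} [NormedAddCommGroup E] [NormedSpace ℝ E] {H : Type} [TopologicalSpace H]
  {I : ModelWithCorners ℝ E H} {W : Type} [TopologicalSpace W] [ChartedSpace H W]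

/-- For fixed `s` the map `F ∘ clk 1 s s` can be closed at `p`.

PROOF.  Apply `closable_of_family` with `P = ℝ` and
`Φ (om, q) = F (clk (cos om) s (sqrt (s² - sin² om)) q)`; at `om = 0` this is `F (clk 1 s s q)`
(`sqrt (s²) = s`).  `J = U₀ ∩ {q | ‖(Θ q : ℂ) - 1‖ < s / k}`, a neighbourhood of `p`.  Let
`U ∈ 𝓝 p` and `ε > 0`.  By continuity of `(u, q) ↦ ψ u q` at `(0, p)` there are `u₀ > 0` and a
neighbourhood `U₁` of `p` with `ψ u q ∈ U ∩ U₀` for `|u| < u₀`, `q ∈ U₁`.  The set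
`U₂ = {q ∈ U₁ | |arg (Θ q)| / (2 π) < u₀}` is a neighbourhood of `p` (`arg` is continuous at `1`).
Choose `N ≥ 1` with `om = π k / n` satisfying `om < ε`, `om < π / 2`, `sin om < s` for all `n ≥ N`.
Take `n ≥ N`, `q₁ ∈ U₂` from `ClockReturns`, `z₁ = F^[n] (ψ k q₁) ∈ U₂`.  Put
`u = arg (Θ q₁) / (2 π)`, `q = ψ (-u) q₁`: then `Θ q = 1` (`Circle.exp (arg z) = z`), `q ∈ U ∩ U₀`,
and `F^[n] (ψ k q) = ψ (-u) z₁ ∈ U` (`F^[n]` commutes with `ψ`).  `t = om`, `b = sqrt (..)`, `lam`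
from `params`, `G` from `exists_clk_diffeo`.  By `iterate_clk`, `G^[n] q = F^[n] (ψ (Ph lam (n om) /
π) q) = F^[n] (ψ k q) ∈ U` since `n om = k π` (`Ph_nat_mul_pi`).  For `0 < i < n`: if `n ∤ i k` then
`Θ (G^[i] q) = pt lam (i om)` has distance `≥ s / k` from `1` (`pt_sep`), so `G^[i] q ∉ J`; if
`i k = l n` then `0 < l < k`, `i om = l π`, `G^[i] q = F^[i] (ψ l q) ∉ U₀` because `q ∈ U₀`. -/
theorem closable_parabolic [FiniteDimensional ℝ E] [T2Space W] [CompactSpace W]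
    [IsManifold I ∞ W] [I.Boundaryless] {r : ℕ∞} (F : W ≃ₘ^r⟮I, I⟯ W) (ψ : ℝ → W → W)
    (Θ : W → Circle) (hψ0 : ∀ q, ψ 0 q = q) (hψ : ∀ u v q, ψ (u + v) q = ψ u (ψ v q))
    (hψC : ContMDiff (𝓘(ℝ, ℝ).prod I) I r (fun z : ℝ × W => ψ z.1 z.2))
    (hΘ : ContMDiff I (𝓡 1) r Θ)
    (hΘψ : ∀ u q, Θ (ψ u q) = Circle.exp (2 * Real.pi * u) * Θ q)
    (hFψ : ∀ u q, F (ψ u q) = ψ u (F q)) (hΘF : ∀ q, Θ (F q) = Θ q)
    (p : W) (hp : Θ p = 1) (k : ℕ) (hk : ClockReturns F ψ p k)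
    (s : ℝ) (hs : 0 < s) (hs1 : s ≤ 1 / 2) (G₀ : W ≃ₘ^r⟮I, I⟯ W)
    (hG₀ : ∀ q, G₀ q = F (clk ψ Θ 1 s s q)) : Closable I G₀ p := by
  obtain ⟨hk0, U₀, hU₀, hret⟩ := hk
  have hkr : (0 : ℝ) < k := by exact_mod_cast hk0
  have hπ := Real.pi_pos
  have hcoe : Continuous fun z : Circle => (z : ℂ) := continuous_subtype_val
  refine closable_of_family (P := ℝ) (fun z : ℝ × W =>
      F (clk ψ Θ (Real.cos z.1) s (Real.sqrt (s ^ 2 - Real.sin z.1 ^ 2)) z.2))
    (fun q => (contMDiffAt_families F ψ Θ hψC hΘ q).1 s hs hs1) G₀ ?_ p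
    (U₀ ∩ {q | ‖((Θ q : Circle) : ℂ) - 1‖ < s / k}) ?_ ?_
  · intro q
    simp only [Real.cos_zero, Real.sin_zero]
    rw [hG₀, show s ^ 2 - (0 : ℝ) ^ 2 = s ^ 2 by ring, Real.sqrt_sq hs.le]
  · refine Filter.inter_mem hU₀ ?_
    have hc : Continuous fun q => ‖((Θ q : Circle) : ℂ) - 1‖ :=
      ((hcoe.comp hΘ.continuous).sub continuous_const).norm
    refine (isOpen_lt hc continuous_const).mem_nhds ?_
    show ‖((Θ p : Circle) : ℂ) - 1‖ < s / k
    rw [hp, Circle.coe_one, sub_self, norm_zero]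
    positivity
  intro U hU ε hε
  -- neighbourhoods
  have hψc : Continuous fun z : ℝ × W => ψ z.1 z.2 := hψC.continuous
  have hmem : (fun z : ℝ × W => ψ z.1 z.2) ⁻¹' (U ∩ U₀) ∈ 𝓝 ((0 : ℝ), p) := by
    apply hψc.continuousAt
    simp only [hψ0]
    exact Filter.inter_mem hU hU₀
  rw [nhds_prod_eq, Filter.mem_prod_iff] at hmem
  obtain ⟨T, hT, U₁, hU₁, hTU⟩ := hmem
  obtain ⟨u₀, hu₀, hball⟩ := Metric.mem_nhds_iff.1 hT
  have hin : ∀ u : ℝ, |u| < u₀ → ∀ q ∈ U₁, ψ u q ∈ U ∩ U₀ := by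
    intro u hu q hq
    have h1 : (u, q) ∈ T ×ˢ U₁ := ⟨hball (by simpa using hu), hq⟩
    exact hTU h1
  have harg : ContinuousAt (fun q => Complex.arg ((Θ q : Circle) : ℂ) / (2 * Real.pi)) p := by
    have h1 : ContinuousAt Complex.arg ((Θ p : Circle) : ℂ) := by
      apply Complex.continuousAt_arg
      rw [hp]
      simp
    have h2 : ContinuousAt (fun q => ((Θ q : Circle) : ℂ)) p :=
      (hcoe.comp hΘ.continuous).continuousAt
    exact (ContinuousAt.comp (f := fun q => ((Θ q : Circle) : ℂ)) h1 h2).div_const _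
  have hU₂ : U₁ ∩ {q | |Complex.arg ((Θ q : Circle) : ℂ) / (2 * Real.pi)| < u₀} ∈ 𝓝 p := by
    refine Filter.inter_mem hU₁ ?_
    have h1 : Filter.Tendsto (fun q => |Complex.arg ((Θ q : Circle) : ℂ) / (2 * Real.pi)|) (𝓝 p)
        (𝓝 0) := by
      have h3 : |Complex.arg ((Θ p : Circle) : ℂ) / (2 * Real.pi)| = 0 := by
        rw [hp]; simp
      have h2 : Filter.Tendsto (fun q => |Complex.arg ((Θ q : Circle) : ℂ) / (2 * Real.pi)|) (𝓝 p)
        (𝓝 |Complex.arg ((Θ p : Circle) : ℂ) / (2 * Real.pi)|) := harg.abs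
      rw [h3] at h2
      exact h2
    exact h1 (Iio_mem_nhds hu₀)
  -- the integer N
  have hμ : 0 < min ε (min (Real.pi / 2) s) := by positivity
  obtain ⟨N, hN⟩ := exists_nat_gt (Real.pi * k / min ε (min (Real.pi / 2) s))
  obtain ⟨n, hNn, hn0, ⟨q₁, hq₁, hz₁⟩, hno⟩ := hret _ hU₂ N
  have hnr : (0 : ℝ) < n := by exact_mod_cast hn0
  set om : ℝ := Real.pi * k / n with hom
  have hom0 : 0 < om := by positivity
  have homn : om * n = Real.pi * k := by rw [hom]; field_simp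
  have homμ : om < min ε (min (Real.pi / 2) s) := by
    have h1 : Real.pi * k / min ε (min (Real.pi / 2) s) < n :=
      lt_of_lt_of_le hN (by exact_mod_cast hNn)
    rw [div_lt_iff₀ hμ] at h1
    rw [hom, div_lt_iff₀ hnr]
    linarith
  have homε : om < ε := lt_of_lt_of_le homμ (min_le_left _ _)
  have homπ : om < Real.pi / 2 :=
    lt_of_lt_of_le homμ ((min_le_right _ _).trans (min_le_left _ _))
  have homs : om < s := lt_of_lt_of_le homμ ((min_le_right _ _).trans (min_le_right _ _))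
  have hsin : Real.sin om < s := (Real.sin_lt hom0).trans homs
  obtain ⟨hp1, hp2, lam, hlam, h1, h2, h3⟩ := params hs hs1 hom0 homπ hsin
  obtain ⟨G, hG⟩ := exists_clk_diffeo F ψ Θ hψ0 hψ hψC hΘ hΘψ hp1 hp2
  -- the point
  set u : ℝ := Complex.arg ((Θ q₁ : Circle) : ℂ) / (2 * Real.pi) with hu
  have hcomm : ∀ (v : ℝ) (m : ℕ) (q : W), (F : W → W)^[m] (ψ v q) = ψ v ((F : W → W)^[m] q) := by
    intro v m q
    have hc : Function.Commute (F : W → W) (ψ v) := fun q => hFψ v q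
    exact (hc.iterate_left m) q
  have hΘq : Θ (ψ (-u) q₁) = 1 := by
    have h4 : 2 * Real.pi * -u = - Complex.arg ((Θ q₁ : Circle) : ℂ) := by
      rw [hu]; field_simp
    rw [hΘψ, h4, Circle.exp_neg, Circle.exp_arg]
    simp
  have huabs : |-u| < u₀ := by rw [abs_neg]; exact hq₁.2
  have hqU : ψ (-u) q₁ ∈ U ∩ U₀ := hin _ huabs q₁ hq₁.1
  have hit := iterate_clk (F : W → W) ψ Θ hψ0 hψ hΘψ hFψ hΘF hlam hom0 homπ h1 h2 hp2
    (G : W → W) hG (ψ (-u) q₁) hΘq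
  refine ⟨om, by rw [Real.norm_eq_abs, abs_of_pos hom0]; exact homε, G, hG, ψ (-u) q₁, hqU.1, n,
    hn0, ?_, ?_⟩
  · rw [(hit n).1]
    have h5 : Ph lam (n * om) / Real.pi = (k : ℝ) := by
      rw [show (n : ℝ) * om = k * Real.pi by linarith, Ph_nat_mul_pi]
      field_simp
    rw [h5, ← hψ, add_comm, hψ, hcomm]
    exact (hin _ huabs _ hz₁.1).1
  · intro i hi0 hin' hJ
    have hir : (0 : ℝ) < i := by exact_mod_cast hi0
    by_cases hd : n ∣ i * k
    · obtain ⟨l, hl⟩ := hd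
      have hl0 : 0 < l := by
        rcases Nat.eq_zero_or_pos l with h | h
        · rw [h, mul_zero] at hl
          have : 0 < i * k := Nat.mul_pos hi0 hk0
          omega
        · exact h
      have hlk : l < k := by
        have h6 : n * l < n * k := by
          rw [← hl]
          exact Nat.mul_lt_mul_of_pos_right hin' hk0
        exact Nat.lt_of_mul_lt_mul_left h6
      have h7 : (i : ℝ) * om = l * Real.pi := by
        have h8 : (i : ℝ) * k = n * l := by exact_mod_cast hl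
        rw [hom]
        field_simp
        linarith
      have h9 := hno i l hi0 hin' hl0 hlk (by rw [hl, mul_comm]) (ψ (-u) q₁) hqU.2
      apply h9
      have h10 := (hit i).1
      rw [h7, Ph_nat_mul_pi, mul_div_cancel_right₀ _ hπ.ne'] at h10
      rw [← h10]
      exact hJ.1
    · have h11 := pt_sep (lam := lam) (s := s) (om := om) (k := k) (n := n) (j := i) hk0 hn0 homn
        homπ hs (by linarith) h3 hd
      have h12 : ‖((Θ ((G : W → W)^[i] (ψ (-u) q₁)) : Circle) : ℂ) - 1‖ < s / k := hJ.2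
      rw [(hit i).2] at h12
      linarith

end Pool.Agent.SC
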