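import Pool.Agent.Lib.MP_1e8d1a_an.SC.Defs

/-! Auxiliary definitions (complete, no row). -/

open scoped ContDiff Manifold Topology

namespace Pool.Agent.SC

variable {E : Type} [NormedAddCommGroup E] [NormedSpace ℝ E] {H : Type} [TopologicalSpace H]
  {I : ModelWithCorners ℝ E H} {W : Type} [TopologicalSpace W] [ChartedSpace H W]

/-- The continuous angle of the point `(cos t, lam * sin t)`. -/
noncomputable def Ph (lam t : ℝ) : ℝ :=
  t + Real.arctan ((lam - 1) * Real.sin t * Real.cos t / (Real.cos t ^ 2 + lam * Real.sin t ^ 2))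

/-- The point of the circle with angle `2 Ph lam t`. -/
noncomputable def pt (lam t : ℝ) : Circle := Circle.exp (2 * Ph lam t)

/-- displacement, in turns -/
noncomputable def tau (a s b : ℝ) (w : Circle) : ℝ :=
  (1 / Real.pi) * Real.arctan ((s + b * (w : ℂ).re) / (a + b * (w : ℂ).im))

/-- the circle map -/
noncomputable def mob (a s b : ℝ) (w : Circle) : Circle :=
  Circle.exp (2 * Real.pi * tau a s b w) * w

/-- Flow along `ψ` for the time `tau (Θ q)`. -/
noncomputable def clk (ψ : ℝ → W → W) (Θ : W → Circle) (a s b : ℝ) (q : W) : W :=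
  ψ (tau a s b (Θ q)) q

/-- `p` returns under `F^n ψ_k` for arbitrarily large `n`, and the intermediate pairs `(i, l)`
proportional to `(n, k)` do not return to a fixed neighbourhood `U₀` of `p`. -/
def ClockReturns (F : W → W) (ψ : ℝ → W → W) (p : W) (k : ℕ) : Prop :=
  0 < k ∧ ∃ U₀ ∈ 𝓝 p, ∀ U ∈ 𝓝 p, ∀ N : ℕ, ∃ n : ℕ, N ≤ n ∧ 0 < n ∧
    (∃ q ∈ U, F^[n] (ψ k q) ∈ U) ∧
    ∀ i l : ℕ, 0 < i → i < n → 0 < l → l < k → i * k = l * n → ∀ q ∈ U₀, F^[i] (ψ l q) ∉ U₀

/-- the linear map of the plane -/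
def lA (a b c d : ℤ) (x : ℝ × ℝ) : ℝ × ℝ := (a * x.1 + b * x.2, c * x.1 + d * x.2)

/-- the automorphism of the torus `Circle × Circle` -/
noncomputable def tA (a b c d : ℤ) (z : Circle × Circle) : Circle × Circle :=
  (z.1 ^ a * z.2 ^ b, z.1 ^ c * z.2 ^ d)

/-- the projection of the plane onto the torus -/
noncomputable def tp (x : ℝ × ℝ) : Circle × Circle := (Circle.exp x.1, Circle.exp x.2)

/-- the lattice -/
noncomputable def lat (m : ℤ × ℤ) : ℝ × ℝ := (2 * Real.pi * m.1, 2 * Real.pi * m.2)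

end Pool.Agent.SC
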