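import Pool.Agent.Lib.MP_1e8d1a_an.SC.Defs

/-! row Fam1 -/

open scoped ContDiff Manifold Topology

namespace Pool.Agent.SC

/-- `Fam1`: the partial derivatives are differentiable. -/
theorem Fam1_contDiffAt_partial {P E F : Type*} [NormedAddCommGroup P] [NormedSpace ℝ P]
    [NormedAddCommGroup E] [NormedSpace ℝ E] [NormedAddCommGroup F] [NormedSpace ℝ F]
    {Ψ : P × E → F} {t₀ : P} {y₀ : E} (j : ℕ) : ∀ {m : ℕ},
    ContDiffAt ℝ (m + j : ℕ) Ψ (t₀, y₀) →
    ContDiffAt ℝ m (fun z : P × E => iteratedFDeriv ℝ j (fun y => Ψ (z.1, y)) z.2) (t₀, y₀) := by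
  induction j with
  | zero =>
    intro m h
    have h1 : (fun z : P × E => iteratedFDeriv ℝ 0 (fun y => Ψ (z.1, y)) z.2) =
        (continuousMultilinearCurryFin0 ℝ E F).symm ∘ Ψ := by
      funext z
      rw [iteratedFDeriv_zero_eq_comp]
      rfl
    rw [h1]
    exact ((continuousMultilinearCurryFin0 ℝ E F).symm.contDiff.contDiffAt).comp _ (by simpa using h)
  | succ j ih =>
    intro m h
    have h2 : ContDiffAt ℝ (m + 1 : ℕ)
        (fun z : P × E => iteratedFDeriv ℝ j (fun y => Ψ (z.1, y)) z.2) (t₀, y₀) := by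
      apply ih
      have : m + 1 + j = m + (j + 1) := by ring
      rw [this]
      exact h
    have h3 : ContDiffAt ℝ (m + 1 : ℕ)
        (Function.uncurry (fun (x : P × E) (y : E) => iteratedFDeriv ℝ j (fun y => Ψ (x.1, y)) y))
        ((t₀, y₀), (fun x : P × E => x.2) (t₀, y₀)) := by
      have h4 : (Function.uncurry (fun (x : P × E) (y : E) =>
          iteratedFDeriv ℝ j (fun y => Ψ (x.1, y)) y)) =
          (fun z : P × E => iteratedFDeriv ℝ j (fun y => Ψ (z.1, y)) z.2) ∘
            (fun w : (P × E) × E => (w.1.1, w.2)) := by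
        funext w
        rfl
      rw [h4]
      exact ContDiffAt.comp _ (by exact h2) (by fun_prop)
    have h5 := ContDiffAt.fderiv (m := m) h3 (contDiffAt_snd) (by norm_cast)
    have h6 : (fun z : P × E => iteratedFDeriv ℝ (j + 1) (fun y => Ψ (z.1, y)) z.2) =
        (continuousMultilinearCurryLeftEquiv ℝ (fun _ : Fin (j + 1) => E) F).symm ∘
          (fun x : P × E => fderiv ℝ ((fun (x : P × E) (y : E) =>
            iteratedFDeriv ℝ j (fun y => Ψ (x.1, y)) y) x) x.2) := by
      funext z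
      rw [iteratedFDeriv_succ_eq_comp_left]
      rfl
    rw [h6]
    exact ((continuousMultilinearCurryLeftEquiv ℝ (fun _ : Fin (j + 1) => E) F).symm.contDiff.contDiffAt).comp
      _ h5

/-- If `Ψ : P × E → F` is `C^k` at `(t₀, y₀)` and `j ≤ k` then the `j`-th derivative in the second
variable, `(t, y) ↦ D^j_y Ψ(t, ·)(y)`, is continuous at `(t₀, y₀)`.

PROOF.  `ContDiffAt ℝ k Ψ (t₀, y₀)` with `k` finite gives an open neighbourhood `O` of `(t₀, y₀)`
with `ContDiffOn ℝ k Ψ O` (`ContDiffAt.contDiffOn` / `contDiffAt_iff...`), so `ContDiffAt ℝ k Ψ z`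
for all `z ∈ O`.  For `z = (t, y) ∈ O`: `fun y' => Ψ (t, y')` is `Ψ ∘ (fun y' => (t, 0) + inr y')`,
where `inr : E →L[ℝ] P × E`.  Hence `iteratedFDeriv ℝ j (fun y' => Ψ (t, y')) y =
(iteratedFDeriv ℝ j Ψ (t, y)).compContinuousLinearMap (fun _ => inr)`: use
`iteratedFDeriv_comp_add_left` and the local (within an open set) version
`ContinuousLinearMap.iteratedFDerivWithin_comp_right` on the open set `O` and its preimage, or the
following induction-free argument: `HasFTaylorSeriesUpToOn.comp...`/`iteratedFDerivWithin` on open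
sets equals `iteratedFDeriv` (`iteratedFDerivWithin_of_isOpen`).  The map
`z ↦ iteratedFDeriv ℝ j Ψ z` is continuous at `(t₀, y₀)` (`ContDiffAt.continuousAt_iteratedFDeriv`
or `ContDiffOn.continuousOn_iteratedFDerivWithin` on `O`), and `m ↦ m.compContinuousLinearMap g` is
continuous (`ContinuousMultilinearMap.compContinuousLinearMapL`). -/
theorem continuousAt_partial {P E F : Type*} [NormedAddCommGroup P] [NormedSpace ℝ P]
    [NormedAddCommGroup E] [NormedSpace ℝ E] [NormedAddCommGroup F] [NormedSpace ℝ F]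
    {Ψ : P × E → F} {t₀ : P} {y₀ : E} {k : ℕ} (h : ContDiffAt ℝ k Ψ (t₀, y₀)) {j : ℕ}
    (hj : j ≤ k) :
    ContinuousAt (fun z : P × E => iteratedFDeriv ℝ j (fun y => Ψ (z.1, y)) z.2) (t₀, y₀) := by
  obtain ⟨m, rfl⟩ : ∃ m, k = m + j := ⟨k - j, by omega⟩
  exact (Fam1_contDiffAt_partial j h).continuousAt

end Pool.Agent.SC
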