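import Pool.Agent.Lib.MP_1e8d1a_an.SC.Defs2

/-! row HypA -/

open scoped ContDiff Manifold Topology

namespace Pool.Agent.SC

theorem HypA_roots (t : ℤ) (ht : 2 < |t|) : ∃ lam mu : ℝ, 1 < |lam| ∧ |mu| < 1 ∧
    lam * mu = 1 ∧ lam + mu = t ∧ Irrational lam ∧ Irrational mu := by
  have ht2 : 9 ≤ t ^ 2 := by
    have h : 3 ≤ |t| := ht
    rw [← sq_abs]
    nlinarith
  have hnsq : ¬ IsSquare (t ^ 2 - 4) := by
    rintro ⟨k, hk⟩
    have hk2 : |k| ^ 2 = |t| ^ 2 - 4 := by rw [sq_abs, sq_abs]; linarith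
    have h3 : 3 ≤ |t| := ht
    have hlt : |k| < |t| := by
      by_contra hcon
      push Not at hcon
      nlinarith [abs_nonneg k, abs_nonneg t]
    have hle : |k| ≤ |t| - 1 := by omega
    nlinarith [abs_nonneg k, abs_nonneg t]
  have hD : (0 : ℤ) ≤ t ^ 2 - 4 := by linarith
  have hirr : Irrational (Real.sqrt ((t ^ 2 - 4 : ℤ) : ℝ)) :=
    (irrational_sqrt_intCast_iff_of_nonneg hD).2 hnsq
  set r := Real.sqrt ((t ^ 2 - 4 : ℤ) : ℝ) with hr
  have hr2 : r ^ 2 = (t : ℝ) ^ 2 - 4 := by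
    rw [hr, Real.sq_sqrt (by exact_mod_cast hD)]
    push_cast
    ring
  have hr0 : 0 ≤ r := Real.sqrt_nonneg _
  have hirr1 : Irrational ((t + r) / 2) := by
    have := (hirr.intCast_add t).div_natCast (m := 2) (by norm_num)
    simpa using this
  have hirr2 : Irrational ((t - r) / 2) := by
    have := (hirr.intCast_sub t).div_natCast (m := 2) (by norm_num)
    simpa using this
  have hprod : (t + r) / 2 * ((t - r) / 2) = 1 := by nlinarith
  have key : ∀ lam mu : ℝ, lam * mu = 1 → 1 < |lam| → |mu| < 1 := by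
    intro lam mu h1 h2
    have h3 : |lam| * |mu| = 1 := by rw [← abs_mul, h1, abs_one]
    by_contra hcon
    push Not at hcon
    nlinarith [abs_nonneg mu]
  rcases lt_or_ge 0 t with h | h
  · have h3 : (3 : ℝ) ≤ t := by
      have : 3 ≤ t := by
        rw [abs_of_pos h] at ht
        omega
      exact_mod_cast this
    have h4 : 1 < |((t : ℝ) + r) / 2| := by
      rw [abs_of_pos (by linarith)]
      linarith
    exact ⟨(t + r) / 2, (t - r) / 2, h4, key _ _ hprod h4, hprod, by ring, hirr1, hirr2⟩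
  · have h3 : (t : ℝ) ≤ -3 := by
      have : t ≤ -3 := by
        rw [abs_of_nonpos h] at ht
        omega
      exact_mod_cast this
    have h4 : 1 < |((t : ℝ) - r) / 2| := by
      rw [abs_of_neg (by linarith)]
      linarith
    have hprod' : ((t : ℝ) - r) / 2 * ((t + r) / 2) = 1 := by rw [mul_comm]; exact hprod
    exact ⟨(t - r) / 2, (t + r) / 2, h4, key _ _ hprod' h4, hprod', by ring, hirr2, hirr1⟩

/-- Eigenspaces.  `Pu`, `Ps` are the projections, written in coordinates.

PROOF.  Let `t = a + d`, `|t| ≥ 3`, `lam = (t + sign t * sqrt (t ^ 2 - 4)) / 2`,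
`mu = t - lam`; then `lam * mu = 1`, `|lam| > 1` (the product of the two roots is `1` and
`|lam| ≥ |t| / 2 > 1`), `|mu| = 1 / |lam| < 1`, `lam` and `mu` irrational because `t ^ 2 - 4` is
not a square of a rational (`(|t| - 1) ^ 2 < t ^ 2 - 4 < t ^ 2` as `|t| ≥ 3`;
`irrational_sqrt_...` / `Nat.Prime`-free: `irrational_nrt_of_notint_nrt` or
`Int.not_isSquare`-type lemma), `lam ≠ mu`.  `b ≠ 0` (otherwise `a d = 1`, `|a + d| = 2`).
`Pu x = (lam - mu)⁻¹ • (A x - mu x)`, `Ps x = (lam - mu)⁻¹ • (lam x - A x)`, explicit: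
`Pu x = xi x • (b, lam - a)`, `Ps x = eta x • (b, mu - a)` with
`xi x = ((a - mu) x₁ + b x₂) / (b (lam - mu))`, `eta x = ((lam - a) x₁ - b x₂) / (b (lam - mu))`.
Check: first coordinates `b (xi + eta) = x₁`; second coordinates
`(lam - a) xi + (mu - a) eta = x₂` (use `(lam - a) (a - mu) = b c`, from `lam + mu = a + d`,
`lam mu = a d - b c`).  `A (b, lam - a) = lam (b, lam - a)`: `a b + b (lam - a) = lam b` and
`c b + d (lam - a) = lam (lam - a)`. -/
theorem hyp_split (a b c d : ℤ) (hdet : a * d - b * c = 1) (htr : 2 < |a + d|) :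
    ∃ (lam mu : ℝ) (xi eta : ℝ × ℝ → ℝ) (eu es : ℝ × ℝ) (p q : ℝ),
      1 < |lam| ∧ |mu| < 1 ∧ lam * mu = 1 ∧
      (∀ x, xi x • eu + eta x • es = x) ∧ lA a b c d eu = lam • eu ∧ lA a b c d es = mu • es ∧
      (p ≠ 0 ∧ q ≠ 0 ∧ Irrational (p / q) ∧ ∀ x, xi x = p * x.1 + q * x.2) ∧
      ∃ p' q' : ℝ, p' ≠ 0 ∧ q' ≠ 0 ∧ Irrational (p' / q') ∧ ∀ x, eta x = p' * x.1 + q' * x.2 := by
  obtain ⟨lam, mu, hlam, hmu, hprod, hsum, hil, him⟩ := HypA_roots (a + d) htr
  push_cast at hsum
  have hb : b ≠ 0 := by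
    rintro rfl
    have had : a * d = 1 := by linarith
    rcases Int.eq_one_or_neg_one_of_mul_eq_one had with h | h
    · have hd : d = 1 := by rw [h] at had; linarith
      rw [h, hd] at htr
      norm_num at htr
    · have hd : d = -1 := by rw [h] at had; linarith
      rw [h, hd] at htr
      norm_num at htr
  have hbR : (b : ℝ) ≠ 0 := by exact_mod_cast hb
  have hne : lam - mu ≠ 0 := by
    intro h
    have h1 : lam = mu := by linarith
    rw [h1] at hlam
    linarith
  have hdetR : (a : ℝ) * d - b * c = 1 := by exact_mod_cast hdet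
  have hsq : lam * lam = (a + d) * lam - 1 := by
    have : mu = (a + d) - lam := by linarith
    rw [this] at hprod
    linarith
  have hsq' : mu * mu = (a + d) * mu - 1 := by
    have : lam = (a + d) - mu := by linarith
    rw [this] at hprod
    linarith
  have hamu : (a : ℝ) - mu ≠ 0 := (him.intCast_sub a).ne_zero
  have halam : (a : ℝ) - lam ≠ 0 := (hil.intCast_sub a).ne_zero
  refine ⟨lam, mu, fun x => ((a - mu) / (b * (lam - mu))) * x.1 + (1 / (lam - mu)) * x.2,
    fun x => (-(a - lam) / (b * (lam - mu))) * x.1 + (-1 / (lam - mu)) * x.2,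
    (b, lam - a), (b, mu - a), (a - mu) / (b * (lam - mu)), 1 / (lam - mu),
    hlam, hmu, hprod, ?_, ?_, ?_, ⟨?_, ?_, ?_, fun x => rfl⟩,
    -(a - lam) / (b * (lam - mu)), -1 / (lam - mu), ?_, ?_, ?_, fun x => rfl⟩
  · rintro ⟨x₁, x₂⟩
    simp only [Prod.smul_mk, smul_eq_mul, Prod.mk_add_mk, Prod.mk.injEq]
    constructor
    · field_simp
      ring
    · field_simp
      ring
  · simp only [lA, Prod.smul_mk, smul_eq_mul, Prod.mk.injEq]
    constructor
    · ring
    · linarith
  · simp only [lA, Prod.smul_mk, smul_eq_mul, Prod.mk.injEq]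
    constructor
    · ring
    · linarith
  · exact div_ne_zero hamu (mul_ne_zero hbR hne)
  · exact one_div_ne_zero hne
  · have h1 : ((a : ℝ) - mu) / (b * (lam - mu)) / (1 / (lam - mu)) = (a - mu) / b := by
      field_simp
    rw [h1]
    exact (him.intCast_sub a).div_intCast hb
  · exact div_ne_zero (neg_ne_zero.2 halam) (mul_ne_zero hbR hne)
  · exact div_ne_zero (by norm_num) hne
  · have h1 : -((a : ℝ) - lam) / (b * (lam - mu)) / (-1 / (lam - mu)) = (a - lam) / b := by
      field_simp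
    rw [h1]
    exact (hil.intCast_sub a).div_intCast hb

end Pool.Agent.SC
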