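import Pool.Agent.Lib.MP_1e8d1a_an.SC.Defs2

/-! row HypB -/

open scoped ContDiff Manifold Topology

namespace Pool.Agent.SC

/-- A linear form with irrational slope has dense values on `(2 π ℤ) ^ 2`.

PROOF.  `dense_addSubgroupClosure_pair_iff` for `2 π p`, `2 π q` (quotient `p / q` irrational);
elements of `AddSubgroup.closure {2 π p, 2 π q}` are `m (2 π p) + n (2 π q)`
(`AddSubgroup.mem_closure_pair`). -/
theorem dense_form {p q : ℝ} (h : Irrational (p / q)) (x ε : ℝ) (hε : 0 < ε) :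
    ∃ m n : ℤ, |p * (2 * Real.pi * m) + q * (2 * Real.pi * n) - x| < ε := by
  have hpi : 2 * Real.pi ≠ 0 := by positivity
  have h1 : Irrational ((2 * Real.pi * p) / (2 * Real.pi * q)) := by
    rw [mul_div_mul_left _ _ hpi]
    exact h
  have h2 := dense_addSubgroupClosure_pair_iff.mpr h1
  obtain ⟨y, hy, hd⟩ := Metric.dense_iff.mp h2 x ε hε
  rw [Metric.mem_ball, Real.dist_eq] at hy
  obtain ⟨m, n, hmn⟩ := AddSubgroup.mem_closure_pair.mp hd
  refine ⟨m, n, ?_⟩
  have h3 : p * (2 * Real.pi * m) + q * (2 * Real.pi * n) = y := by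
    rw [← hmn]
    simp only [zsmul_eq_mul]
    ring
  rw [h3]
  exact hy

end Pool.Agent.SC
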