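import Pool.Agent.Lib.MP_1e8d1a_an.SC.Defs2

/-! row HypC -/

open scoped ContDiff Manifold Topology

namespace Pool.Agent.SC

theorem HypC_exp_zsmul (n : ℤ) (x : ℝ) : Circle.exp ((n : ℝ) * x) = Circle.exp x ^ n := by
  have := (map_zsmul Circle.expHom n x)
  apply Circle.ext
  have h1 : ((Circle.exp x ^ n : Circle) : ℂ) = ((Circle.exp x : Circle) : ℂ) ^ n := by
    exact Circle.coe_zpow _ _
  rw [h1, Circle.coe_exp, Circle.coe_exp, ← Complex.exp_int_mul]
  congr 1
  push_cast
  ring

theorem HypC_exp_int (m : ℤ) : Circle.exp (2 * Real.pi * (m : ℝ)) = 1 := by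
  have h : Circle.exp (2 * Real.pi) = 1 := Circle.exp_two_pi
  rw [mul_comm, HypC_exp_zsmul, h, one_zpow]

theorem HypC_tA_tp (a b c d : ℤ) (x : ℝ × ℝ) : tA a b c d (tp x) = tp (lA a b c d x) := by
  unfold tA tp lA
  simp only [Circle.exp_add, HypC_exp_zsmul]

/-- basic facts.

PROOF.  `Circle.exp (a x + b y) = exp x ^ a * exp y ^ b` (`Circle.exp_add`, `Circle.exp_zsmul`-type
lemmas); `exp (x + 2 π m) = exp x`; `A` maps the lattice to itself; induction for the iterates. -/
theorem tA_tp (a b c d : ℤ) :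
    (∀ x, tA a b c d (tp x) = tp (lA a b c d x)) ∧
    (∀ (n : ℕ) x, (tA a b c d)^[n] (tp x) = tp ((lA a b c d)^[n] x)) ∧
    (∀ x m, tp (x + lat m) = tp x) ∧ Continuous tp ∧ Continuous (tA a b c d) ∧
    (∀ x, tp x = 1 ↔ ∃ m, x = lat m) ∧ (∀ z, ∃ x, tp x = z) ∧ tA a b c d 1 = 1 := by
  refine ⟨HypC_tA_tp a b c d, ?_, ?_, ?_, ?_, ?_, ?_, ?_⟩
  · intro n
    induction n with
    | zero => intro x; rfl
    | succ n ih =>
      intro x
      rw [Function.iterate_succ_apply, Function.iterate_succ_apply, HypC_tA_tp, ih]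
  · intro x m
    unfold tp lat
    simp only [Prod.fst_add, Prod.snd_add, Circle.exp_add, HypC_exp_int, mul_one]
  · unfold tp
    exact (Circle.exp.continuous.comp continuous_fst).prodMk
      (Circle.exp.continuous.comp continuous_snd)
  · unfold tA
    exact ((continuous_fst.zpow a).mul (continuous_snd.zpow b)).prodMk
      ((continuous_fst.zpow c).mul (continuous_snd.zpow d))
  · intro x
    constructor
    · intro h
      unfold tp at h
      have h1 : Circle.exp x.1 = 1 := congrArg Prod.fst h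
      have h2 : Circle.exp x.2 = 1 := congrArg Prod.snd h
      have key : ∀ y : ℝ, Circle.exp y = 1 → ∃ m : ℤ, y = 2 * Real.pi * m := by
        intro y hy
        have : ((Circle.exp y : Circle) : ℂ) = 1 := by rw [hy]; rfl
        rw [Circle.coe_exp, Complex.exp_eq_one_iff] at this
        obtain ⟨n, hn⟩ := this
        refine ⟨n, ?_⟩
        have h3 : (y : ℂ) = 2 * Real.pi * n := by
          have hI : Complex.I ≠ 0 := Complex.I_ne_zero
          apply mul_right_cancel₀ hI
          rw [hn]; ring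
        exact_mod_cast h3
      obtain ⟨m, hm⟩ := key _ h1
      obtain ⟨k, hk⟩ := key _ h2
      exact ⟨(m, k), Prod.ext hm hk⟩
    · rintro ⟨m, rfl⟩
      unfold tp lat
      simp only [HypC_exp_int]
      rfl
  · intro z
    have hs : ∀ w : Circle, ∃ t : ℝ, Circle.exp t = w := by
      intro w
      exact ⟨Complex.arg w, Circle.exp_arg w⟩
    obtain ⟨s, hs1⟩ := hs z.1
    obtain ⟨t, ht1⟩ := hs z.2
    exact ⟨(s, t), Prod.ext hs1 ht1⟩
  · unfold tA
    simp

end Pool.Agent.SC
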