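import Pool.Agent.Lib.MP_1e8d1a_an.SC.HypC

/-! row HypD -/

open scoped ContDiff Manifold Topology

namespace Pool.Agent.SC

theorem HypD_add (a b c d : ℤ) (x y : ℝ × ℝ) :
    lA a b c d (x + y) = lA a b c d x + lA a b c d y := by
  ext <;> simp [lA] <;> ring

theorem HypD_smul (a b c d : ℤ) (r : ℝ) (x : ℝ × ℝ) :
    lA a b c d (r • x) = r • lA a b c d x := by
  ext <;> simp [lA] <;> ring

theorem HypD_iter (a b c d : ℤ) {lam mu : ℝ} {eu es : ℝ × ℝ} (hu : lA a b c d eu = lam • eu)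
    (hs : lA a b c d es = mu • es) (i : ℕ) (x y : ℝ) :
    (lA a b c d)^[i] (x • eu + y • es) = (x * lam ^ i) • eu + (y * mu ^ i) • es := by
  induction i with
  | zero => simp
  | succ i ih =>
    rw [Function.iterate_succ_apply', ih, HypD_add, HypD_smul, HypD_smul, hu, hs, smul_smul,
      smul_smul, pow_succ, pow_succ, mul_assoc, mul_assoc]

/-- the auxiliary points -/
noncomputable def HypD_G (u v : ℝ) (eu es : ℝ × ℝ) (w : ℝ × ℝ × ℝ) : Circle × Circle :=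
  tp ((w.1 * u * w.2.1) • eu + (-(w.1 * v * w.2.2)) • es)

theorem HypD_G_cont (u v : ℝ) (eu es : ℝ × ℝ) : Continuous (HypD_G u v eu es) := by
  have h := (tA_tp 1 0 0 1).2.2.2.1
  unfold HypD_G
  apply h.comp
  fun_prop

theorem HypD_G_iter (a b c d : ℤ) {lam mu : ℝ} {eu es : ℝ × ℝ} (hu : lA a b c d eu = lam • eu)
    (hs : lA a b c d es = mu • es) (u v : ℝ) (i : ℕ) (ρ α β : ℝ) :
    (tA a b c d)^[i] (HypD_G u v eu es (ρ, α, β)) =
      HypD_G u v eu es (ρ, α * lam ^ i, β * mu ^ i) := by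
  unfold HypD_G
  rw [(tA_tp a b c d).2.1, HypD_iter a b c d hu hs]
  simp only
  congr 3 <;> ring

/-- separation of a convergent sequence from another point -/
theorem HypD_sep_one {Z : Type} [TopologicalSpace Z] [T2Space Z] {x : ℕ → Z} {p q : Z}
    (h : Filter.Tendsto x Filter.atTop (𝓝 p)) (hne : p ≠ q) :
    ∃ J ∈ 𝓝 q, ∃ N₀ : ℕ, ∀ N ≥ N₀, x N ∉ J := by
  obtain ⟨U, V, hU, hV, hpU, hqV, hd⟩ := t2_separation hne
  have h1 : ∀ᶠ N in Filter.atTop, x N ∈ U := h (hU.mem_nhds hpU)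
  obtain ⟨N₀, hN₀⟩ := Filter.eventually_atTop.1 h1
  refine ⟨V, hV.mem_nhds hqV, N₀, fun N hN hx => ?_⟩
  exact Set.disjoint_left.1 hd (hN₀ N hN) hx

theorem HypD_sep_fin {Z : Type} [TopologicalSpace Z] {x : ℕ → ℕ → Z} {q : Z} (L : ℕ)
    (h : ∀ l, 0 < l → ∃ J ∈ 𝓝 q, ∃ N₀ : ℕ, ∀ N ≥ N₀, x l N ∉ J) :
    ∃ J ∈ 𝓝 q, ∃ N₀ : ℕ, ∀ N ≥ N₀, ∀ l, 0 < l → l < L → x l N ∉ J := by
  induction L with
  | zero => exact ⟨Set.univ, Filter.univ_mem, 0, fun N _ l _ hl => absurd hl (Nat.not_lt_zero l)⟩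
  | succ L ih =>
    obtain ⟨J, hJ, N₀, hN⟩ := ih
    rcases Nat.eq_zero_or_pos L with h0 | h0
    · subst h0
      exact ⟨J, hJ, N₀, fun N _ l hl1 hl2 => by omega⟩
    · obtain ⟨J', hJ', N₁, hN'⟩ := h L h0
      refine ⟨J ∩ J', Filter.inter_mem hJ hJ', max N₀ N₁, fun N hN1 l hl1 hl2 hx => ?_⟩
      rcases Nat.lt_succ_iff_lt_or_eq.1 hl2 with h2 | h2
      · exact hN N (le_trans (le_max_left _ _) hN1) l hl1 h2 hx.1
      · subst h2
        exact hN' N (le_trans (le_max_right _ _) hN1) hx.2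

theorem HypD_pow_lim {mu : ℝ} (hmu : |mu| < 1) :
    Filter.Tendsto (fun N : ℕ => mu ^ N) Filter.atTop (𝓝 0) :=
  tendsto_pow_atTop_nhds_zero_of_abs_lt_one hmu

theorem HypD_rho_lim {mu : ℝ} (hmu : |mu| < 1) :
    Filter.Tendsto (fun N : ℕ => (1 - mu ^ N)⁻¹) Filter.atTop (𝓝 1) := by
  have h := (tendsto_const_nhds (x := (1 : ℝ))).sub (HypD_pow_lim hmu)
  have h2 := h.inv₀ (by norm_num)
  simpa using h2

theorem HypD_pow_sub_lim {mu : ℝ} (hmu : |mu| < 1) (l : ℕ) :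
    Filter.Tendsto (fun N : ℕ => mu ^ (N - l)) Filter.atTop (𝓝 0) :=
  (HypD_pow_lim hmu).comp (Filter.tendsto_sub_atTop_nat l)

/-- The periodic points near a homoclinic point.

Data: eigenvalues and eigenvectors as in `hyp_split`; `n = u • eu + v • es` a lattice vector;
`q = tp (- (v • es)) = tp (u • eu)`, `q ≠ 1`.  There is a neighbourhood `J` of `q` such that every
neighbourhood `Y` of `q` contains for all large `N` a point `y` with `A^N y = y`,
`A^i y ∉ J` for `0 < i < N`.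

PROOF.  `Y_N = (u / (lam ^ N - 1)) • eu + (v / (mu ^ N - 1)) • es` (for `N ≥ 1`,
`|lam| ^ N > 1 > |mu| ^ N`).  `A^i Y_N = (u lam ^ i / (lam ^ N - 1)) • eu +
(v mu ^ i / (mu ^ N - 1)) • es`.  `A^N Y_N - Y_N = u • eu + v • es = n`, a lattice vector, so
`A^N (tp Y_N) = tp Y_N`.  `Y_N → - v • es`, so `tp Y_N → q`.
`q` is not periodic: if `A^i q = q`, `i > 0`, then `q = A^(i j) q = tp (- v mu ^ (i j) • es) →
tp 0 = 1`, so `q = 1`, contradiction.
Separation: choose disjoint open neighbourhoods `J₁` of `q` and `O₁` of `1` (T2), and `κ > 0` with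
`tp x ∈ O₁` for `‖x‖ < κ`.  There is `L` such that for `N ≥ 2 L`, `L ≤ i ≤ N - L`:
`‖A^i Y_N‖ < κ` (it is at most `2 |u| ‖eu‖ |lam| ^ (i - N) + 2 |v| ‖es‖ |mu| ^ i` for `N` large).
For each `0 < i < L`: `tp (A^i Y_N) → A^i q ≠ q` as `N → ∞`; for each `0 < l < L`:
`A^(N-l) Y_N = (u lam ^ (-l) lam ^ N / (lam ^ N - 1)) • eu + (v mu ^ (N - l) / (mu ^ N - 1)) • es →
u lam ^ (-l) • eu`, and `tp` of it converges to `z_l = tp ((u * mu ^ l) • eu)` with `A^l z_l = q`;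
`z_l ≠ q` because otherwise `A^l q = q`.  So there are open `J₂ ∋ q` and `N₁` such that for
`N ≥ N₁` none of these finitely many points is in `J₂`.  `J = J₁ ∩ J₂`. -/
theorem hyp_separation (a b c d : ℤ) {lam mu : ℝ} {eu es : ℝ × ℝ} (hlam : 1 < |lam|)
    (hmu : |mu| < 1) (hlm : lam * mu = 1) (hu : lA a b c d eu = lam • eu)
    (hs : lA a b c d es = mu • es) (u v : ℝ) (m : ℤ × ℤ) (hm : u • eu + v • es = lat m)
    (q : Circle × Circle) (hq : q = tp (u • eu)) (hq1 : q ≠ 1) :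
    ∃ J ∈ 𝓝 q, ∀ Y ∈ 𝓝 q, ∃ N₀ : ℕ, ∀ N ≥ N₀, ∃ y ∈ Y, (tA a b c d)^[N] y = y ∧
      ∀ i, 0 < i → i < N → (tA a b c d)^[i] y ∉ J := by
  set G := HypD_G u v eu es with hG
  have hGc : Continuous G := HypD_G_cont u v eu es
  have hGi : ∀ (i : ℕ) (ρ α β : ℝ), (tA a b c d)^[i] (G (ρ, α, β)) =
      G (ρ, α * lam ^ i, β * mu ^ i) := fun i ρ α β => HypD_G_iter a b c d hu hs u v i ρ α β
  have hlmi : ∀ i : ℕ, mu ^ i * lam ^ i = 1 := by
    intro i
    rw [← mul_pow, mul_comm, hlm, one_pow]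
  -- the point q
  have hq2 : q = G (1, 1, 0) := by
    rw [hq, hG, HypD_G]
    simp
  have hq3 : q = G (1, 0, 1) := by
    rw [hq, hG, HypD_G]
    have h1 : u • eu = (-v) • es + lat m := by
      rw [← hm, neg_smul]
      abel
    rw [h1, (tA_tp a b c d).2.2.1]
    simp
  have hG0 : G (1, 0, 0) = 1 := by
    rw [hG, HypD_G, (tA_tp a b c d).2.2.2.2.2.1]
    exact ⟨0, by ext <;> simp [lat]⟩
  have hTq : ∀ i : ℕ, (tA a b c d)^[i] q = G (1, 0, mu ^ i) := by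
    intro i
    rw [hq3, hGi]
    simp
  -- q is not periodic
  have hper : ∀ i : ℕ, 0 < i → (tA a b c d)^[i] q ≠ q := by
    intro i hi h
    have h1 : ∀ j : ℕ, G (1, 0, mu ^ (i * j)) = q := by
      intro j
      rw [← hTq, Function.iterate_mul]
      exact Function.iterate_fixed h j
    have h2 : Filter.Tendsto (fun j : ℕ => G (1, 0, mu ^ (i * j))) Filter.atTop
        (𝓝 (G (1, 0, 0))) := by
      apply (hGc.tendsto _).comp
      have h3 : Filter.Tendsto (fun j : ℕ => mu ^ (i * j)) Filter.atTop (𝓝 0) := by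
        apply (HypD_pow_lim hmu).comp
        exact Filter.tendsto_id.const_mul_atTop' hi
      exact tendsto_const_nhds.prodMk_nhds (tendsto_const_nhds.prodMk_nhds h3)
    have h4 : Filter.Tendsto (fun j : ℕ => G (1, 0, mu ^ (i * j))) Filter.atTop (𝓝 q) := by
      simp only [h1]
      exact tendsto_const_nhds
    have h5 := tendsto_nhds_unique h2 h4
    rw [hG0] at h5
    exact hq1 h5.symm
  -- the first family
  have hA : ∀ l, 0 < l → ∃ J ∈ 𝓝 q, ∃ N₀ : ℕ, ∀ N ≥ N₀,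
      G ((1 - mu ^ N)⁻¹, mu ^ (N - l), mu ^ l) ∉ J := by
    intro l hl
    apply HypD_sep_one (p := G (1, 0, mu ^ l))
    · apply (hGc.tendsto _).comp
      exact (HypD_rho_lim hmu).prodMk_nhds
        ((HypD_pow_sub_lim hmu l).prodMk_nhds tendsto_const_nhds)
    · rw [← hTq]
      exact hper l hl
  have hB : ∀ l, 0 < l → ∃ J ∈ 𝓝 q, ∃ N₀ : ℕ, ∀ N ≥ N₀,
      G ((1 - mu ^ N)⁻¹, mu ^ l, mu ^ (N - l)) ∉ J := by
    intro l hl
    apply HypD_sep_one (p := G (1, mu ^ l, 0))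
    · apply (hGc.tendsto _).comp
      exact (HypD_rho_lim hmu).prodMk_nhds
        (tendsto_const_nhds.prodMk_nhds (HypD_pow_sub_lim hmu l))
    · intro h
      have h1 : (tA a b c d)^[l] (G (1, mu ^ l, 0)) = q := by
        rw [hGi, hlmi, hq2]
        simp
      rw [h] at h1
      exact hper l hl h1
  -- the middle part
  obtain ⟨U, V, hU, hV, h1U, hqV, hUV⟩ := t2_separation (Ne.symm hq1)
  have hC : ∀ᶠ w in 𝓝 ((1 : ℝ), (0 : ℝ), (0 : ℝ)), G w ∈ U := by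
    apply hGc.continuousAt
    rw [hG0]
    exact hU.mem_nhds h1U
  obtain ⟨δ, hδ, hC'⟩ := Metric.eventually_nhds_iff.1 hC
  have hL1 : ∀ᶠ n : ℕ in Filter.atTop, |mu| ^ n < δ := by
    have h1 := tendsto_pow_atTop_nhds_zero_of_lt_one (abs_nonneg mu) hmu
    exact h1.eventually (gt_mem_nhds hδ)
  obtain ⟨L, hL⟩ := Filter.eventually_atTop.1 hL1
  have hR1 : ∀ᶠ n : ℕ in Filter.atTop, dist ((1 - mu ^ n)⁻¹) 1 < δ :=
    Metric.tendsto_nhds.1 (HypD_rho_lim hmu) δ hδ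
  obtain ⟨R, hR⟩ := Filter.eventually_atTop.1 hR1
  obtain ⟨J₁, hJ₁, N₁, hN₁⟩ := HypD_sep_fin L hA
  obtain ⟨J₂, hJ₂, N₂, hN₂⟩ := HypD_sep_fin L hB
  -- iterates
  have hy : ∀ N i : ℕ, i ≤ N → (tA a b c d)^[i] (G ((1 - mu ^ N)⁻¹, mu ^ N, 1)) =
      G ((1 - mu ^ N)⁻¹, mu ^ (N - i), mu ^ i) := by
    intro N i hi
    have h1 : mu ^ N * lam ^ i = mu ^ (N - i) := by
      calc mu ^ N * lam ^ i = mu ^ (N - i) * (mu ^ i * lam ^ i) := by
            rw [← mul_assoc, ← pow_add, Nat.sub_add_cancel hi]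
        _ = mu ^ (N - i) := by rw [hlmi, mul_one]
    rw [hGi, h1, one_mul]
  refine ⟨V ∩ (J₁ ∩ J₂), Filter.inter_mem (hV.mem_nhds hqV) (Filter.inter_mem hJ₁ hJ₂), ?_⟩
  intro Y hY
  have hlim : Filter.Tendsto (fun N : ℕ => G ((1 - mu ^ N)⁻¹, mu ^ N, 1)) Filter.atTop
      (𝓝 q) := by
    rw [hq3]
    apply (hGc.tendsto _).comp
    exact (HypD_rho_lim hmu).prodMk_nhds ((HypD_pow_lim hmu).prodMk_nhds tendsto_const_nhds)
  obtain ⟨N₃, hN₃⟩ := Filter.eventually_atTop.1 (hlim hY)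
  refine ⟨max (max N₁ N₂) (max N₃ (max R 1)), ?_⟩
  intro N hN
  have hN1 : N₁ ≤ N := le_trans (le_trans (le_max_left _ _) (le_max_left _ _)) hN
  have hN2 : N₂ ≤ N := le_trans (le_trans (le_max_right _ _) (le_max_left _ _)) hN
  have hN3 : N₃ ≤ N := le_trans (le_trans (le_max_left _ _) (le_max_right _ _)) hN
  have hN4 : R ≤ N := le_trans (le_trans (le_max_left _ _)
    (le_trans (le_max_right _ _) (le_max_right _ _))) hN
  have hN5 : 1 ≤ N := le_trans (le_trans (le_max_right _ _)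
    (le_trans (le_max_right _ _) (le_max_right _ _))) hN
  refine ⟨G ((1 - mu ^ N)⁻¹, mu ^ N, 1), hN₃ N hN3, ?_, ?_⟩
  · rw [hy N N le_rfl, Nat.sub_self, pow_zero]
    have hne : (1 : ℝ) - mu ^ N ≠ 0 := by
      have h1 : |mu ^ N| < 1 := by
        rw [abs_pow]
        exact pow_lt_one₀ (abs_nonneg _) hmu (by omega)
      have h2 := (abs_lt.1 h1).2
      linarith
    have h1 : ((1 - mu ^ N)⁻¹ * u * 1) • eu + (-((1 - mu ^ N)⁻¹ * v * mu ^ N)) • es =
        ((1 - mu ^ N)⁻¹ * u * mu ^ N) • eu + (-((1 - mu ^ N)⁻¹ * v * 1)) • es + lat m := by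
      have e1 : (1 - mu ^ N)⁻¹ * u * 1 = (1 - mu ^ N)⁻¹ * u * mu ^ N + u := by
        field_simp
        ring
      have e2 : -((1 - mu ^ N)⁻¹ * v * mu ^ N) = -((1 - mu ^ N)⁻¹ * v * 1) + v := by
        field_simp
        ring
      rw [← hm, e1, e2, add_smul, add_smul]
      abel
    rw [hG]
    unfold HypD_G
    simp only
    rw [h1, (tA_tp a b c d).2.2.1]
  · intro i hi hiN hmem
    rw [hy N i hiN.le] at hmem
    by_cases h1 : i < L
    · exact hN₁ N hN1 i hi h1 hmem.2.1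
    by_cases h2 : N - i < L
    · have h3 : N - (N - i) = i := by omega
      have h4 := hN₂ N hN2 (N - i) (by omega) h2
      rw [h3] at h4
      exact h4 hmem.2.2
    · have h3 : G ((1 - mu ^ N)⁻¹, mu ^ (N - i), mu ^ i) ∈ U := by
        apply hC'
        rw [Prod.dist_eq, Prod.dist_eq, max_lt_iff, max_lt_iff]
        refine ⟨hR N hN4, ?_, ?_⟩
        · simp only [dist_zero_right, Real.norm_eq_abs, abs_pow]
          exact hL _ (by omega)
        · simp only [dist_zero_right, Real.norm_eq_abs, abs_pow]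
          exact hL _ (by omega)
      exact Set.disjoint_left.1 hUV h3 hmem.1

end Pool.Agent.SC
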