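import Pool.Agent.Lib.MP_1e8d1a_an.SC.HypA
import Pool.Agent.Lib.MP_1e8d1a_an.SC.HypB
import Pool.Agent.Lib.MP_1e8d1a_an.SC.HypD

/-! row HypE -/

open scoped ContDiff Manifold Topology

namespace Pool.Agent.SC

/-- Such points `q` are dense.

PROOF.  Shrink `O` so that `1 ∉ O` (the torus has no isolated point: an open non empty `O`
contains a point different from `1`; e.g. `O ∖ {1}` is open and non empty, because `tp ⁻¹' O` is
open in the plane, non empty, and the lattice has empty interior).  Take `x` with `tp x ∈ O` and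
`ε > 0` such that `tp x' ∈ O` for `‖x' - x‖ < ε`.  With `hyp_split` write `x = xi x • eu +
eta x • es`; by `dense_form` there are lattice vectors `m₁`, `m₂` with `xi m₁` close to `xi x` and
`eta m₂` close to `eta x`, so `x' = xi m₁ • eu + eta m₂ • es` satisfies `‖x' - x‖ < ε`,
`tp x' ∈ O`.  `x' - m₂ = (xi m₁ - xi m₂) • eu = xi (m₁ - m₂) • eu` (because
`m₂ = xi m₂ • eu + eta m₂ • es`, and `xi` is linear).  So `tp x' = tp (u • eu)` with
`u = xi m`, `v = eta m`, `m = m₁ - m₂`.  Apply `hyp_separation` with `q = tp x' ∈ O`, `q ≠ 1`. -/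
theorem hyp_point (a b c d : ℤ) (hdet : a * d - b * c = 1) (htr : 2 < |a + d|)
    (O : Set (Circle × Circle)) (hO : IsOpen O) (hne : O.Nonempty) :
    ∃ q ∈ O, ∃ J ∈ 𝓝 q, ∀ Y ∈ 𝓝 q, ∃ N₀ : ℕ, ∀ N ≥ N₀, ∃ y ∈ Y, (tA a b c d)^[N] y = y ∧
      ∀ i, 0 < i → i < N → (tA a b c d)^[i] y ∉ J := by
  obtain ⟨-, -, hper, hcont, -, hone, hsurj, -⟩ := tA_tp a b c d
  -- a point of `O` different from `1`
  have hne' : ∃ x : ℝ × ℝ, tp x ∈ O ∧ tp x ≠ 1 := by
    obtain ⟨z, hz⟩ := hne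
    obtain ⟨x, rfl⟩ := hsurj z
    by_cases h1 : tp x = 1
    · have hopen : IsOpen (tp ⁻¹' O) := hO.preimage hcont
      obtain ⟨ε, hε, hball⟩ := Metric.isOpen_iff.1 hopen x hz
      set δ : ℝ := min (ε / 2) 1 with hδ
      have hδ0 : 0 < δ := by positivity
      have hδ1 : δ ≤ 1 := min_le_right _ _
      have hδε : δ < ε := lt_of_le_of_lt (min_le_left _ _) (by linarith)
      refine ⟨x + (δ, 0), hball ?_, ?_⟩
      · rw [Metric.mem_ball, dist_eq_norm, add_sub_cancel_left, Prod.norm_def]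
        simp only [norm_zero, Real.norm_eq_abs, abs_of_pos hδ0]
        rw [max_eq_left hδ0.le]
        exact hδε
      · intro h2
        obtain ⟨m, hm⟩ := (hone _).1 h1
        obtain ⟨m', hm'⟩ := (hone _).1 h2
        rw [hm] at hm'
        have h3 := congrArg Prod.fst hm'
        simp only [lat, Prod.fst_add] at h3
        have h4 : δ = 2 * Real.pi * ((m'.1 - m.1 : ℤ) : ℝ) := by push_cast; linarith
        have hpi := Real.pi_gt_three
        have h5 : 0 < ((m'.1 - m.1 : ℤ) : ℝ) := by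
          by_contra hcon
          have : 2 * Real.pi * ((m'.1 - m.1 : ℤ) : ℝ) ≤ 0 :=
            mul_nonpos_of_nonneg_of_nonpos (by positivity) (not_lt.1 hcon)
          linarith
        have h6 : (1 : ℝ) ≤ ((m'.1 - m.1 : ℤ) : ℝ) := by
          have : 0 < (m'.1 - m.1 : ℤ) := by exact_mod_cast h5
          exact_mod_cast this
        nlinarith
    · exact ⟨x, hz, h1⟩
  obtain ⟨x, hxO, hx1⟩ := hne'
  have hO' : IsOpen (tp ⁻¹' (O ∩ {1}ᶜ)) := (hO.inter isOpen_compl_singleton).preimage hcont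
  obtain ⟨ε, hε, hball⟩ := Metric.isOpen_iff.1 hO' x ⟨hxO, hx1⟩
  obtain ⟨lam, mu, xi, eta, eu, es, p, q, hlam, hmu, hlm, hsplit, hu, hs,
    ⟨hp, hq, hpq, hxi⟩, p', q', hp', hq', hpq', heta⟩ := hyp_split a b c d hdet htr
  set K : ℝ := ‖eu‖ + ‖es‖ + 1 with hK
  have hKpos : 0 < K := by positivity
  obtain ⟨m1, n1, hm1⟩ := dense_form hpq (xi x) (ε / K) (by positivity)
  obtain ⟨m2, n2, hm2⟩ := dense_form hpq' (eta x) (ε / K) (by positivity)
  set l1 : ℝ × ℝ := lat (m1, n1) with hl1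
  set l2 : ℝ × ℝ := lat (m2, n2) with hl2
  set l : ℝ × ℝ := lat (m1 - m2, n1 - n2) with hl
  have hxi1 : |xi l1 - xi x| < ε / K := by
    rw [hxi l1, hl1]
    simpa [lat] using hm1
  have heta2 : |eta l2 - eta x| < ε / K := by
    rw [heta l2, hl2]
    simpa [lat] using hm2
  have hxil : xi l = xi l1 - xi l2 := by
    rw [hxi, hxi, hxi, hl, hl1, hl2]
    simp only [lat]
    push_cast
    ring
  set x' : ℝ × ℝ := xi l1 • eu + eta l2 • es with hx'
  have hdist : ‖x' - x‖ < ε := by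
    have h1 : x' - x = (xi l1 - xi x) • eu + (eta l2 - eta x) • es := by
      conv_lhs => rw [← hsplit x]
      rw [hx', sub_smul, sub_smul]
      abel
    rw [h1]
    calc ‖(xi l1 - xi x) • eu + (eta l2 - eta x) • es‖
        ≤ ‖(xi l1 - xi x) • eu‖ + ‖(eta l2 - eta x) • es‖ := norm_add_le _ _
      _ = |xi l1 - xi x| * ‖eu‖ + |eta l2 - eta x| * ‖es‖ := by
          rw [norm_smul, norm_smul, Real.norm_eq_abs, Real.norm_eq_abs]
      _ ≤ ε / K * ‖eu‖ + ε / K * ‖es‖ := by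
          gcongr
      _ = ε * ((‖eu‖ + ‖es‖) / K) := by ring
      _ < ε * 1 := by
          apply mul_lt_mul_of_pos_left _ hε
          rw [div_lt_one hKpos]
          linarith
      _ = ε := mul_one ε
  have hmem : tp x' ∈ O ∩ {1}ᶜ := hball (by rwa [Metric.mem_ball, dist_eq_norm])
  have hx'2 : x' = xi l • eu + l2 := by
    conv_rhs => rw [← hsplit l2]
    rw [hx', hxil, sub_smul]
    abel
  have htp : tp x' = tp (xi l • eu) := by
    rw [hx'2, hl2, hper]
  obtain ⟨J, hJ, hJ'⟩ := hyp_separation a b c d hlam hmu hlm hu hs (xi l) (eta l)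
    (m1 - m2, n1 - n2) (hsplit l) (tp x') htp hmem.2
  exact ⟨tp x', hmem.1, J, hJ, hJ'⟩

end Pool.Agent.SC
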