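import Pool.Agent.Lib.MP_1e8d1a_an.SC.BumpA
import Pool.Agent.Lib.MP_1e8d1a_an.SC.BumpB
import Pool.Agent.Lib.MP_1e8d1a_an.SC.Rec
import Pool.Agent.Lib.MP_1e8d1a_an.SC.HypE

/-! row HypF -/

open scoped ContDiff Manifold Topology

namespace Pool.Agent.SC

variable {V : Type} [NormedAddCommGroup V] [NormedSpace ℝ V] [FiniteDimensional ℝ V]
  {H : Type} [TopologicalSpace H] {I : ModelWithCorners ℝ V H} [I.Boundaryless]
  {M : Type} [TopologicalSpace M] [T2Space M] [CompactSpace M] [ChartedSpace H M]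
  [IsManifold I ∞ M]

omit [FiniteDimensional ℝ V] [T2Space M] [CompactSpace M] [IsManifold I ∞ M] in
theorem HypF_contMDiff (r : ℕ∞) (c : Circle × Circle) :
    ContMDiff (I.prod ((𝓡 1).prod (𝓡 1))) (I.prod ((𝓡 1).prod (𝓡 1))) r
      (fun p : M × Circle × Circle => (p.1, p.2.1 * c.1, p.2.2 * c.2)) := by
  have h1 : ContMDiff (I.prod ((𝓡 1).prod (𝓡 1))) I r (fun p : M × Circle × Circle => p.1) := contMDiff_fst
  have h2 : ContMDiff (I.prod ((𝓡 1).prod (𝓡 1))) (𝓡 1) r (fun p : M × Circle × Circle => p.2.1) :=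
    contMDiff_fst.comp contMDiff_snd
  have h3 : ContMDiff (I.prod ((𝓡 1).prod (𝓡 1))) (𝓡 1) r (fun p : M × Circle × Circle => p.2.2) :=
    contMDiff_snd.comp contMDiff_snd
  exact h1.prodMk ((h2.mul contMDiff_const).prodMk (h3.mul contMDiff_const))

/-- translation -/
noncomputable def HypF_tr (r : ℕ∞) (c : Circle × Circle) :
    (M × Circle × Circle) ≃ₘ^r⟮I.prod ((𝓡 1).prod (𝓡 1)),
      I.prod ((𝓡 1).prod (𝓡 1))⟯ (M × Circle × Circle) where
  toFun p := (p.1, p.2.1 * c.1, p.2.2 * c.2)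
  invFun p := (p.1, p.2.1 * c.1⁻¹, p.2.2 * c.2⁻¹)
  left_inv p := by simp
  right_inv p := by simp
  contMDiff_toFun := HypF_contMDiff r c
  contMDiff_invFun := HypF_contMDiff r (c.1⁻¹, c.2⁻¹)

omit [FiniteDimensional ℝ V] [T2Space M] [CompactSpace M] [IsManifold I ∞ M] in
theorem HypF_tr_apply (r : ℕ∞) (c : Circle × Circle) (p : M × Circle × Circle) :
    (HypF_tr (I := I) r c : M × Circle × Circle → M × Circle × Circle) p = (p.1, p.2.1 * c.1, p.2.2 * c.2) := rfl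

omit [FiniteDimensional ℝ V] [T2Space M] [CompactSpace M] [IsManifold I ∞ M] in
/-- the family of translations -/
theorem HypF_family {r : ℕ∞} (F : (M × Circle × Circle) ≃ₘ^r⟮I.prod ((𝓡 1).prod (𝓡 1)),
      I.prod ((𝓡 1).prod (𝓡 1))⟯ (M × Circle × Circle)) (ℓ : (ℝ × ℝ) →L[ℝ] ℝ × ℝ) :
    ContMDiff (𝓘(ℝ, ℝ × ℝ).prod (I.prod ((𝓡 1).prod (𝓡 1)))) (I.prod ((𝓡 1).prod (𝓡 1))) r
      (fun z : (ℝ × ℝ) × M × Circle × Circle => ((F z.2).1, (F z.2).2.1 * (tp (ℓ z.1)).1, (F z.2).2.2 * (tp (ℓ z.1)).2)) := by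
  have hF : ContMDiff (𝓘(ℝ, ℝ × ℝ).prod (I.prod ((𝓡 1).prod (𝓡 1)))) (I.prod ((𝓡 1).prod (𝓡 1))) r
      (fun z : (ℝ × ℝ) × M × Circle × Circle => F z.2) := F.contMDiff.comp contMDiff_snd
  have h1 : ContMDiff (𝓘(ℝ, ℝ × ℝ).prod (I.prod ((𝓡 1).prod (𝓡 1)))) I r
      (fun z : (ℝ × ℝ) × M × Circle × Circle => (F z.2).1) := contMDiff_fst.comp hF
  have h2 : ContMDiff (𝓘(ℝ, ℝ × ℝ).prod (I.prod ((𝓡 1).prod (𝓡 1)))) (𝓡 1) r
      (fun z : (ℝ × ℝ) × M × Circle × Circle => (F z.2).2.1) := (contMDiff_fst.comp contMDiff_snd).comp hF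
  have h3 : ContMDiff (𝓘(ℝ, ℝ × ℝ).prod (I.prod ((𝓡 1).prod (𝓡 1)))) (𝓡 1) r
      (fun z : (ℝ × ℝ) × M × Circle × Circle => (F z.2).2.2) := (contMDiff_snd.comp contMDiff_snd).comp hF
  have hexp : ContMDiff 𝓘(ℝ, ℝ) (𝓡 1) r Circle.exp := contMDiff_circleExp
  have h4 : ContMDiff (𝓘(ℝ, ℝ × ℝ).prod (I.prod ((𝓡 1).prod (𝓡 1)))) 𝓘(ℝ, ℝ × ℝ) r
      (fun z : (ℝ × ℝ) × M × Circle × Circle => ℓ z.1) := ℓ.contMDiff.comp contMDiff_fst
  have h5 : ContMDiff (𝓘(ℝ, ℝ × ℝ).prod (I.prod ((𝓡 1).prod (𝓡 1)))) 𝓘(ℝ, ℝ) r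
      (fun z : (ℝ × ℝ) × M × Circle × Circle => (ℓ z.1).1) :=
    (ContinuousLinearMap.fst ℝ ℝ ℝ).contMDiff.comp h4
  have h6 : ContMDiff (𝓘(ℝ, ℝ × ℝ).prod (I.prod ((𝓡 1).prod (𝓡 1)))) 𝓘(ℝ, ℝ) r
      (fun z : (ℝ × ℝ) × M × Circle × Circle => (ℓ z.1).2) :=
    (ContinuousLinearMap.snd ℝ ℝ ℝ).contMDiff.comp h4
  exact h1.prodMk ((h2.mul (hexp.comp h5)).prodMk (h3.mul (hexp.comp h6)))

theorem HypF_tp_sub (x y : ℝ × ℝ) : tp (x - y) = tp x * (tp y)⁻¹ := by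
  ext1
  · simp [tp, Circle.exp_sub, div_eq_mul_inv]
  · simp [tp, Circle.exp_sub, div_eq_mul_inv]

theorem HypF_tA_mul (a b c d : ℤ) (z w : Circle × Circle) : tA a b c d (z * w) = tA a b c d z * tA a b c d w := by
  ext1
  · simp only [tA, Prod.fst_mul, Prod.snd_mul, mul_zpow]
    exact mul_mul_mul_comm _ _ _ _
  · simp only [tA, Prod.fst_mul, Prod.snd_mul, mul_zpow]
    exact mul_mul_mul_comm _ _ _ _

theorem HypF_arg (z w : Circle) : Filter.Tendsto (fun q : Circle × Circle =>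
    ((Complex.arg ((z / q.1 : Circle) : ℂ), Complex.arg ((w / q.2 : Circle) : ℂ)) : ℝ × ℝ)) (𝓝 (z, w)) (𝓝 (0, 0)) := by
  have h1 : ∀ z : Circle, Filter.Tendsto (fun u : Circle => Complex.arg ((z / u : Circle) : ℂ)) (𝓝 z) (𝓝 0) := by
    intro z
    have h2 : Filter.Tendsto (fun u : Circle => ((z / u : Circle) : ℂ)) (𝓝 z) (𝓝 1) := by
      have h3 : Continuous (fun u : Circle => ((z / u : Circle) : ℂ)) :=
        continuous_subtype_val.comp (continuous_const.div' continuous_id)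
      have h4 := h3.tendsto z
      simpa using h4
    have h5 : ContinuousAt Complex.arg 1 := Complex.continuousAt_arg (by simp)
    have h6 := h5.tendsto.comp h2
    rw [Complex.arg_one] at h6
    exact h6
  have e1 : Filter.Tendsto (fun q : Circle × Circle => q.1) (𝓝 (z, w)) (𝓝 z) := continuous_fst.continuousAt
  have e2 : Filter.Tendsto (fun q : Circle × Circle => q.2) (𝓝 (z, w)) (𝓝 w) := continuous_snd.continuousAt
  exact ((h1 z).comp e1).prodMk_nhds ((h1 w).comp e2)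

/-- PROOF.  For `v ∈ ℝ × ℝ` put `e_v = tp v` and `c_v = tp (v - lA v) = e_v * (tA e_v)⁻¹`, and
`Φ (v, (y, z)) = (f y, tA z * c_v)` (componentwise product), a family with parameter
`P = ℝ × ℝ`, `C^r` everywhere (`contMDiff_circleExp`, powers and products in `Circle`; `v - lA v`
is linear), `Φ (0, ·) = F`.  Apply `closable_of_limit`.  Given `ε > 0`, the set
`O = {q | |arg (z₀.1 / q.1)| < ε and |arg (z₀.2 / q.2)| < ε}` contains an open neighbourhood of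
`z₀ = (z, w)` (`arg` is continuous at `1`; use the interior of `O`).  Take `q ∈ O` and `J` from
`hyp_point`, `v = (arg (z₀.1 / q.1), arg (z₀.2 / q.2))`, so `‖v‖ < ε` and `q * e_v = z₀`.
`G_v = F` composed with the translation diffeomorphism `(y, z) ↦ (y, z * c_v)`.
`Closable G_v (x, z₀)`: apply `closable_of_family` with the constant family (`P = ℝ`,
`Φ (t, ·) = G_v`) and `J' = {p | p.2 * e_v⁻¹ ∈ J}`, a neighbourhood of `(x, z₀)`.
Iterates: `G_v (y, e_v * z) = (f y, tA (e_v) * tA z * e_v * (tA e_v)⁻¹) = (f y, e_v * tA z)`, so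
`G_v^[i] (y, e_v * z) = (f^[i] y, e_v * tA^[i] z)`.  Given `U ∈ 𝓝 (x, z₀)`, `U ⊇ A ×ˢ B`; let
`Y = {z | e_v * z ∈ B} ∈ 𝓝 q`, `N₀` from `hyp_point`, `n ≥ N₀`, `n > 0`, `y ∈ A`,
`f^[n] y ∈ A` from `returns_of_recurrent` (`m = 1`), `z ∈ Y` with `tA^[n] z = z` and
`tA^[i] z ∉ J`.  The point `(y, e_v * z) ∈ U` returns to `U` at time `n` and is outside `J'` at the
times `0 < i < n`. -/
theorem hyp_closable {r : ℕ∞} (f : M ≃ₘ^r⟮I, I⟯ M) (x : M)
    (hx : Recurrent f.toEquiv x) (a b c d : ℤ) (hdet : a * d - b * c = 1) (htr : 2 < |a + d|)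
    (z w : Circle)
    (F : (M × Circle × Circle) ≃ₘ^r⟮I.prod ((𝓡 1).prod (𝓡 1)),
      I.prod ((𝓡 1).prod (𝓡 1))⟯ (M × Circle × Circle))
    (hF : ∀ y u v, F (y, u, v) = (f y, u ^ a * v ^ b, u ^ c * v ^ d)) :
    Closable (I.prod ((𝓡 1).prod (𝓡 1))) F (x, z, w) := by
  classical
  obtain ⟨t1, t2, t3, t4, t5, t6, t7, t8⟩ := tA_tp a b c d
  -- the linear map
  obtain ⟨ℓ, hℓ⟩ : ∃ ℓ : (ℝ × ℝ) →L[ℝ] ℝ × ℝ, ∀ v, ℓ v = v - lA a b c d v := by
    refine ⟨ContinuousLinearMap.id ℝ (ℝ × ℝ) -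
      ((a : ℝ) • ContinuousLinearMap.fst ℝ ℝ ℝ + (b : ℝ) • ContinuousLinearMap.snd ℝ ℝ ℝ).prod
        ((c : ℝ) • ContinuousLinearMap.fst ℝ ℝ ℝ + (d : ℝ) • ContinuousLinearMap.snd ℝ ℝ ℝ), fun v => ?_⟩
    simp [lA]
  have hF' : ∀ (y : M) (s : Circle × Circle), F (y, s) = (f y, tA a b c d s) := fun y s => hF y s.1 s.2
  have htp0 : tp 0 = 1 := (t6 0).mpr ⟨0, by simp [lat, Prod.ext_iff]⟩
  refine closable_of_limit (P := ℝ × ℝ)
    (fun z : (ℝ × ℝ) × M × Circle × Circle => ((F z.2).1, (F z.2).2.1 * (tp (ℓ z.1)).1, (F z.2).2.2 * (tp (ℓ z.1)).2))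
    (fun q => (HypF_family F ℓ).contMDiffAt) F (fun q => ?_) (x, z, w) ?_
  · simp only [map_zero, htp0, Prod.fst_one, Prod.snd_one, mul_one]
  intro ε hε
  have hO : {q : Circle × Circle | ‖((Complex.arg ((z / q.1 : Circle) : ℂ), Complex.arg ((w / q.2 : Circle) : ℂ)) : ℝ × ℝ)‖ < ε}
      ∈ 𝓝 (z, w) := by
    have h1 := (HypF_arg z w).norm
    have h2 : ‖((0, 0) : ℝ × ℝ)‖ < ε := by simpa using hε
    exact h1.eventually_lt_const h2
  obtain ⟨O, hOsub, hOo, hOm⟩ := mem_nhds_iff.mp hO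
  obtain ⟨q, hqO, J, hJ, hsep⟩ := hyp_point a b c d hdet htr O hOo ⟨_, hOm⟩
  set v : ℝ × ℝ := (Complex.arg ((z / q.1 : Circle) : ℂ), Complex.arg ((w / q.2 : Circle) : ℂ)) with hv
  have hvε : ‖v‖ < ε := hOsub hqO
  have htv : tp v * q = (z, w) := by
    ext1
    · simp only [tp, hv, Prod.fst_mul, Circle.exp_arg, div_mul_cancel]
    · simp only [tp, hv, Prod.snd_mul, Circle.exp_arg, div_mul_cancel]
  have htv' : ((z, w) : Circle × Circle) * (tp v)⁻¹ = q := by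
    rw [← htv, mul_comm (tp v) q, mul_assoc, mul_inv_cancel, mul_one]
  refine ⟨v, hvε, F.trans (HypF_tr r (tp (ℓ v))), fun p => rfl, ?_⟩
  set G := F.trans (HypF_tr r (tp (ℓ v))) with hG
  -- the conjugacy
  have hGs : ∀ (y : M) (s : Circle × Circle), G (y, tp v * s) = (f y, tp v * tA a b c d s) := by
    intro y s
    have h1 : G (y, tp v * s) = ((F (y, tp v * s)).1, (F (y, tp v * s)).2 * tp (ℓ v)) := rfl
    rw [h1, hF']
    simp only
    congr 1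
    rw [HypF_tA_mul, hℓ, HypF_tp_sub, ← t1]
    have : tA a b c d (tp v) * tA a b c d s * (tp v * (tA a b c d (tp v))⁻¹)
        = (tA a b c d (tp v) * (tA a b c d (tp v))⁻¹) * (tp v * tA a b c d s) := by
      rw [mul_assoc, mul_comm (tA a b c d s), ← mul_assoc, ← mul_assoc, mul_comm (tA a b c d (tp v)) (tp v),
        mul_assoc (tp v), mul_assoc, mul_comm (tA a b c d (tp v) * (tA a b c d (tp v))⁻¹) (tA a b c d s)]
      rw [← mul_assoc, mul_comm (tp v * tA a b c d s)]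
    rw [this, mul_inv_cancel, one_mul]
  have hGi : ∀ (i : ℕ) (y : M) (s : Circle × Circle),
      (G : M × Circle × Circle → M × Circle × Circle)^[i] (y, tp v * s) = ((f : M → M)^[i] y, tp v * (tA a b c d)^[i] s) := by
    intro i
    induction i with
    | zero => intro y s; rfl
    | succ i ih =>
      intro y s
      rw [Function.iterate_succ_apply', ih, hGs, Function.iterate_succ_apply', Function.iterate_succ_apply']
  refine closable_of_family (P := ℝ) (fun z : ℝ × M × Circle × Circle => G z.2)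
    (fun q => (G.contMDiff.comp contMDiff_snd).contMDiffAt) G (fun q => rfl) (x, z, w)
    {p | p.2 * (tp v)⁻¹ ∈ J} ?_ ?_
  · have h1 : Continuous (fun p : M × Circle × Circle => p.2 * (tp v)⁻¹) := continuous_snd.mul continuous_const
    have h2 : Filter.Tendsto (fun p : M × Circle × Circle => p.2 * (tp v)⁻¹) (𝓝 (x, z, w)) (𝓝 q) := by
      have := h1.tendsto (x, z, w)
      rw [htv'] at this
      exact this
    exact h2 hJ
  · intro U hU ε' hε'
    obtain ⟨A, hA, B, hB, hAB⟩ := mem_nhds_prod_iff.mp hU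
    have hY : {s : Circle × Circle | tp v * s ∈ B} ∈ 𝓝 q := by
      have h1 : Continuous (fun s : Circle × Circle => tp v * s) := continuous_const.mul continuous_id
      have h2 := h1.tendsto q
      rw [htv] at h2
      exact h2 hB
    obtain ⟨N₀, hN₀⟩ := hsep _ hY
    obtain ⟨n, hn, hn0, _, y, hy, hfy⟩ := returns_of_recurrent f.toHomeomorph x hx 1 one_pos N₀ A hA
    obtain ⟨s, hs, hs1, hs2⟩ := hN₀ n hn
    refine ⟨0, by simpa using hε', G, fun q => rfl, (y, tp v * s), hAB ⟨hy, hs⟩, n, hn0, ?_, ?_⟩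
    · rw [hGi, hs1]
      exact hAB ⟨hfy, hs⟩
    · intro i hi hin
      rw [hGi]
      have h3 := hs2 i hi hin
      simp only [Set.mem_ofPred_eq]
      rw [mul_comm (tp v), mul_assoc, mul_inv_cancel, mul_one]
      exact h3

end Pool.Agent.SC
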