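import Pool.Agent.Lib.MP_1e8d1a_an.SC.Defs3
import Pool.Agent.Lib.MP_1e8d1a_an.SC.Rec

/-! row TmB -/

open scoped ContDiff Manifold Topology

namespace Pool.Agent.SC

variable {E : Type} [NormedAddCommGroup E] [NormedSpace ℝ E] {H : Type} [TopologicalSpace H]
  {I : ModelWithCorners ℝ E H} {W : Type} [TopologicalSpace W] [ChartedSpace H W]

theorem TmB_iterate {r : ℕ∞} (F : W ≃ₘ^r⟮I, I⟯ W) (ψ : ℝ → W → W) (hψ : IsFlow I r ψ) (α : ℝ)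
    (hF : ∀ q, F q = ψ α q) (n : ℕ) (y : W) : (F : W → W)^[n] y = ψ (n * α) y := by
  induction n with
  | zero => simp [hψ.1]
  | succ n ih =>
    rw [Function.iterate_succ_apply', ih, hF, ← hψ.2.1]
    congr 1
    push_cast
    ring

theorem TmB_small {r : ℕ∞} (ψ : ℝ → W → W) (hψ : IsFlow I r ψ) (p : W) (U : Set W)
    (hU : U ∈ 𝓝 p) : ∃ τ₀ : ℝ, 0 < τ₀ ∧ τ₀ ≤ 1 ∧ ∃ U₁ ∈ 𝓝 p, ∀ τ : ℝ, |τ| < τ₀ → ∀ q ∈ U₁, ψ τ q ∈ U := by
  have hc : ContinuousAt (fun z : ℝ × W => ψ z.1 z.2) (0, p) := hψ.2.2.continuous.continuousAt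
  have h0 : ψ 0 p = p := hψ.1 p
  have h1 : ∀ᶠ z : ℝ × W in 𝓝 (0, p), ψ z.1 z.2 ∈ U := by
    refine hc.eventually ?_
    show U ∈ 𝓝 (ψ 0 p)
    rw [h0]
    exact hU
  rw [nhds_prod_eq] at h1
  obtain ⟨A, hA, U₁, hU₁, hAU⟩ := Filter.mem_prod_iff.1 h1
  obtain ⟨ε, hε, hεA⟩ := Metric.mem_nhds_iff.1 hA
  refine ⟨min ε 1, lt_min hε one_pos, min_le_right _ _, U₁, hU₁, ?_⟩
  intro τ hτ q hq
  have h2 : (τ, q) ∈ A ×ˢ U₁ := by
    refine ⟨hεA ?_, hq⟩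
    rw [Metric.mem_ball, dist_zero_right, Real.norm_eq_abs]
    exact lt_of_lt_of_le hτ (min_le_left _ _)
  exact hAU h2

theorem TmB_clock {r : ℕ∞} (ψ : ℝ → W → W) (Θ : W → Circle) (hΘ : IsClock I r ψ Θ) (p : W)
    {τ₀ : ℝ} (hτ₀ : 0 < τ₀) : ∃ U' ∈ 𝓝 p, ∀ y ∈ U', ∀ u : ℝ, ψ u y ∈ U' →
      ∃ m : ℤ, |u - m| < τ₀ := by
  have hcΘ : Continuous Θ := hΘ.1.continuous
  have hpi := Real.pi_pos
  have harg : ContinuousAt (fun z : W × W => Complex.arg ((Θ z.2 / Θ z.1 : Circle) : ℂ)) (p, p) := by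
    have h1 : Continuous (fun z : W × W => ((Θ z.2 / Θ z.1 : Circle) : ℂ)) :=
      continuous_subtype_val.comp ((hcΘ.comp continuous_snd).div' (hcΘ.comp continuous_fst))
    refine ContinuousAt.comp (g := Complex.arg) ?_ h1.continuousAt
    apply Complex.continuousAt_arg
    simp [Complex.slitPlane]
  have h0 : Complex.arg ((Θ p / Θ p : Circle) : ℂ) = 0 := by simp
  have h1 : ∀ᶠ z : W × W in 𝓝 (p, p), |Complex.arg ((Θ z.2 / Θ z.1 : Circle) : ℂ)| < 2 * Real.pi * τ₀ := by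
    have h2 : ContinuousAt (fun z : W × W => |Complex.arg ((Θ z.2 / Θ z.1 : Circle) : ℂ)|) (p, p) :=
      harg.abs
    refine h2.eventually (gt_mem_nhds ?_)
    show |Complex.arg ((Θ p / Θ p : Circle) : ℂ)| < 2 * Real.pi * τ₀
    rw [h0, abs_zero]
    positivity
  rw [nhds_prod_eq] at h1
  obtain ⟨A, hA, B, hB, hAB⟩ := Filter.mem_prod_iff.1 h1
  refine ⟨A ∩ B, Filter.inter_mem hA hB, ?_⟩
  intro y hy u hu
  have h3 : |Complex.arg ((Θ (ψ u y) / Θ y : Circle) : ℂ)| < 2 * Real.pi * τ₀ := by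
    have : (y, ψ u y) ∈ A ×ˢ B := ⟨hy.1, hu.2⟩
    exact hAB this
  have h4 : Θ (ψ u y) / Θ y = Circle.exp (2 * Real.pi * u) := by
    rw [hΘ.2 u y, mul_div_assoc, div_self', mul_one]
  set θ := Complex.arg ((Θ (ψ u y) / Θ y : Circle) : ℂ) with hθ
  have h5 : Circle.exp θ = Circle.exp (2 * Real.pi * u) := by
    rw [hθ, Circle.exp_arg, h4]
  obtain ⟨m, hm⟩ := Circle.exp_eq_exp.1 h5
  refine ⟨-m, ?_⟩
  have h6 : u - ((-m : ℤ) : ℝ) = θ / (2 * Real.pi) := by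
    push_cast
    field_simp
    linarith
  rw [h6, abs_div, abs_of_pos (by positivity : 0 < 2 * Real.pi), div_lt_iff₀ (by positivity)]
  linarith

/-- Integer return times of the flow from the recurrence of the time-`α` map.

PROOF.  `(u, q) ↦ ψ u q` is continuous (from `hψ.2.2`), so there are `τ₀ > 0` and a neighbourhood
`U₁` of `p`, `U₁ ⊆ U`, with `ψ τ q ∈ U` for `|τ| < τ₀`, `q ∈ U₁`.  Shrink `U₁` to `U₂` such that
for `y, z ∈ U₂` with `Θ z = exp (2 π s) Θ y` the real number `s` is within `τ₀` of an integer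
(`Θ z / Θ y` is near `1`, `|arg (Θ z / Θ y)| < 2 π τ₀`, and `2 π s - arg (..)` is a multiple of
`2 π`).  By `returns_of_recurrent` (`m = 1`) there are `n` arbitrarily large (so that
`n |α| ≥ N + 1`) and `y ∈ U₂` with `z = F^[n] y = ψ (n α) y ∈ U₂`
(`F^[n] = ψ (n α)` by induction).  So `n α = m + τ` with an integer `m`, `|τ| < τ₀`, w.l.o.g.
`τ₀ ≤ 1`, hence `|m| ≥ N`; `ψ m y = ψ (-τ) z ∈ U`.  If `m ≥ 0` take `q = y`; if `m < 0` take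
`q = ψ m y ∈ U`, `ψ (-m) q = y ∈ U`. -/
theorem integer_returns [T2Space W] {r : ℕ∞} (F : W ≃ₘ^r⟮I, I⟯ W) (ψ : ℝ → W → W)
    (Θ : W → Circle) (hψ : IsFlow I r ψ) (hΘ : IsClock I r ψ Θ) (α : ℝ) (hα : α ≠ 0)
    (hF : ∀ q, F q = ψ α q) (p : W) (hp : Recurrent F.toEquiv p) :
    ∀ U ∈ 𝓝 p, ∀ N : ℕ, ∃ m : ℕ, N ≤ m ∧ ∃ q ∈ U, ψ m q ∈ U := by
  intro U hU N
  obtain ⟨τ₀, hτ₀, hτ₁, U₁, hU₁, hsmall⟩ := TmB_small ψ hψ p U hU
  obtain ⟨U', hU', hclock⟩ := TmB_clock ψ Θ hΘ p hτ₀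
  have hαpos : 0 < |α| := abs_pos.2 hα
  obtain ⟨n, hn, -, -, y, hy, hy'⟩ := returns_of_recurrent F.toHomeomorph p hp 1 one_pos
    ⌈((N : ℝ) + 1) / |α|⌉₊ (U₁ ∩ U') (Filter.inter_mem hU₁ hU')
  have hy'' : ψ (n * α) y ∈ U₁ ∩ U' := by
    rw [← TmB_iterate F ψ hψ α hF n y]
    exact hy'
  obtain ⟨m, hm⟩ := hclock y hy.2 (n * α) hy''.2
  have hnα : (N : ℝ) + 1 ≤ |(n : ℝ) * α| := by
    rw [abs_mul, abs_of_nonneg (Nat.cast_nonneg n)]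
    have h1 : ((N : ℝ) + 1) / |α| ≤ n := (Nat.le_ceil _).trans (by exact_mod_cast hn)
    rwa [div_le_iff₀ hαpos] at h1
  have hyU : y ∈ U := by
    have := hsmall 0 (by simpa using hτ₀) y hy.1
    rwa [hψ.1] at this
  have hmy : ψ m y ∈ U := by
    have h2 : ψ (m : ℝ) y = ψ (-(n * α - m)) (ψ (n * α) y) := by
      rw [← hψ.2.1]
      congr 1
      ring
    rw [h2]
    exact hsmall _ (by rwa [abs_neg]) _ hy''.1
  have hmN : (N : ℝ) < |(m : ℝ)| := by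
    have h3 : |(n : ℝ) * α| ≤ |(n : ℝ) * α - m| + |(m : ℝ)| := by
      have := abs_add_le ((n : ℝ) * α - m) (m : ℝ)
      simpa using this
    linarith
  rcases Int.eq_nat_or_neg m with ⟨k, rfl | rfl⟩
  · refine ⟨k, ?_, y, hyU, ?_⟩
    · have h4 : |((k : ℤ) : ℝ)| = k := by simp
      rw [h4] at hmN
      exact_mod_cast hmN.le
    · simpa using hmy
  · refine ⟨k, ?_, ψ ((-(k : ℤ) : ℤ) : ℝ) y, hmy, ?_⟩
    · have h4 : |((-(k : ℤ) : ℤ) : ℝ)| = k := by simp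
      rw [h4] at hmN
      exact_mod_cast hmN.le
    · rw [← hψ.2.1]
      have h5 : (k : ℝ) + ((-(k : ℤ) : ℤ) : ℝ) = 0 := by push_cast; ring
      rw [h5, hψ.1]
      exact hyU

end Pool.Agent.SC
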