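import Pool.Agent.Lib.MP_1e8d1a_an.SC.Defs3
import Pool.Agent.Lib.MP_1e8d1a_an.SC.ClkF

/-! row TmC -/

open scoped ContDiff Manifold Topology

namespace Pool.Agent.SC

variable {E : Type} [NormedAddCommGroup E] [NormedSpace ℝ E] {H : Type} [TopologicalSpace H]
  {I : ModelWithCorners ℝ E H} {W : Type} [TopologicalSpace W] [ChartedSpace H W]

/-- a number coprime argument -/
private lemma tmC_arith {i l n k m : ℕ} (hl0 : 0 < l) (hlk : l < k)
    (hil : i * k = l * n) (hpr : ∀ l : ℕ, l.Prime → ¬ (l ∣ n ∧ l ∣ k ∧ l ∣ m)) :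
    ¬ k ∣ l * m := by
  intro hdv
  have hkn : k ∣ l * n := ⟨i, by rw [← hil]; ring⟩
  have h1 : k ∣ l * Nat.gcd m n := by
    rw [← Nat.gcd_mul_left]
    exact Nat.dvd_gcd hdv hkn
  have h2 : k ∣ l * Nat.gcd (Nat.gcd m n) k := by
    rw [← Nat.gcd_mul_left]
    exact Nat.dvd_gcd h1 (dvd_mul_left k l)
  have h3 : Nat.gcd (Nat.gcd m n) k = 1 := by
    by_contra hne
    obtain ⟨q, hq, hqd⟩ := Nat.exists_prime_and_dvd hne
    have hqk : q ∣ k := hqd.trans (Nat.gcd_dvd_right _ _)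
    have hqmn : q ∣ Nat.gcd m n := hqd.trans (Nat.gcd_dvd_left _ _)
    exact hpr q hq ⟨hqmn.trans (Nat.gcd_dvd_right _ _), hqk, hqmn.trans (Nat.gcd_dvd_left _ _)⟩
  rw [h3, mul_one] at h2
  exact absurd (Nat.le_of_dvd hl0 h2) (by lia)

/-- the roots of unity of order dividing `k`, different from `1`, do not contain `1` -/
private lemma tmC_root_ne_one {a k : ℕ} (ha : 0 < a) (hak : a < k) :
    Circle.exp (2 * Real.pi * ((a : ℝ) / k)) ≠ 1 := by
  intro h
  rw [← Circle.exp_zero, Circle.exp_eq_exp] at h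
  obtain ⟨m, hm⟩ := h
  have hk : (0 : ℝ) < k := by exact_mod_cast (lt_trans ha hak)
  have hpi := Real.pi_pos
  have h1 : (a : ℝ) / k = m := by
    have : 2 * Real.pi * ((a : ℝ) / k) = 2 * Real.pi * m := by linarith
    exact mul_left_cancel₀ (by positivity) this
  have h2 : (a : ℝ) = m * k := by
    field_simp at h1
    linarith
  have h3 : (a : ℤ) = m * k := by exact_mod_cast h2
  have h4 : 0 < m := by
    by_contra hc
    push Not at hc
    have : m * (k : ℤ) ≤ 0 := mul_nonpos_of_nonpos_of_nonneg hc (by positivity)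
    have h5 : (0 : ℤ) < a := by exact_mod_cast ha
    linarith
  have h5 : (k : ℤ) ≤ m * k := by nlinarith [show (0 : ℤ) ≤ k by positivity]
  have h6 : (a : ℤ) < k := by exact_mod_cast hak
  linarith

private lemma tmC_exp_split (k b : ℕ) (hk : 0 < k) :
    Circle.exp (2 * Real.pi * ((b : ℝ) / k)) =
      Circle.exp (2 * Real.pi * (((b % k : ℕ) : ℝ) / k)) := by
  have hk' : (k : ℝ) ≠ 0 := by positivity
  have h1 : ((b : ℝ) / k) = (((b % k : ℕ) : ℝ) / k) + ((b / k : ℕ) : ℝ) := by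
    have h2 : (b : ℝ) = ((b % k : ℕ) : ℝ) + (k : ℝ) * ((b / k : ℕ) : ℝ) := by
      exact_mod_cast (Nat.mod_add_div b k).symm
    field_simp
    linarith
  rw [h1, mul_add, Circle.exp_add]
  have h3 : ∀ c : ℕ, Circle.exp (2 * Real.pi * (c : ℝ)) = 1 := by
    intro c
    have := Circle.exp_two_pi_mul_int (c : ℤ)
    simpa using this
  rw [h3, mul_one]

/-- Time `P / Q` maps.

PROOF.  Apply `clock_closable` to `G`, `ψ' u q = ψ (u / Q) q`, `Θ' q = Θ q ^ Q` and `k`.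
(`ψ'` is smooth: composition of `ψ` with the linear map `u ↦ u / Q`; `Θ' (ψ' u q) =
(exp (2 π u / Q)) ^ Q Θ' q = exp (2 π u) Θ' q`; `Θ' (G q) = exp (2 π P / Q) ^ Q Θ' q = Θ' q`;
`G` and `ψ'` commute because both are times of the flow `ψ`.)  `G^[i] (ψ' l q) =
ψ ((i P + l) / Q) q`.  `ClockReturns G ψ' p k`: let `c > 0` with `c ≤ ‖exp (2 π a / k) - 1‖` for
all `0 < a < k` (finitely many non zero numbers; `c = 1` if `k = 1`) and
`U₀ = {q | ‖(Θ q : ℂ) - Θ p‖ < c / 2}`.  Given `U`, `N`: by `h` (applied to `U` and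
`N₁ = N P + P + k`) there are `m ≥ N₁`, `n` with `n P + k = m Q` (so `n ≥ N`, `n > 0`), `q ∈ U` and
`ψ m q ∈ U`, and no prime divides `n`, `k`, `m`.  `G^[n] (ψ' k q) = ψ ((n P + k) / Q) q = ψ m q`.
Let `0 < i < n`, `0 < l < k`, `i k = l n`.  Then `(i P + l) k = l (n P + k) = l m Q`, so
`(i P + l) / Q = l m / k`.  This is not an integer: let `g = gcd n k`, `n = g n'`, `k = g k'`,
`gcd n' k' = 1`, `i k' = l n'`, so `k' ∣ l`, `l = k' j`, `0 < j < g`, `l m / k = j m / g`; and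
`gcd g m = 1` (a prime dividing `g` and `m` would divide `n`, `k`, `m`), so `g ∣ j m` would give
`g ∣ j`.  So `l m / k = a / k + integer` with `a = (l m) % k`, `0 < a < k`, and
`Θ (G^[i] (ψ' l q)) = exp (2 π a / k) Θ q` has distance `≥ c` from `Θ q`; if `q ∈ U₀` then
`G^[i] (ψ' l q) ∉ U₀`. -/
theorem rational_time_closable [FiniteDimensional ℝ E] [T2Space W] [CompactSpace W]
    [IsManifold I ∞ W] [I.Boundaryless] {r : ℕ∞} (ψ : ℝ → W → W) (Θ : W → Circle)
    (hψ : IsFlow I r ψ) (hΘ : IsClock I r ψ Θ) (P Q k : ℕ) (hP : 0 < P) (hQ : 0 < Q) (hk : 0 < k)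
    (G : W ≃ₘ^r⟮I, I⟯ W) (hG : ∀ q, G q = ψ ((P : ℝ) / Q) q) (p : W)
    (h : ∀ U ∈ 𝓝 p, ∀ N : ℕ, ∃ m n : ℕ, N ≤ m ∧ n * P + k = m * Q ∧
      (∀ l : ℕ, l.Prime → ¬ (l ∣ n ∧ l ∣ k ∧ l ∣ m)) ∧ ∃ q ∈ U, ψ m q ∈ U) :
    Closable I G p := by
  have hQR : (Q : ℝ) ≠ 0 := by positivity
  have hkR : (k : ℝ) ≠ 0 := by positivity
  have hiter : ∀ (i : ℕ) (t : ℝ) (q : W),
      (G : W → W)^[i] (ψ t q) = ψ (i * ((P : ℝ) / Q) + t) q := by
    intro i t q
    induction i with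
    | zero => simp
    | succ i ih =>
      rw [Function.iterate_succ_apply', ih, hG, ← hψ.2.1]
      congr 1
      push_cast
      ring
  have hsplit : ∀ u : ℝ, Circle.exp (2 * Real.pi * (u / Q)) ^ Q = Circle.exp (2 * Real.pi * u) := by
    intro u
    rw [← Circle.exp_nsmul, nsmul_eq_mul]
    congr 1
    field_simp
  refine clock_closable G (fun u q => ψ (u / Q) q) (fun q => Θ q ^ Q) ?_ ?_ ?_ ?_ ?_ ?_ ?_ p k ?_
  · intro q
    simp [hψ.1]
  · intro u v q
    show ψ ((u + v) / Q) q = ψ (u / Q) (ψ (v / Q) q)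
    rw [add_div, hψ.2.1]
  · have h1 : ContMDiff (𝓘(ℝ, ℝ).prod I) (𝓘(ℝ, ℝ).prod I) r
        (fun z : ℝ × W => (z.1 / (Q : ℝ), z.2)) := by
      refine ContMDiff.prodMk ?_ contMDiff_snd
      have h2 : ContMDiff 𝓘(ℝ, ℝ) 𝓘(ℝ, ℝ) r (fun x : ℝ => x / (Q : ℝ)) :=
        (contDiff_id.div_const (Q : ℝ)).contMDiff
      exact h2.comp contMDiff_fst
    exact hψ.2.2.comp h1
  · exact hΘ.1.pow Q
  · intro u q
    show Θ (ψ (u / Q) q) ^ Q = _ * Θ q ^ Q
    rw [hΘ.2, mul_pow, hsplit]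
  · intro u q
    show G (ψ (u / Q) q) = ψ (u / Q) (G q)
    rw [hG, hG, ← hψ.2.1, ← hψ.2.1, add_comm]
  · intro q
    show Θ (G q) ^ Q = Θ q ^ Q
    rw [hG, hΘ.2, mul_pow, hsplit]
    have h3 : Circle.exp (2 * Real.pi * (P : ℝ)) = 1 := by
      have := Circle.exp_two_pi_mul_int (P : ℤ)
      simpa using this
    rw [h3, one_mul]
  · refine ⟨hk, ?_⟩
    have hcont : Continuous Θ := hΘ.1.continuous
    -- finite set of non trivial roots
    have hfin : ((fun a : ℕ => Circle.exp (2 * Real.pi * ((a : ℝ) / k))) '' Set.Ioo 0 k).Finite :=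
      (Set.finite_Ioo 0 k).image _
    have hopen := hfin.isClosed.isOpen_compl
    have hone : (1 : Circle) ∈
        ((fun a : ℕ => Circle.exp (2 * Real.pi * ((a : ℝ) / k))) '' Set.Ioo 0 k)ᶜ := by
      rintro ⟨a, ha, hae⟩
      exact tmC_root_ne_one ha.1 ha.2 hae
    have hratio : ContinuousAt (fun z : W × W => Θ z.2 * (Θ z.1)⁻¹) (p, p) :=
      ((hcont.comp continuous_snd).mul (hcont.comp continuous_fst).inv).continuousAt
    have hpre := hratio.preimage_mem_nhds (by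
      show ((fun a : ℕ => Circle.exp (2 * Real.pi * ((a : ℝ) / k))) '' Set.Ioo 0 k)ᶜ ∈ _
      rw [mul_inv_cancel]
      exact hopen.mem_nhds hone)
    obtain ⟨U1, hU1, U2, hU2, hU12⟩ := mem_nhds_prod_iff.1 hpre
    refine ⟨U1 ∩ U2, Filter.inter_mem hU1 hU2, ?_⟩
    intro U hU N
    obtain ⟨m, n, hNm, hnm, hpr, q, hqU, hqm⟩ := h U hU (N * P + P + k)
    have hnN : N < n := by
      have h1 : m ≤ m * Q := Nat.le_mul_of_pos_right m hQ
      have h2 : (N + 1) * P ≤ n * P := by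
        have : (N + 1) * P = N * P + P := by ring
        omega
      exact Nat.lt_of_succ_le (Nat.le_of_mul_le_mul_right h2 hP)
    have hnmR : (n : ℝ) * P + k = m * Q := by exact_mod_cast hnm
    refine ⟨n, hnN.le, by omega, ⟨q, hqU, ?_⟩, ?_⟩
    · show (G : W → W)^[n] (ψ ((k : ℝ) / Q) q) ∈ U
      rw [hiter]
      have h1 : (n : ℝ) * ((P : ℝ) / Q) + (k : ℝ) / Q = m := by
        field_simp
        linarith
      rw [h1]
      exact hqm
    · intro i l hi0 hin hl0 hlk hil q hq hret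
      have hret' : (G : W → W)^[i] (ψ ((l : ℝ) / Q) q) ∈ U1 ∩ U2 := hret
      rw [hiter] at hret'
      have hilR : (i : ℝ) * k = l * n := by exact_mod_cast hil
      have h1 : (i : ℝ) * ((P : ℝ) / Q) + (l : ℝ) / Q = ((l * m : ℕ) : ℝ) / k := by
        push_cast
        have h2 : ((i : ℝ) * P + l) * k = l * m * Q := by
          have h3 : ((i : ℝ) * P + l) * k = (i * k) * P + l * k := by ring
          rw [h3, hilR]
          have h4 : (l : ℝ) * n * P + l * k = l * (n * P + k) := by ring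
          rw [h4, hnmR]
          ring
        field_simp
        linarith
      rw [h1] at hret'
      have hmem := hU12 (Set.mk_mem_prod hq.1 hret'.2)
      have hmem' : Θ (ψ (((l * m : ℕ) : ℝ) / k) q) * (Θ q)⁻¹ ∈
        ((fun a : ℕ => Circle.exp (2 * Real.pi * ((a : ℝ) / k))) '' Set.Ioo 0 k)ᶜ := hmem
      rw [hΘ.2, mul_inv_cancel_right, tmC_exp_split k (l * m) hk] at hmem'
      apply hmem'
      refine ⟨(l * m) % k, ⟨?_, Nat.mod_lt _ hk⟩, rfl⟩
      have hnd := tmC_arith hl0 hlk hil hpr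
      exact Nat.pos_of_ne_zero fun h0 => hnd (Nat.dvd_of_mod_eq_zero h0)

end Pool.Agent.SC
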