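import Pool.Agent.Lib.MP_1e8d1a_an.SC.TmA
import Pool.Agent.Lib.MP_1e8d1a_an.SC.TmB
import Pool.Agent.Lib.MP_1e8d1a_an.SC.TmC

/-! row TmD -/

open scoped ContDiff Manifold Topology

namespace Pool.Agent.SC

variable {E : Type} [NormedAddCommGroup E] [NormedSpace ℝ E] {H : Type} [TopologicalSpace H]
  {I : ModelWithCorners ℝ E H} {W : Type} [TopologicalSpace W] [ChartedSpace H W]

/-- The time-`c` map of a flow as a diffeomorphism. -/
noncomputable def TmD_time {r : ℕ∞} (ψ : ℝ → W → W) (hψ : IsFlow I r ψ) (c : ℝ) :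
    W ≃ₘ^r⟮I, I⟯ W where
  toFun := ψ c
  invFun := ψ (-c)
  left_inv := fun q => by rw [← hψ.2.1, neg_add_cancel, hψ.1]
  right_inv := fun q => by rw [← hψ.2.1, add_neg_cancel, hψ.1]
  contMDiff_toFun := by
    have h : ContMDiff I (𝓘(ℝ, ℝ).prod I) r (fun q : W => ((c : ℝ), q)) :=
      contMDiff_const.prodMk contMDiff_id
    exact hψ.2.2.comp h
  contMDiff_invFun := by
    have h : ContMDiff I (𝓘(ℝ, ℝ).prod I) r (fun q : W => ((-c : ℝ), q)) :=
      contMDiff_const.prodMk contMDiff_id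
    exact hψ.2.2.comp h

lemma TmD_time_apply {r : ℕ∞} (ψ : ℝ → W → W) (hψ : IsFlow I r ψ) (c : ℝ) (q : W) :
    TmD_time ψ hψ c q = ψ c q := rfl

theorem TmD_pos [FiniteDimensional ℝ E] [T2Space W] [CompactSpace W]
    [IsManifold I ∞ W] [I.Boundaryless] {r : ℕ∞} (F : W ≃ₘ^r⟮I, I⟯ W) (ψ : ℝ → W → W)
    (Θ : W → Circle) (hψ : IsFlow I r ψ) (hΘ : IsClock I r ψ Θ) (α : ℝ) (hα : 0 < α)
    (hF : ∀ q, F q = ψ α q) (p : W) (hp : Recurrent F.toEquiv p) : Closable I F p := by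
  have hret := integer_returns F ψ Θ hψ hΘ α hα.ne' hF p hp
  set R : Set W → Set ℕ := fun U => {m : ℕ | ∃ q ∈ U, ψ m q ∈ U} with hR
  have hmono : Monotone R := by
    intro U V hUV m hm
    obtain ⟨q, hq, hq'⟩ := hm
    exact ⟨q, hUV hq, hUV hq'⟩
  have hne : ((𝓝 p).lift' R ⊓ Filter.atTop).NeBot := by
    rw [Filter.inf_neBot_iff]
    intro s hs t ht
    rw [Filter.mem_lift'_sets hmono] at hs
    obtain ⟨U, hU, hUs⟩ := hs
    rw [Filter.mem_atTop_sets] at ht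
    obtain ⟨N, hN⟩ := ht
    obtain ⟨m, hm, hm'⟩ := hret U hU N
    exact ⟨m, hUs hm', hN m hm⟩
  set 𝒰 : Ultrafilter ℕ := Ultrafilter.of ((𝓝 p).lift' R ⊓ Filter.atTop) with h𝒰
  have hle : (𝒰 : Filter ℕ) ≤ (𝓝 p).lift' R ⊓ Filter.atTop := Ultrafilter.of_le _
  have htop : (𝒰 : Filter ℕ) ≤ Filter.atTop := hle.trans inf_le_right
  have hRU : ∀ U ∈ 𝓝 p, ∀ᶠ m : ℕ in (𝒰 : Filter ℕ), ∃ q ∈ U, ψ (m : ℝ) q ∈ U := by
    intro U hU
    exact (hle.trans inf_le_left) (Filter.mem_lift' hU)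
  refine closable_of_limit (P := ℝ) (fun z : ℝ × W => ψ (α + z.1) z.2) ?_ F ?_ p ?_
  · intro q
    have h1 : ContMDiff (𝓘(ℝ, ℝ).prod I) 𝓘(ℝ, ℝ) r (fun z : ℝ × W => α + z.1) := by
      have h2 : ContMDiff 𝓘(ℝ, ℝ) 𝓘(ℝ, ℝ) r (fun x : ℝ => α + x) :=
        (contDiff_const.add contDiff_id).contMDiff
      exact h2.comp contMDiff_fst
    have h3 : ContMDiff (𝓘(ℝ, ℝ).prod I) (𝓘(ℝ, ℝ).prod I) r
        (fun z : ℝ × W => (α + z.1, z.2)) := h1.prodMk contMDiff_snd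
    exact (hψ.2.2.comp h3).contMDiffAt
  · intro q
    simp only [add_zero]
    exact hF q
  · intro ε hε
    obtain ⟨P, Q, k, hP, hQ, hk, hPQ, hev⟩ := select 𝒰 htop α ε hα hε
    refine ⟨(P : ℝ) / Q - α, by rw [Real.norm_eq_abs]; exact hPQ,
      TmD_time ψ hψ ((P : ℝ) / Q), ?_, ?_⟩
    · intro q
      simp only [add_sub_cancel]
      rfl
    · refine rational_time_closable ψ Θ hψ hΘ P Q k hP hQ hk _ (fun q => rfl) p ?_
      intro U hU N
      have h1 := (hRU U hU).and (hev.and (htop (Filter.eventually_ge_atTop N)))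
      obtain ⟨m, hm1, ⟨n, hn1, hn2⟩, hm3⟩ := h1.exists
      exact ⟨m, n, hm3, hn1, hn2, hm1⟩

/-- All time-`α` maps of a flow with a clock.

PROOF.  `α = 0`: `F p = ψ 0 p = p`, so every neighbourhood of `F` contains `F` itself, for which
`p` is periodic (`n = 1`).  `α < 0`: replace `ψ u` by `ψ (-u)`, `Θ` by `Θ⁻¹`, `α` by `-α` (again a
flow with a clock).  So let `α > 0`.  The sets `R U = {m : ℕ | ∃ q ∈ U, ψ m q ∈ U}`, `U ∈ 𝓝 p`,
together with the sets `{m | N ≤ m}` generate a proper filter by `integer_returns`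
(`R (U ∩ V) ⊆ R U ∩ R V`; e.g. `Filter.NeBot` of `(𝓝 p).lift' R ⊓ atTop`); let `𝒰` be an
ultrafilter below it.  Apply `closable_of_limit` with `P = ℝ`, `Φ (t, q) = ψ (α + t) q` (smooth
everywhere).  For `ε > 0` take `P`, `Q`, `k` from `select 𝒰`, `t = P / Q - α`, and `G` the
diffeomorphism `ψ (P / Q)` (inverse `ψ (- P / Q)`).  `Closable G p` by `rational_time_closable`:
for `U ∈ 𝓝 p` and `N` the sets `R U`, `{m | N ≤ m}` and the set from `select` belong to `𝒰`, so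
their intersection is non empty. -/
theorem time_closable [FiniteDimensional ℝ E] [T2Space W] [CompactSpace W]
    [IsManifold I ∞ W] [I.Boundaryless] {r : ℕ∞} (F : W ≃ₘ^r⟮I, I⟯ W) (ψ : ℝ → W → W)
    (Θ : W → Circle) (hψ : IsFlow I r ψ) (hΘ : IsClock I r ψ Θ) (α : ℝ)
    (hF : ∀ q, F q = ψ α q) (p : W) (hp : Recurrent F.toEquiv p) : Closable I F p := by
  rcases lt_trichotomy α 0 with hα | hα | hα
  · refine TmD_pos F (fun u q => ψ (-u) q) (fun q => (Θ q)⁻¹) ?_ ?_ (-α) (by linarith) ?_ p hp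
    · refine ⟨fun q => ?_, fun u v q => ?_, ?_⟩
      · simp only [neg_zero]
        exact hψ.1 q
      · simp only
        rw [neg_add, hψ.2.1]
      · have h1 : ContMDiff (𝓘(ℝ, ℝ).prod I) 𝓘(ℝ, ℝ) r (fun z : ℝ × W => -z.1) := by
          have h2 : ContMDiff 𝓘(ℝ, ℝ) 𝓘(ℝ, ℝ) r (fun x : ℝ => -x) := contDiff_neg.contMDiff
          exact h2.comp contMDiff_fst
        have h3 : ContMDiff (𝓘(ℝ, ℝ).prod I) (𝓘(ℝ, ℝ).prod I) r
            (fun z : ℝ × W => (-z.1, z.2)) := h1.prodMk contMDiff_snd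
        exact hψ.2.2.comp h3
    · refine ⟨hΘ.1.inv, fun u q => ?_⟩
      simp only
      rw [hΘ.2, mul_inv, show 2 * Real.pi * -u = -(2 * Real.pi * u) by ring, Circle.exp_neg,
        inv_inv]
    · intro q
      simp only [neg_neg]
      exact hF q
  · intro U hU
    refine ⟨F, @mem_of_mem_nhds _ (crTopology I r) _ _ hU, 1, one_pos, ?_⟩
    rw [Function.iterate_one, hF, hα, hψ.1]
  · exact TmD_pos F ψ Θ hψ hΘ α hα hF p hp

end Pool.Agent.SC
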