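import Pool.Agent.Lib.MP_1e8d1a_an.SC.RotB
import Pool.Agent.Lib.MP_1e8d1a_an.SC.HypF
import Pool.Agent.Lib.MP_1e8d1a_an.SC.TmD

/-! The final theorem. -/

open scoped ContDiff Manifold Topology

namespace Pool.Agent.SC

theorem main :
    (∀ (r : ℕ∞) (E : Type) [NormedAddCommGroup E] [NormedSpace ℝ E] [FiniteDimensional ℝ E]
      (H : Type) [TopologicalSpace H] (I : ModelWithCorners ℝ E H) [I.Boundaryless]
      (M : Type) [TopologicalSpace M] [T2Space M] [CompactSpace M] [ChartedSpace H M]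
      [IsManifold I ∞ M] (f : M ≃ₘ^r⟮I, I⟯ M) (x : M), Recurrent f.toEquiv x →
      (∀ (α : ℝ) (w : Circle), RotClosable I r f α x w) ∧
      (∀ (a b c d : ℤ), a * d - b * c = 1 → 2 < |a + d| → ∀ w : Circle × Circle,
        TorusClosable I r f a b c d x w)) ∧
    (∀ (r : ℕ∞) (E : Type) [NormedAddCommGroup E] [NormedSpace ℝ E] [FiniteDimensional ℝ E]
      (H : Type) [TopologicalSpace H] (I : ModelWithCorners ℝ E H) [I.Boundaryless]
      (W : Type) [TopologicalSpace W] [T2Space W] [CompactSpace W] [ChartedSpace H W]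
      [IsManifold I ∞ W] (F : W ≃ₘ^r⟮I, I⟯ W) (ψ : ℝ → W → W) (Θ : W → Circle) (p : W),
      IsFlow I r ψ → IsClock I r ψ Θ →
      ((∃ α : ℝ, ∀ q, F q = ψ α q) → Recurrent F.toEquiv p → Closable I F p) ∧
      ((∀ u q, F (ψ u q) = ψ u (F q)) → (∀ q, Θ (F q) = Θ q) →
        (∀ U ∈ 𝓝 p, ∀ N : ℕ, ∃ n ≥ N, ∃ q ∈ U, (F : W → W)^[n] (ψ 1 q) ∈ U) →
        Closable I F p)) := by
  refine ⟨fun r E _ _ _ H _ I _ M _ _ _ _ _ f x hx => ⟨fun α w F hF =>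
    rot_closable f x hx w α F fun y z => hF (y, z),
    fun a b c d h1 h2 w F hF => hyp_closable f x hx a b c d h1 h2 w.1 w.2 F
      fun y u v => hF (y, u, v)⟩, ?_⟩
  intro r E _ _ _ H _ I _ W _ _ _ _ _ F ψ Θ p hψ hΘ
  refine ⟨fun ⟨α, hα⟩ hp => time_closable F ψ Θ hψ hΘ α hα p hp, ?_⟩
  obtain ⟨h0, h1, h2⟩ := hψ
  obtain ⟨h3, h4⟩ := hΘ
  intro h5 h6 hp
  refine clock_closable F ψ Θ h0 h1 h2 h3 h4 h5 h6 p 1 ⟨one_pos, Set.univ, Filter.univ_mem,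
    fun U hU N => ?_⟩
  obtain ⟨n, hn, q, hq, hq2⟩ := hp U hU (N + 1)
  refine ⟨n, by omega, by omega, ⟨q, hq, by simpa using hq2⟩, fun i l _ _ hl hl1 => ?_⟩
  omega

end Pool.Agent.SC
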