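import Pool.Agent.Lib.MP_1e8d1a_an.SC.Defs2

/-! row PhiA -/

open scoped ContDiff Manifold Topology

namespace Pool.Agent.SC

/-- PROOF.  `sin (k π) = 0`. -/
theorem Ph_nat_mul_pi (lam : ℝ) (k : ℕ) : Ph lam (k * Real.pi) = k * Real.pi := by
  simp [Ph]

/-- PROOF. `arctan` has values in `(-π/2, π/2)`. -/
theorem abs_Ph_sub_lt (lam t : ℝ) : |Ph lam t - t| < Real.pi / 2 := by
  have h : Ph lam t - t =
    Real.arctan ((lam - 1) * Real.sin t * Real.cos t /
      (Real.cos t ^ 2 + lam * Real.sin t ^ 2)) := by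
    simp [Ph]
  rw [h, abs_lt]
  exact ⟨Real.neg_pi_div_two_lt_arctan _, Real.arctan_lt_pi_div_two _⟩

/-- The direction of `cos t + i lam sin t` is `exp (i Ph lam t)`.

PROOF.  Let `C = cos t`, `S = sin t`, `D = C ^ 2 + lam S ^ 2 > 0`, `x = (lam - 1) S C / D`,
`ρ = sqrt (1 + x ^ 2)`.  `exp (i arctan x) = (1 + i x) / ρ` (`Real.cos_arctan`,
`Real.sin_arctan`).  So `exp (i Ph) = (C + i S)(1 + i x) / ρ`, and
`(C + i S)(1 + i x) D = (C + i S)(D + i (lam - 1) S C)`; real part
`C D - (lam - 1) S ^ 2 C = C (C ^ 2 + S ^ 2) = C`; imaginary part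
`S D + (lam - 1) S C ^ 2 = S (C ^ 2 + lam S ^ 2 + lam C ^ 2 - C ^ 2) = lam S`.  So
`exp (i Ph) * (ρ D) = C + i lam S`, and `ρ D > 0` must be the norm of the right hand side
(take norms, `‖exp (i real)‖ = 1`). -/
theorem exp_Ph {lam : ℝ} (hlam : 0 < lam) (t : ℝ) :
    Complex.exp (Ph lam t * Complex.I) *
      (‖(Real.cos t : ℂ) + (lam * Real.sin t : ℝ) * Complex.I‖ : ℝ) =
      (Real.cos t : ℂ) + (lam * Real.sin t : ℝ) * Complex.I := by
  set C := Real.cos t with hC
  set S := Real.sin t with hS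
  have hCS : C ^ 2 + S ^ 2 = 1 := Real.cos_sq_add_sin_sq t
  set D := C ^ 2 + lam * S ^ 2 with hD
  have hDpos : 0 < D := by
    rcases eq_or_ne S 0 with h | h
    · have : C ^ 2 = 1 := by rw [h] at hCS; simpa using hCS
      rw [hD, h, this]; norm_num
    · have : 0 < S ^ 2 := by positivity
      have h2 : 0 ≤ C ^ 2 := sq_nonneg C
      have h3 : 0 < lam * S ^ 2 := mul_pos hlam this
      linarith
  set x := (lam - 1) * S * C / D with hx
  have hxD : x * D = (lam - 1) * S * C := by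
    rw [hx]; field_simp
  set ρ := Real.sqrt (1 + x ^ 2) with hρ
  have hρpos : 0 < ρ := Real.sqrt_pos.2 (by positivity)
  have hPh : Ph lam t = t + Real.arctan x := rfl
  have e1 : Real.cos (Ph lam t) * (ρ * D) = C := by
    rw [hPh, Real.cos_add, Real.cos_arctan, Real.sin_arctan]
    have : (Real.cos t * (1 / Real.sqrt (1 + x ^ 2)) - Real.sin t * (x / Real.sqrt (1 + x ^ 2))) *
        (ρ * D) = C * D - S * (x * D) := by
      rw [← hρ, ← hC, ← hS]
      field_simp
    rw [this, hxD, hD]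
    linear_combination C * hCS
  have e2 : Real.sin (Ph lam t) * (ρ * D) = lam * S := by
    rw [hPh, Real.sin_add, Real.cos_arctan, Real.sin_arctan]
    have : (Real.sin t * (1 / Real.sqrt (1 + x ^ 2)) + Real.cos t * (x / Real.sqrt (1 + x ^ 2))) *
        (ρ * D) = S * D + C * (x * D) := by
      rw [← hρ, ← hC, ← hS]
      field_simp
    rw [this, hxD, hD]
    linear_combination lam * S * hCS
  have key : Complex.exp (Ph lam t * Complex.I) * ((ρ * D : ℝ) : ℂ) =
      (C : ℂ) + (lam * S : ℝ) * Complex.I := by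
    rw [Complex.exp_mul_I, ← Complex.ofReal_cos, ← Complex.ofReal_sin]
    rw [← e1, ← e2]
    push_cast
    ring
  have hn : ‖(C : ℂ) + (lam * S : ℝ) * Complex.I‖ = ρ * D := by
    rw [← key, norm_mul, Complex.norm_exp_ofReal_mul_I, one_mul, Complex.norm_real,
      Real.norm_eq_abs, abs_of_pos (mul_pos hρpos hDpos)]
  rw [hn]
  exact key

/-- PROOF.  `Ph lam (k π) = k π`, so `pt lam (k π) = exp (2 π i k) = 1`. -/
theorem pt_nat_mul_pi (lam : ℝ) (k : ℕ) : pt lam (k * Real.pi) = 1 := by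
  rw [pt, Ph_nat_mul_pi]
  apply Circle.ext
  rw [Circle.coe_exp, Circle.coe_one, Complex.exp_eq_one_iff]
  exact ⟨k, by push_cast; ring⟩

/-- PROOF.  `|sin (l x)| ≤ l |sin x|` by induction on `l`. -/
theorem abs_sin_nat_mul_le (l : ℕ) (x : ℝ) : |Real.sin (l * x)| ≤ l * |Real.sin x| := by
  induction l with
  | zero => simp
  | succ l ih =>
    push_cast
    rw [add_mul, one_mul, Real.sin_add]
    calc |Real.sin (l * x) * Real.cos x + Real.cos (l * x) * Real.sin x|
        ≤ |Real.sin (l * x) * Real.cos x| + |Real.cos (l * x) * Real.sin x| := abs_add_le _ _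
      _ = |Real.sin (l * x)| * |Real.cos x| + |Real.cos (l * x)| * |Real.sin x| := by
          rw [abs_mul, abs_mul]
      _ ≤ |Real.sin (l * x)| * 1 + 1 * |Real.sin x| := by
          gcongr
          · exact Real.abs_cos_le_one x
          · exact Real.abs_cos_le_one _
      _ ≤ l * |Real.sin x| + |Real.sin x| := by linarith
      _ = (l + 1) * |Real.sin x| := by ring

end Pool.Agent.SC
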