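import Pool.Agent.Lib.MP_1e8d1a_an.SC.ClkF
import Pool.Agent.Lib.MP_1e8d1a_an.SC.Rec

/-! row RotA -/

open scoped ContDiff Manifold Topology

namespace Pool.Agent.SC

variable {V : Type} [NormedAddCommGroup V] [NormedSpace ℝ V] [FiniteDimensional ℝ V]
  {H : Type} [TopologicalSpace H] {I : ModelWithCorners ℝ V H} [I.Boundaryless]
  {M : Type} [TopologicalSpace M] [T2Space M] [CompactSpace M] [ChartedSpace H M]
  [IsManifold I ∞ M]

theorem RotA_exists_lower (S : Finset ℕ) (g : ℕ → ℝ) (h : ∀ l ∈ S, 0 < g l) :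
    ∃ c : ℝ, 0 < c ∧ ∀ l ∈ S, 2 * c ≤ g l := by
  classical
  induction S using Finset.induction_on with
  | empty => exact ⟨1, one_pos, by simp⟩
  | insert a S ha ih =>
    obtain ⟨c, hc, hc'⟩ := ih fun l hl => h l (Finset.mem_insert_of_mem hl)
    have hga := h a (Finset.mem_insert_self a S)
    refine ⟨min c (g a / 2), lt_min hc (by linarith), fun l hl => ?_⟩
    rcases Finset.mem_insert.1 hl with rfl | hl
    · have := min_le_right c (g l / 2)
      linarith
    · have h1 := min_le_left c (g a / 2)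
      have h2 := hc' l hl
      linarith

theorem RotA_exp_ne_one {l Q : ℕ} (hl : 0 < l) (hlQ : l < Q) :
    Circle.exp (2 * Real.pi * (l / Q)) ≠ 1 := by
  intro h
  obtain ⟨n, hn⟩ := Circle.exp_eq_one.1 h
  have hQ : (0 : ℝ) < Q := by exact_mod_cast hl.trans hlQ
  have h1 : (l : ℝ) / Q = n := by
    have h2 : 2 * Real.pi * ((l : ℝ) / Q) = 2 * Real.pi * n := by rw [hn]; ring
    exact mul_left_cancel₀ (by positivity) h2
  have h3 : (0 : ℝ) < (l : ℝ) / Q := by
    have : (0 : ℝ) < l := by exact_mod_cast hl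
    positivity
  have h4 : (l : ℝ) / Q < 1 := by
    rw [div_lt_one hQ]
    exact_mod_cast hlQ
  rw [h1] at h3 h4
  have h5 : (0 : ℤ) < n := by exact_mod_cast h3
  have h6 : n < (1 : ℤ) := by exact_mod_cast h4
  omega

theorem RotA_pow_eq_one (P : ℤ) {Q : ℕ} (hQ : 0 < Q) {n : ℕ} (hn : Q ∣ n) :
    Circle.exp (2 * Real.pi * P / Q) ^ n = 1 := by
  obtain ⟨m, rfl⟩ := hn
  rw [pow_mul, ← Circle.exp_natCast_mul]
  have hQ' : (Q : ℝ) ≠ 0 := by exact_mod_cast hQ.ne'
  have e : (Q : ℝ) * (2 * Real.pi * P / Q) = 2 * Real.pi * P := by field_simp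
  rw [e, Circle.exp_two_pi_mul_int, one_pow]

theorem RotA_iterate {M' : Type*} (f : M' → M') (F : M' × Circle → M' × Circle) (ζ : Circle)
    (hF : ∀ y z, F (y, z) = (f y, ζ * z)) (n : ℕ) (y : M') (z : Circle) :
    F^[n] (y, z) = (f^[n] y, ζ ^ n * z) := by
  induction n with
  | zero => simp
  | succ n ih =>
    rw [Function.iterate_succ_apply', ih, hF, Function.iterate_succ_apply', pow_succ', mul_assoc]

/-- Rational rotations.

PROOF.  `clock_closable` with `ψ u (y, z) = (y, exp (2 π u / Q) z)`, `Θ (y, z) = z ^ Q`, `k = Q`.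
Smoothness: `contMDiff_circleExp`, multiplication in the Lie group `Circle`, `ContMDiff.pow`.
`Θ (ψ u q) = exp (2 π u / Q) ^ Q * z ^ Q = exp (2 π u) Θ q`; `Θ (F q) = exp (2 π P / Q) ^ Q z ^ Q =
z ^ Q`; `F` commutes with `ψ`.  `ClockReturns F ψ (x, w) Q`: let `c > 0` with
`2 c ≤ ‖exp (2 π l / Q) - 1‖` for all `0 < l < Q` (finitely many, all non zero: `Circle.exp` of
`2 π l / Q`, `0 < l / Q < 1`, is not `1`) and `U₀ = {q | ‖(q.2 : ℂ) - w‖ < c}`.  Let
`U ∈ 𝓝 (x, w)`, `U ⊇ A ×ˢ B`; by `returns_of_recurrent` (with `m = Q * Q`,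
`f.toHomeomorph`) there are `n ≥ N`, `n > 0`, `Q ^ 2 ∣ n`, `y ∈ A` with `f^[n] y ∈ A`.  For
`q = (y, w)`: `ψ Q q = q` and `F^[n] q = (f^[n] y, exp (2 π P / Q) ^ n w) = (f^[n] y, w) ∈ U`.
If `0 < l < Q` and `i Q = l n`, then `i = l (n / Q)`, so `Q ∣ i` and
`F^[i] (ψ l (y, z)) = (f^[i] y, exp (2 π l / Q) z)`; if `‖z - w‖ < c` then
`‖exp (2 π l / Q) z - w‖ ≥ ‖exp (2 π l / Q) z - z‖ - ‖z - w‖ > 2 c - c = c`. -/
theorem rot_rational {r : ℕ∞} (f : M ≃ₘ^r⟮I, I⟯ M) (x : M)
    (hx : Recurrent f.toEquiv x) (w : Circle) (P : ℤ) (Q : ℕ) (hQ : 0 < Q)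
    (F : (M × Circle) ≃ₘ^r⟮I.prod (𝓡 1), I.prod (𝓡 1)⟯ (M × Circle))
    (hF : ∀ y z, F (y, z) = (f y, Circle.exp (2 * Real.pi * P / Q) * z)) :
    Closable (I.prod (𝓡 1)) F (x, w) := by
  have hQ' : (Q : ℝ) ≠ 0 := by exact_mod_cast hQ.ne'
  obtain ⟨ψ, hψ⟩ : ∃ ψ : ℝ → M × Circle → M × Circle,
      ψ = fun u q => (q.1, Circle.exp (2 * Real.pi * (u / Q)) * q.2) := ⟨_, rfl⟩
  obtain ⟨Θ, hΘ⟩ : ∃ Θ : M × Circle → Circle, Θ = fun q => q.2 ^ Q := ⟨_, rfl⟩
  refine clock_closable F ψ Θ ?_ ?_ ?_ ?_ ?_ ?_ ?_ (x, w) Q ?_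
  · intro q
    rw [hψ]
    simp
  · intro u v q
    rw [hψ]
    simp only
    rw [← mul_assoc, ← Circle.exp_add]
    congr 3
    ring
  · rw [hψ]
    refine ContMDiff.prodMk (contMDiff_fst.comp contMDiff_snd) ?_
    refine ContMDiff.mul ?_ (contMDiff_snd.comp contMDiff_snd)
    refine contMDiff_circleExp.comp ?_
    have h1 : ContDiff ℝ r (fun u : ℝ => 2 * Real.pi * (u / Q)) := by fun_prop
    exact h1.contMDiff.comp contMDiff_fst
  · rw [hΘ]
    exact contMDiff_snd.pow Q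
  · intro u q
    rw [hψ, hΘ]
    simp only
    rw [mul_pow, ← Circle.exp_natCast_mul]
    congr 2
    field_simp
  · intro u q
    obtain ⟨y, z⟩ := q
    rw [hψ]
    simp only
    rw [hF, hF]
    simp only
    rw [mul_left_comm]
  · intro q
    obtain ⟨y, z⟩ := q
    rw [hΘ]
    simp only
    rw [hF]
    simp only
    rw [mul_pow, RotA_pow_eq_one P hQ dvd_rfl, one_mul]
  · -- returns
    obtain ⟨c, hc, hcl⟩ := RotA_exists_lower ((Finset.range Q).filter (fun l => 0 < l))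
      (fun l => ‖(Circle.exp (2 * Real.pi * (l / Q)) : ℂ) - 1‖) (by
        intro l hl
        rw [Finset.mem_filter, Finset.mem_range] at hl
        rw [norm_pos_iff, sub_ne_zero]
        intro h
        exact RotA_exp_ne_one hl.2 hl.1 (Subtype.ext h))
    refine ⟨hQ, {q | ‖((q.2 : Circle) : ℂ) - w‖ < c}, ?_, ?_⟩
    · refine IsOpen.mem_nhds ?_ ?_
      · refine isOpen_lt ?_ continuous_const
        exact ((continuous_subtype_val.comp continuous_snd).sub continuous_const).norm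
      · simpa using hc
    · intro U hU N
      obtain ⟨A, hA, B, hB, hAB⟩ := mem_nhds_prod_iff.1 hU
      obtain ⟨n, hNn, hn, hdvd, y, hyA, hyA'⟩ := returns_of_recurrent f.toHomeomorph x hx (Q * Q)
        (Nat.mul_pos hQ hQ) N A hA
      obtain ⟨m, hm⟩ := hdvd
      have hwB : w ∈ B := mem_of_mem_nhds hB
      have hQn : Q ∣ n := ⟨Q * m, by rw [hm, mul_assoc]⟩
      refine ⟨n, hNn, hn, ⟨(y, w), hAB ⟨hyA, hwB⟩, ?_⟩, ?_⟩
      · have e1 : ψ Q (y, w) = (y, w) := by
          rw [hψ]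
          simp only
          rw [div_self hQ', mul_one, Circle.exp_two_pi, one_mul]
        rw [e1, RotA_iterate (f : M → M) F _ hF, RotA_pow_eq_one P hQ hQn, one_mul]
        exact hAB ⟨hyA', hwB⟩
      · intro i l hi _ hl hlQ hil q hq hq'
        obtain ⟨y', z⟩ := q
        have hQi : Q ∣ i := by
          refine ⟨l * m, ?_⟩
          have : Q * i = Q * (Q * (l * m)) := by
            calc Q * i = i * Q := mul_comm _ _
              _ = l * n := hil
              _ = Q * (Q * (l * m)) := by rw [hm]; ring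
          exact Nat.eq_of_mul_eq_mul_left hQ this
        have e1 : ψ l (y', z) = (y', Circle.exp (2 * Real.pi * (l / Q)) * z) := by rw [hψ]
        rw [e1, RotA_iterate (f : M → M) F _ hF, RotA_pow_eq_one P hQ hQi, one_mul] at hq'
        simp only [Set.mem_ofPred_eq] at hq hq'
        have h1 := hcl l (by rw [Finset.mem_filter, Finset.mem_range]; exact ⟨hlQ, hl⟩)
        have h2 : ((Circle.exp (2 * Real.pi * (l / Q)) * z : Circle) : ℂ) - w =
            ((Circle.exp (2 * Real.pi * (l / Q)) : ℂ) - 1) * z + ((z : ℂ) - w) := by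
          rw [Circle.coe_mul]
          ring
        have h3 : ‖((Circle.exp (2 * Real.pi * (l / Q)) : ℂ) - 1) * z‖ =
            ‖(Circle.exp (2 * Real.pi * (l / Q)) : ℂ) - 1‖ := by
          rw [norm_mul, Circle.norm_coe, mul_one]
        have h4 : ‖((Circle.exp (2 * Real.pi * (l / Q)) : ℂ) - 1) * z‖ ≤
            ‖((Circle.exp (2 * Real.pi * (l / Q)) * z : Circle) : ℂ) - w‖ + ‖(z : ℂ) - w‖ := by
          have e2 : ((Circle.exp (2 * Real.pi * (l / Q)) : ℂ) - 1) * z =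
              (((Circle.exp (2 * Real.pi * (l / Q)) * z : Circle) : ℂ) - w) - ((z : ℂ) - w) := by
            rw [h2]
            ring
          rw [e2]
          exact norm_sub_le _ _
        rw [h3] at h4
        linarith

end Pool.Agent.SC
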