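import Pool.Agent.Lib.MP_1e8d1a_an.SC.RotA

/-! row RotB -/

open scoped ContDiff Manifold Topology

namespace Pool.Agent.SC

variable {V : Type} [NormedAddCommGroup V] [NormedSpace ℝ V] [FiniteDimensional ℝ V]
  {H : Type} [TopologicalSpace H] {I : ModelWithCorners ℝ V H} [I.Boundaryless]
  {M : Type} [TopologicalSpace M] [T2Space M] [CompactSpace M] [ChartedSpace H M]
  [IsManifold I ∞ M]

/-- smoothness of `(t, y, z) ↦ (y, exp (c + t) * z)` -/
private lemma RotB_smooth {r : ℕ∞} (c : ℝ) :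
    ContMDiff (𝓘(ℝ, ℝ).prod (I.prod (𝓡 1))) (I.prod (𝓡 1)) r
      (fun z : ℝ × (M × Circle) => (z.2.1, Circle.exp (c + z.1) * z.2.2)) := by
  have h1 : ContMDiff (𝓘(ℝ, ℝ).prod (I.prod (𝓡 1))) I r
      (fun z : ℝ × (M × Circle) => z.2.1) := contMDiff_fst.comp contMDiff_snd
  have h2 : ContMDiff (𝓘(ℝ, ℝ).prod (I.prod (𝓡 1))) (𝓡 1) r
      (fun z : ℝ × (M × Circle) => z.2.2) := contMDiff_snd.comp contMDiff_snd
  have h3 : ContMDiff (𝓘(ℝ, ℝ).prod (I.prod (𝓡 1))) 𝓘(ℝ, ℝ) r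
      (fun z : ℝ × (M × Circle) => c + z.1) := by
    have hc : ContMDiff 𝓘(ℝ, ℝ) 𝓘(ℝ, ℝ) r (fun t : ℝ => c + t) :=
      (contDiff_const.add contDiff_id).contMDiff
    exact hc.comp contMDiff_fst
  have h4 : ContMDiff (𝓘(ℝ, ℝ).prod (I.prod (𝓡 1))) (𝓡 1) r
      (fun z : ℝ × (M × Circle) => Circle.exp (c + z.1)) :=
    (contMDiff_circleExp (m := r)).comp h3
  exact h1.prodMk (h4.mul h2)

private lemma RotB_smooth' {r : ℕ∞} (c : ℝ) :
    ContMDiff (I.prod (𝓡 1)) (I.prod (𝓡 1)) r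
      (fun z : M × Circle => (z.1, Circle.exp c * z.2)) :=
  contMDiff_fst.prodMk (contMDiff_const.mul contMDiff_snd)

/-- the rotation -/
private noncomputable def RotB_rot {r : ℕ∞} (c : ℝ) :
    (M × Circle) ≃ₘ^r⟮I.prod (𝓡 1), I.prod (𝓡 1)⟯ (M × Circle) where
  toFun z := (z.1, Circle.exp c * z.2)
  invFun z := (z.1, Circle.exp (-c) * z.2)
  left_inv z := by
    simp only [← mul_assoc, ← Circle.exp_add]
    simp
  right_inv z := by
    simp only [← mul_assoc, ← Circle.exp_add]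
    simp
  contMDiff_toFun := RotB_smooth' c
  contMDiff_invFun := RotB_smooth' (-c)

/-- All rotations.

PROOF.  `closable_of_limit` with `P = ℝ`, `Φ (t, (y, z)) = (f y, exp (α + t) z)`.  For `ε > 0`
choose a rational `P / Q` with `|2 π P / Q - α| < ε` (density of `ℚ`), `t = 2 π P / Q - α`,
`G = F` composed with the diffeomorphism `(y, z) ↦ (y, exp t * z)` (construct it: smooth with the
smooth inverse `(y, z) ↦ (y, exp (-t) * z)`), and `rot_rational`. -/
theorem rot_closable {r : ℕ∞} (f : M ≃ₘ^r⟮I, I⟯ M) (x : M)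
    (hx : Recurrent f.toEquiv x) (w : Circle) (α : ℝ)
    (F : (M × Circle) ≃ₘ^r⟮I.prod (𝓡 1), I.prod (𝓡 1)⟯ (M × Circle))
    (hF : ∀ y z, F (y, z) = (f y, Circle.exp α * z)) :
    Closable (I.prod (𝓡 1)) F (x, w) := by
  have hcomp : ∀ z : ℝ × (M × Circle), (f z.2.1, Circle.exp (α + z.1) * z.2.2) =
      F (z.2.1, Circle.exp (0 + z.1) * z.2.2) := by
    intro z
    rw [hF, ← mul_assoc, ← Circle.exp_add, zero_add]
  refine closable_of_limit (I := I.prod (𝓡 1)) (P := ℝ)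
    (fun z : ℝ × (M × Circle) => (f z.2.1, Circle.exp (α + z.1) * z.2.2)) ?_ F ?_ (x, w) ?_
  · intro q
    simp only [hcomp]
    exact (F.contMDiff.comp (RotB_smooth 0)).contMDiffAt
  · rintro ⟨y, z⟩
    simp [hF]
  · intro ε hε
    have hpi : (0 : ℝ) < 2 * Real.pi := by positivity
    obtain ⟨q, hq1, hq2⟩ := exists_rat_btwn
      (show (α - ε) / (2 * Real.pi) < (α + ε) / (2 * Real.pi) from
        div_lt_div_of_pos_right (by linarith) hpi)
    rw [div_lt_iff₀ hpi] at hq1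
    rw [lt_div_iff₀ hpi] at hq2
    have hqd : (2 * Real.pi * (q.num : ℤ) / (q.den : ℕ) : ℝ) = 2 * Real.pi * q := by
      have : ((q.num : ℝ) / (q.den : ℝ)) = (q : ℝ) := by exact_mod_cast Rat.num_div_den q
      rw [← this]; ring
    refine ⟨2 * Real.pi * q - α, ?_, (RotB_rot (2 * Real.pi * q - α)).trans F, ?_, ?_⟩
    · rw [Real.norm_eq_abs, abs_lt]
      constructor <;> linarith
    · rintro ⟨y, z⟩
      change F (y, Circle.exp (2 * Real.pi * q - α) * z) = _
      rw [hF, ← mul_assoc, ← Circle.exp_add]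
    · apply rot_rational f x hx w q.num q.den q.den_pos
      intro y z
      change F (y, Circle.exp (2 * Real.pi * q - α) * z) = _
      rw [hF, ← mul_assoc, ← Circle.exp_add, hqd]
      congr 3
      ring

end Pool.Agent.SC
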