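import Mathlib

/-! row TmA -/

namespace Pool.Agent.SC

theorem TmA_near (α ε : ℝ) (hα : 0 < α) (hε : 0 < ε) :
    ∃ P0 : ℕ, ∀ P : ℕ, P0 ≤ P → ∃ Q : ℕ, 0 < Q ∧ |(P : ℝ) / Q - α| < ε ∧
      |(P : ℝ) / ((Q + 1 : ℕ) : ℝ) - α| < ε := by
  obtain ⟨P0, hP0⟩ := exists_nat_gt (2 * α ^ 2 / ε)
  refine ⟨P0, fun P hP => ⟨⌈(P : ℝ) / α⌉₊, ?_⟩⟩
  have hPR : 2 * α ^ 2 / ε < P := hP0.trans_le (by exact_mod_cast hP)
  have hP1 : 0 < (P : ℝ) := lt_of_le_of_lt (by positivity) hPR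
  set Q := ⌈(P : ℝ) / α⌉₊ with hQ
  have h1 : (P : ℝ) / α ≤ Q := Nat.le_ceil _
  have h2 : (Q : ℝ) < P / α + 1 := Nat.ceil_lt_add_one (by positivity)
  have hQ0 : 0 < (Q : ℝ) := lt_of_lt_of_le (by positivity) h1
  have h3 : (P : ℝ) ≤ Q * α := (div_le_iff₀ hα).1 h1
  have h4 : (Q : ℝ) * α < P + α := by
    have := mul_lt_mul_of_pos_right h2 hα
    rwa [add_mul, one_mul, div_mul_cancel₀ _ hα.ne'] at this
  have h5 : 2 * α < ε * Q := by
    have h6 : 2 * α ^ 2 < P * ε := (div_lt_iff₀ hε).1 hPR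
    have h7 : 2 * α ^ 2 < (Q * α) * ε := h6.trans_le (mul_le_mul_of_nonneg_right h3 hε.le)
    have h8 : (2 * α) * α < (ε * Q) * α := by nlinarith
    exact lt_of_mul_lt_mul_right h8 hα.le
  have hQ1 : (0 : ℝ) < ((Q + 1 : ℕ) : ℝ) := by positivity
  refine ⟨by exact_mod_cast hQ0, ?_, ?_⟩
  · rw [abs_lt]
    constructor
    · have : α - ε < (P : ℝ) / Q := by
        rw [lt_div_iff₀ hQ0]
        nlinarith
      linarith
    · have : (P : ℝ) / Q < α + ε := by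
        rw [div_lt_iff₀ hQ0]
        nlinarith
      linarith
  · rw [abs_lt]
    push_cast at hQ1 ⊢
    constructor
    · have : α - ε < (P : ℝ) / (Q + 1) := by
        rw [lt_div_iff₀ hQ1]
        nlinarith
      linarith
    · have : (P : ℝ) / (Q + 1) < α + ε := by
        rw [div_lt_iff₀ hQ1]
        nlinarith
      linarith

theorem TmA_res (𝒰 : Ultrafilter ℕ) (g : ℕ → ℕ) (M : ℕ) (hM : ∀ m, g m < M) :
    ∃ c, ∀ᶠ m in (𝒰 : Filter ℕ), g m = c := by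
  have h1 : (⋃ c ∈ Set.Iio M, {m | g m = c}) ∈ 𝒰 := by
    have : (⋃ c ∈ Set.Iio M, {m | g m = c}) = Set.univ := by
      ext m
      simp [hM m]
    rw [this]
    exact Filter.univ_mem
  obtain ⟨c, _, hc⟩ := (Ultrafilter.finite_biUnion_mem_iff (Set.finite_Iio M)).1 h1
  exact ⟨c, hc⟩

/-- Selection of the parameters (elementary number theory, uses Dirichlet's theorem).
`𝒰` is an ultrafilter of return times tending to infinity.

PROOF.  For every modulus `M ≥ 1` there is a residue `c` with `∀ᶠ m in 𝒰, m % M = c`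
(ultrafilter, finitely many classes), and for every property either it or its negation holds
eventually.  NOTE: for `P` large (depending on `α`, `ε`) both `Q = ⌈P / α⌉` and `Q + 1` satisfy
`|P / Q - α| < ε` (and are positive).
Case A: there is a prime `π` such that for all `e`, `∀ᶠ m in 𝒰, π ^ e ∣ m`.  Take `P = π ^ e`, `e`
large (`e ≥ 1`), `Q` as above, `k = P`.  For `m` with `π ^ (e + 1) ∣ m` (and `m > 0`):
`n = m Q / P - 1`, `n P + k = m Q`; the only prime dividing `k` is `π`, and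
`n ≡ -1 mod π`, so `π ∤ n`.
Case B: for every prime `π` there is `e` with `∀ᶠ m in 𝒰, ¬ π ^ e ∣ m`.
Case B1: infinitely many primes `π` satisfy `∀ᶠ m in 𝒰, π ∣ m`.  Take such a prime `π = P` large,
`k = π`.  If `∀ᶠ m, π ^ 2 ∣ m` argue as in case A (`e = 1`).  Otherwise `∀ᶠ m, ¬ π ^ 2 ∣ m`, and
`(m / π) % π = c` eventually, with `c ≠ 0`; among `Q`, `Q + 1` choose the one, say `Q'`, with
`Q' c ≢ 1 mod π` (they cannot both be `≡ 1` since `c ≢ 0`); `n = (m / π) Q' - 1 ≡ c Q' - 1 ≢ 0`.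
Case B2: for all primes `π ≥ π₀`: `∀ᶠ m in 𝒰, ¬ π ∣ m`.  Take a prime `P ≥ π₀` large, `Q` or
`Q + 1` not divisible by `P`, call it `Q'`, and the residue `c` of `m` mod `P`, `c ≠ 0`.  By
Dirichlet (`Nat.forall_exists_prime_gt_and_eq_mod` or similar in Mathlib) there is a prime
`k ≥ π₀` with `k ≡ Q' c mod P`.  Then `m Q' - k` is divisible by `P` (and nonnegative for `m`
large), `n = (m Q' - k) / P`, and `k ∤ m` eventually, so no prime divides `k` and `m`. -/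
theorem select (𝒰 : Ultrafilter ℕ) (h : (𝒰 : Filter ℕ) ≤ Filter.atTop) (α ε : ℝ) (hα : 0 < α)
    (hε : 0 < ε) :
    ∃ P Q k : ℕ, 0 < P ∧ 0 < Q ∧ 0 < k ∧ |(P : ℝ) / Q - α| < ε ∧
      ∀ᶠ m in (𝒰 : Filter ℕ), ∃ n : ℕ, n * P + k = m * Q ∧
        ∀ l : ℕ, l.Prime → ¬ (l ∣ n ∧ l ∣ k ∧ l ∣ m) := by
  obtain ⟨P0, hP0⟩ := TmA_near α ε hα hε
  have hpos : ∀ᶠ m in (𝒰 : Filter ℕ), 0 < m := (Filter.eventually_gt_atTop 0).filter_mono h
  by_cases hB : ∀ N : ℕ, ∃ π : ℕ, π.Prime ∧ N < π ∧ ∀ᶠ m in (𝒰 : Filter ℕ), π ∣ m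
  · obtain ⟨π, hπ, hπ1, hdiv⟩ := hB P0
    obtain ⟨Q, hQ, hq1, hq2⟩ := hP0 π hπ1.le
    obtain ⟨c, hc⟩ := TmA_res 𝒰 (fun m => (m / π) % π) π (fun m => Nat.mod_lt _ hπ.pos)
    obtain ⟨Q', hQ', hq', hcQ⟩ : ∃ Q' : ℕ, 0 < Q' ∧ |(π : ℝ) / Q' - α| < ε ∧
        ¬ (c * Q' ≡ 1 [MOD π]) := by
      by_contra hcon
      push Not at hcon
      have h1 := hcon Q hQ hq1
      have h2 := hcon (Q + 1) (Nat.succ_pos _) hq2
      have h3 : c * Q + c ≡ c * Q + 0 [MOD π] := by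
        have : c * (Q + 1) = c * Q + c := by ring
        rw [this] at h2
        exact h2.trans (by simpa using h1.symm)
      have h4 : c ≡ 0 [MOD π] := Nat.ModEq.add_left_cancel' _ h3
      have h5 : (0 : ℕ) ≡ 1 [MOD π] := by
        have h6 := (h4.mul_right Q).symm.trans h1
        rwa [zero_mul] at h6
      have h7 := (Nat.modEq_zero_iff_dvd.1 h5.symm)
      exact hπ.one_lt.ne' (Nat.dvd_one.1 h7)
    refine ⟨π, Q', π, hπ.pos, hQ', hπ.pos, hq', ?_⟩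
    filter_upwards [hdiv, hc, hpos] with m hm hmc hm0
    obtain ⟨t, rfl⟩ := hm
    rw [Nat.mul_div_cancel_left _ hπ.pos] at hmc
    have ht : 0 < t := Nat.pos_of_mul_pos_left hm0
    have htQ : 1 ≤ t * Q' := Nat.mul_pos ht hQ'
    refine ⟨t * Q' - 1, ?_, ?_⟩
    · obtain ⟨s, hs⟩ : ∃ s, t * Q' = s + 1 := ⟨t * Q' - 1, by omega⟩
      rw [hs, Nat.add_sub_cancel]
      have : π * t * Q' = π * (s + 1) := by rw [← hs]; ring
      rw [this]; ring
    · rintro l hl ⟨hl1, hl2, _⟩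
      have hlπ : l = π := (Nat.prime_dvd_prime_iff_eq hl hπ).1 hl2
      rw [hlπ] at hl1
      apply hcQ
      have h1 : t * Q' ≡ 1 [MOD π] := by
        have h2 : t * Q' - 1 ≡ 0 [MOD π] := Nat.modEq_zero_iff_dvd.2 hl1
        have h3 := h2.add_right 1
        rwa [Nat.sub_add_cancel htQ, zero_add] at h3
      have h2 : t ≡ c [MOD π] := by
        have : t % π = c := hmc
        rw [← this]
        exact (Nat.mod_modEq t π).symm
      exact (h2.mul_right Q').symm.trans h1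
  · push Not at hB
    obtain ⟨N, hN⟩ := hB
    have hN' : ∀ π : ℕ, π.Prime → N < π → ∀ᶠ m in (𝒰 : Filter ℕ), ¬ π ∣ m := by
      intro π hπ hNπ
      exact hN π hπ hNπ
    obtain ⟨P, hPge, hP⟩ := Nat.exists_infinite_primes (max (N + 1) P0)
    have hPN : N < P := lt_of_lt_of_le (Nat.lt_succ_self N) ((le_max_left _ _).trans hPge)
    obtain ⟨Q, hQ, hq1, hq2⟩ := hP0 P ((le_max_right _ _).trans hPge)
    obtain ⟨Q', hQ', hq', hPQ⟩ : ∃ Q' : ℕ, 0 < Q' ∧ |(P : ℝ) / Q' - α| < ε ∧ ¬ P ∣ Q' := by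
      by_contra hcon
      push Not at hcon
      have h1 := hcon Q hQ hq1
      have h2 := hcon (Q + 1) (Nat.succ_pos _) hq2
      have h3 := (Nat.dvd_add_right h1).1 h2
      exact hP.one_lt.ne' (Nat.dvd_one.1 h3)
    obtain ⟨c, hc⟩ := TmA_res 𝒰 (fun m => m % P) P (fun m => Nat.mod_lt _ hP.pos)
    have hc0 : ¬ P ∣ c := by
      intro hPc
      obtain ⟨m, hm1, hm2⟩ := (hc.and (hN' P hP hPN)).exists
      apply hm2
      have : m ≡ c [MOD P] := by
        rw [← hm1]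
        exact (Nat.mod_modEq m P).symm
      exact (Nat.modEq_zero_iff_dvd.1 (this.trans (Nat.modEq_zero_iff_dvd.2 hPc)))
    have hcop : (Q' * c).Coprime P := by
      rw [Nat.coprime_comm, hP.coprime_iff_not_dvd, hP.dvd_mul]
      tauto
    obtain ⟨k, hk1, hk, hk2⟩ := Nat.forall_exists_prime_gt_and_modEq N hP.ne_zero hcop
    refine ⟨P, Q', k, hP.pos, hQ', hk.pos, hq', ?_⟩
    have hbig : ∀ᶠ m in (𝒰 : Filter ℕ), k ≤ m := (Filter.eventually_ge_atTop k).filter_mono h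
    filter_upwards [hc, hN' k hk hk1, hbig] with m hmc hkm hmk
    have h1 : k ≤ m * Q' := hmk.trans (Nat.le_mul_of_pos_right _ hQ')
    have h2 : m ≡ c [MOD P] := by
      have : m % P = c := hmc
      rw [← this]
      exact (Nat.mod_modEq m P).symm
    have h3 : k ≡ m * Q' [MOD P] := by
      refine hk2.trans ?_
      rw [mul_comm Q' c]
      exact (h2.mul_right Q').symm
    obtain ⟨n, hn⟩ := (Nat.modEq_iff_dvd' h1).1 h3
    refine ⟨n, ?_, ?_⟩
    · rw [mul_comm n P, ← hn]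
      exact Nat.sub_add_cancel h1
    · rintro l hl ⟨_, hl2, hl3⟩
      have hlk : l = k := (Nat.prime_dvd_prime_iff_eq hl hk).1 hl2
      exact hkm (hlk ▸ hl3)

end Pool.Agent.SC
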