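import Pool.Agent.Lib.MP_1e8d1a_an.SC.Defs

/-! row Trans1 -/

open scoped ContDiff Manifold Topology

namespace Pool.Agent.SC

/-- the derivative `id + B` with `‖B‖ ≤ 1/4` as a continuous linear equivalence -/
theorem Trans1_equiv {E : Type} [NormedAddCommGroup E] [NormedSpace ℝ E]
    [FiniteDimensional ℝ E] (B : E →L[ℝ] E) (hB : ‖B‖ ≤ 1 / 4) :
    ∃ A : E ≃L[ℝ] E, (A : E →L[ℝ] E) = ContinuousLinearMap.id ℝ E + B := by
  have hinj : Function.Injective (ContinuousLinearMap.id ℝ E + B : E →L[ℝ] E).toLinearMap := by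
    rw [injective_iff_map_eq_zero]
    intro x hx
    have h1 : x + B x = 0 := by simpa using hx
    have h2 : ‖x‖ = ‖B x‖ := by
      rw [eq_neg_of_add_eq_zero_left h1, norm_neg, ← eq_neg_of_add_eq_zero_left h1]
    have h3 : ‖B x‖ ≤ 1 / 4 * ‖x‖ := (B.le_opNorm x).trans
      (mul_le_mul_of_nonneg_right hB (norm_nonneg x))
    have h4 : ‖x‖ ≤ 0 := by linarith
    exact norm_le_zero_iff.1 h4
  refine ⟨(LinearEquiv.ofInjectiveEndo _ hinj).toContinuousLinearEquiv, ?_⟩
  ext x
  simp [LinearEquiv.ofInjectiveEndo]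

/-- PROOF.  Let `β : ContDiffBump (0 : E)` with `rIn = δ / 4`, `rOut = δ / 2`: smooth, values in
`[0, 1]`, `β y = 1` for `‖y‖ ≤ δ / 4`, `β y = 0` for `‖y‖ ≥ δ / 2`, compact support, so its
derivative is bounded: `‖fderiv ℝ β y‖ ≤ L` for all `y` (`HasCompactSupport.fderiv`,
`Continuous.bounded_above_of_compact_support`).  Put `η₀ = 1 / (4 * (L + 1))`, `β₂` a second bump
at `0` with radii `η₀ / 2`, `η₀`, and `κ v = β₂ v • v`: smooth, `‖κ v‖ ≤ η₀` for all `v`,
`κ v = v` for `‖v‖ ≤ η₀ / 2`.  Define `S (v, y) = y + β y • κ v`.  It is smooth; `S (0, y) = y`;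
`S (v, y) = y` if `‖y‖ ≥ δ`; `S (v, y) = y + v` if `‖v‖ ≤ η`, `‖y‖ ≤ η`, `η = min (η₀ / 2) (δ / 4)`.
For fixed `v` the map `y ↦ β y • κ v` is Lipschitz with constant `L η₀ ≤ 1 / 4` (mean value
inequality, `lipschitzWith_of_nnnorm_fderiv_le`), so `S (v, ·)` approximates the identity on `univ`
with constant `1/4` (`ApproximatesLinearOn`), hence it is a homeomorphism
(`ApproximatesLinearOn.toHomeomorph`, finite dimensional so complete; if `E` is a subsingleton
everything is trivial).  Its derivative at `y` is `id + (fderiv ℝ β y ·) • κ v`, which differs from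
the identity by less than `1/2`, so it is a continuous linear equivalence
(`ContinuousLinearEquiv.unitsEquiv`, `Units.oneSub`/`Units.add`...), and the inverse is smooth by
`Homeomorph.contDiff_symm`. -/
theorem exists_bump_translation {E : Type} [NormedAddCommGroup E] [NormedSpace ℝ E]
    [FiniteDimensional ℝ E] (δ : ℝ) (hδ : 0 < δ) :
    ∃ S : E × E → E, ContDiff ℝ ∞ S ∧
      (∀ v, ∃ R : E → E, ContDiff ℝ ∞ R ∧ (∀ y, R (S (v, y)) = y) ∧ ∀ y, S (v, R y) = y) ∧
      (∀ y, S (0, y) = y) ∧ (∀ v y, δ ≤ ‖y‖ → S (v, y) = y) ∧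
      ∃ η > 0, ∀ v y, ‖v‖ ≤ η → ‖y‖ ≤ η → S (v, y) = y + v := by
  have : CompleteSpace E := FiniteDimensional.complete ℝ E
  let β : ContDiffBump (0 : E) := ⟨δ / 4, δ / 2, by linarith, by linarith⟩
  have hβs : ContDiff ℝ ∞ (β : E → ℝ) := β.contDiff
  have hβd : Differentiable ℝ (β : E → ℝ) := hβs.differentiable (by simp)
  obtain ⟨L, hL⟩ : ∃ L, ∀ y, ‖fderiv ℝ (β : E → ℝ) y‖ ≤ L :=
    (hβs.continuous_fderiv (by simp)).bounded_above_of_compact_support
      (β.hasCompactSupport.fderiv ℝ)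
  have hL0 : 0 ≤ L := (norm_nonneg _).trans (hL 0)
  set η₀ : ℝ := 1 / (4 * (L + 1)) with hη₀
  have hη₀pos : 0 < η₀ := by positivity
  have hLη : L * η₀ ≤ 1 / 4 := by
    rw [hη₀, mul_one_div, div_le_div_iff₀ (by positivity) (by norm_num)]
    linarith
  let β₂ : ContDiffBump (0 : E) := ⟨η₀ / 2, η₀, by linarith, by linarith⟩
  have hβ₂s : ContDiff ℝ ∞ (β₂ : E → ℝ) := β₂.contDiff
  have hκ : ∀ v : E, ‖β₂ v • v‖ ≤ η₀ := by
    intro v
    rw [norm_smul, Real.norm_eq_abs, abs_of_nonneg β₂.nonneg]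
    by_cases hv : η₀ ≤ ‖v‖
    · have : β₂ v = 0 := β₂.zero_of_le_dist (by simpa [β₂, dist_zero_right] using hv)
      rw [this, zero_mul]
      exact hη₀pos.le
    · have h1 : β₂ v * ‖v‖ ≤ 1 * ‖v‖ := mul_le_mul_of_nonneg_right β₂.le_one (norm_nonneg v)
      push Not at hv
      linarith
  refine ⟨fun p => p.2 + β p.2 • (β₂ p.1 • p.1), ?_, ?_, ?_, ?_, ?_⟩
  · exact contDiff_snd.add ((hβs.comp contDiff_snd).smul
      ((hβ₂s.comp contDiff_fst).smul contDiff_fst))
  · intro v
    set c : E := β₂ v • v with hc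
    have hg : ∀ y, HasFDerivAt (fun y : E => β y • c)
        ((fderiv ℝ (β : E → ℝ) y).smulRight c) y := by
      intro y
      exact (hβd y).hasFDerivAt.smul_const c
    have hnorm : ∀ y, ‖(fderiv ℝ (β : E → ℝ) y).smulRight c‖ ≤ 1 / 4 := by
      intro y
      rw [ContinuousLinearMap.norm_smulRight_apply]
      exact (mul_le_mul (hL y) (hκ v) (norm_nonneg _) hL0).trans hLη
    have hlip : LipschitzWith (1 / 4 : NNReal) (fun y : E => β y • c) := by
      refine lipschitzWith_of_nnnorm_fderiv_le (𝕜 := ℝ)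
        (fun y => (hg y).differentiableAt) (fun y => ?_)
      rw [(hg y).fderiv, ← NNReal.coe_le_coe]
      simpa using hnorm y
    have happ : ApproximatesLinearOn (fun y : E => y + β y • c)
        ((ContinuousLinearEquiv.refl ℝ E : E ≃L[ℝ] E) : E →L[ℝ] E) Set.univ (1 / 4 : NNReal) := by
      intro x _ y _
      have h := hlip.dist_le_mul x y
      rw [dist_eq_norm, dist_eq_norm] at h
      have e : (x + β x • c) - (y + β y • c) -
          ((ContinuousLinearEquiv.refl ℝ E : E ≃L[ℝ] E) : E →L[ℝ] E) (x - y) =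
          β x • c - β y • c := by
        simp only [ContinuousLinearEquiv.coe_refl, ContinuousLinearMap.coe_id', id_eq]
        abel
      rw [e]
      exact h
    have hsub : Subsingleton E ∨
        (1 / 4 : NNReal) < ‖((ContinuousLinearEquiv.refl ℝ E : E ≃L[ℝ] E).symm : E →L[ℝ] E)‖₊⁻¹ := by
      rcases subsingleton_or_nontrivial E with h | h
      · exact Or.inl h
      · refine Or.inr ?_
        have h1 : ‖((ContinuousLinearEquiv.refl ℝ E : E ≃L[ℝ] E).symm : E →L[ℝ] E)‖₊ = 1 := by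
          have h2 : ((ContinuousLinearEquiv.refl ℝ E : E ≃L[ℝ] E).symm : E →L[ℝ] E) =
            ContinuousLinearMap.id ℝ E := rfl
          rw [h2, ← NNReal.coe_inj]
          exact ContinuousLinearMap.norm_id
        rw [h1, inv_one, ← NNReal.coe_lt_coe]
        norm_num
    choose A hA using fun y => Trans1_equiv ((fderiv ℝ (β : E → ℝ) y).smulRight c) (hnorm y)
    have hder : ∀ y, HasFDerivAt (fun y : E => y + β y • c) (A y : E →L[ℝ] E) y := by
      intro y
      rw [hA]
      exact (hasFDerivAt_id y).add (hg y)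
    have hsm : ContDiff ℝ ∞ (fun y : E => y + β y • c) :=
      contDiff_id.add (hβs.smul contDiff_const)
    let Φ : E ≃ₜ E := happ.toHomeomorph _ hsub
    refine ⟨Φ.symm, Homeomorph.contDiff_symm Φ (f₀' := A) hder hsm, fun y => ?_, fun y => ?_⟩
    · exact Φ.symm_apply_apply y
    · exact Φ.apply_symm_apply y
  · intro y
    simp
  · intro v y hy
    have : β y = 0 := β.zero_of_le_dist (by
      rw [dist_zero_right]
      show δ / 2 ≤ ‖y‖
      linarith)
    simp [this]
  · refine ⟨min (η₀ / 2) (δ / 4), lt_min (by linarith) (by linarith), ?_⟩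
    intro v y hv hy
    have h1 : β y = 1 := β.one_of_mem_closedBall (by
      rw [mem_closedBall_zero_iff]
      exact hy.trans (min_le_right _ _))
    have h2 : β₂ v = 1 := β₂.one_of_mem_closedBall (by
      rw [mem_closedBall_zero_iff]
      exact hv.trans (min_le_left _ _))
    simp [h1, h2]

end Pool.Agent.SC
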